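import Pool.Agent.MP_b2c033_nt.UP.Spec

/-!
The Weierstrass function is injective modulo the lattice and the sign.
-/

namespace Pool.Agent.MP_b2c033_nt.UP

open Filter Topology Set PeriodPair

namespace RInj

variable (L : PeriodPair)

theorem near {x : ℂ} (hx : x ∉ L.lattice) : ∀ᶠ z in 𝓝 x, z ∉ L.lattice :=
  L.isClosed_lattice.isOpen_compl.mem_nhds hx

theorem cnt : (L.lattice : Set ℂ).Countable :=
  Set.countable_coe_iff.1 L.latticeEquivProd.injective.countable

theorem hasP {x : ℂ} (hx : x ∉ L.lattice) : HasDerivAt ℘[L] (℘'[L] x) x := by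
  rw [← L.deriv_weierstrassP]
  exact (L.analyticOnNhd_weierstrassP x hx).differentiableAt.hasDerivAt

theorem pole {f : ℂ → ℂ} (hf : AnalyticAt ℂ f 0) (h : ℘[L] =ᶠ[𝓝[≠] 0] f) : False := by
  have h4 := hf.meromorphicOrderAt_nonneg
  rw [← meromorphicOrderAt_congr h, L.order_weierstrassP 0 (zero_mem _)] at h4
  exact absurd h4 (by decide)

theorem ode {x : ℂ} (hx : x ∉ L.lattice) :
    HasDerivAt ℘'[L] (6 * ℘[L] x ^ 2 - L.g₂ / 2) x := by
  have h0 := L.analyticOnNhd_derivWeierstrassP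
  have h1 : AnalyticOnNhd ℂ (fun z => 2 * deriv ℘'[L] z - (12 * ℘[L] z ^ 2 - L.g₂))
      (L.lattice : Set ℂ)ᶜ := (analyticOnNhd_const.mul h0.deriv).sub
    ((analyticOnNhd_const.mul (L.analyticOnNhd_weierstrassP.pow 2)).sub analyticOnNhd_const)
  have hc := ((cnt L).isConnected_compl_of_one_lt_rank (by simp)).isPreconnected
  rcases h0.eq_zero_or_eq_zero_of_mul_eq_zero h1 (fun z hz => by
    have h2 := (h0 z hz).differentiableAt.hasDerivAt.fun_pow 2
    have h3 := ((((hasP L hz).fun_pow 3).const_mul 4).fun_sub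
      ((hasP L hz).const_mul L.g₂)).sub_const L.g₃
    have h4 := (h3.congr_of_eventuallyEq
      ((near L hz).mono fun z hz => L.derivWeierstrassP_sq z hz)).unique h2
    simp only [Nat.cast_ofNat, Nat.add_one_sub_one, pow_one] at h4
    linear_combination -h4) hc with h2 | h2
  · obtain ⟨c, hc'⟩ := L.isClosed_lattice.isOpen_compl.exists_is_const_of_deriv_eq_zero hc
      L.differentiableOn_weierstrassP fun w hw => by simpa using h2 w hw
    refine (pole L (analyticAt_const (v := c)) ?_).elim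
    filter_upwards [self_mem_nhdsWithin,
      nhdsWithin_le_nhds (L.compl_lattice_sdiff_singleton_mem_nhds 0)] with z h3 h4
    exact hc' z fun h6 => h4 ⟨h6, h3⟩
  · refine (h0 x hx).differentiableAt.hasDerivAt.congr_deriv ?_
    linear_combination h2 x hx / 2

/-- Uniqueness for `v'' = v w`. -/
theorem ord0 {v w : ℂ → ℂ} {a : ℂ} (hv : AnalyticAt ℂ v a) (hw : AnalyticAt ℂ w a)
    (h : deriv (deriv v) =ᶠ[𝓝 a] v * w) (h0 : v a = 0) (h1 : deriv v a = 0) :
    ∀ᶠ z in 𝓝 a, v z = 0 := by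
  have e1 := hv.analyticOrderAt_deriv_add_one
  have e2 := hv.deriv.analyticOrderAt_deriv_add_one
  simp only [h0, h1, sub_zero] at e1 e2
  rw [analyticOrderAt_congr h, analyticOrderAt_mul hv hw] at e2
  have e3 : analyticOrderAt v a + analyticOrderAt w a + 1 + 1 = analyticOrderAt v a := by
    rw [e2]
    exact e1
  rw [← analyticOrderAt_eq_top]
  generalize analyticOrderAt v a = m at e3
  generalize analyticOrderAt w a = k at e3
  cases m with
  | top => rfl
  | coe m =>
    cases k with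
    | top => simp at e3
    | coe k =>
      norm_cast at e3
      omega

theorem key {a c : ℂ} (ha : a ∉ L.lattice) (hb : a + c ∉ L.lattice)
    (e0 : ℘[L] a = ℘[L] (a + c)) (e1 : ℘'[L] a = ℘'[L] (a + c)) : c ∈ L.lattice := by
  have hS : ((L.lattice : Set ℂ) ∪ (fun z => z + c) ⁻¹' L.lattice).Countable :=
    (cnt L).union ((cnt L).preimage (add_left_injective c))
  have hO : IsOpen ((L.lattice : Set ℂ) ∪ (fun z => z + c) ⁻¹' L.lattice)ᶜ :=
    (L.isClosed_lattice.union (L.isClosed_lattice.preimage (by fun_prop))).isOpen_compl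
  have an : ∀ z, z + c ∉ L.lattice → AnalyticAt ℂ (fun z => ℘[L] (z + c)) z := fun z hz =>
    (L.analyticOnNhd_weierstrassP _ hz).comp (f := fun z => z + c) (by fun_prop)
  have hv : AnalyticOnNhd ℂ (fun z => ℘[L] z - ℘[L] (z + c))
      ((L.lattice : Set ℂ) ∪ (fun z => z + c) ⁻¹' L.lattice)ᶜ := fun z hz =>
    (L.analyticOnNhd_weierstrassP z fun h => hz (Or.inl h)).sub (an z fun h => hz (Or.inr h))
  have d1 : ∀ z ∈ ((L.lattice : Set ℂ) ∪ (fun z => z + c) ⁻¹' L.lattice)ᶜ,
      deriv (fun z => ℘[L] z - ℘[L] (z + c)) z = ℘'[L] z - ℘'[L] (z + c) := fun z hz =>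
    ((hasP L fun h => hz (Or.inl h)).fun_sub
      ((hasP L fun h => hz (Or.inr h)).comp_add_const z c)).deriv
  have hm : a ∈ ((L.lattice : Set ℂ) ∪ (fun z => z + c) ⁻¹' L.lattice)ᶜ := fun h => h.elim ha hb
  have h1 := ord0 (w := fun z => 6 * (℘[L] z + ℘[L] (z + c))) (hv a hm)
    (analyticAt_const.mul ((L.analyticOnNhd_weierstrassP a ha).add (an a hb))) (by
      filter_upwards [hO.mem_nhds hm] with z hz
      rw [Filter.EventuallyEq.deriv_eq (mem_of_superset (hO.mem_nhds hz) d1),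
        ((ode L fun h => hz (Or.inl h)).fun_sub
          ((ode L fun h => hz (Or.inr h)).comp_add_const z c)).deriv, Pi.mul_apply]
      ring) (sub_eq_zero.2 e0) (by rw [d1 a hm, e1, sub_self])
  have h2 := hv.eqOn_zero_of_preconnected_of_eventuallyEq_zero
    (hS.isConnected_compl_of_one_lt_rank (by simp)).isPreconnected hm h1
  by_contra hc
  have hc' : 0 + c ∉ L.lattice := by rwa [zero_add]
  refine pole L (an 0 hc') ?_
  filter_upwards [self_mem_nhdsWithin,
    nhdsWithin_le_nhds (L.compl_lattice_sdiff_singleton_mem_nhds 0),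
    nhdsWithin_le_nhds (((continuous_add_const c).tendsto 0).eventually (near L hc'))]
    with z h3 h4 h5
  exact sub_eq_zero.1 (h2 fun h6 => h6.elim (fun h6 => h4 ⟨h6, h3⟩) h5)

theorem both {z w : ℂ} (hz : z ∉ L.lattice) (hw : w ∉ L.lattice) (e0 : ℘[L] z = ℘[L] w)
    (e1 : ℘'[L] z = ℘'[L] w) : z - w ∈ L.lattice := by
  refine key L hw ?_ ?_ ?_ <;> rw [add_sub_cancel]
  exacts [hz, e0.symm, e1.symm]

end RInj

theorem rInj : SInj := fun L z w hz hw h => by
  have e : ℘'[L] z ^ 2 = ℘'[L] w ^ 2 := by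
    rw [L.derivWeierstrassP_sq z hz, L.derivWeierstrassP_sq w hw, h]
  refine (sq_eq_sq_iff_eq_or_eq_neg.1 e).imp (RInj.both L hz hw h) fun q => ?_
  simpa using RInj.both L hz (w := -w) (fun k => hw (neg_mem_iff.1 k))
    (by rw [L.weierstrassP_neg, h]) (by rw [L.derivWeierstrassP_neg, q])

end Pool.Agent.MP_b2c033_nt.UP
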