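import Pool.Agent.MP_b2c033_nt.UP.Chk

/-! Checks of relations. -/

namespace Pool.Agent.MP_b2c033_nt.UP

theorem kc21_1_0_0_1_0 :
    chk 21 [(.D 21 4 false 3 false 9 0, 1), (.D 21 3 false 1 false 9 0, 1)] [(.D 21 10 false 3
    false 9 0, 1), (.D 21 8 false 3 false 9 0, 1)] [(.D 21 6 false 1 false 9 0, 1), (.D 21 5
    false 3 false 9 0, 1)] [(.D 21 10 false 6 false 9 0, 1), (.D 21 7 false 3 false 9 0, 1)] [[0,
    -1, -2, -3, -2, -1], [0, -1, 1, 0, 0, 0], [1, 0, 0, 0, 0, 0]] 5 515 5 = true := by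
  decide +kernel

theorem kc48_0_1_0_m24_36 :
    chk 48 [(.D 12 6 false 4 false 21 0, 1)] [(.D 24 6 true 8 false 14 0, 1)] [(.D 24 8 true 4
    true 14 0, 1), (.D 6 3 true 3 false 29 0, 1)] [(.D 24 10 false 8 false 14 0, 1), (.D 24 8
    false 2 false 14 0, 1)] [[0, 128, -112, -16], [0, 0, 0, 0], [1, 0, 0, 0]] 3 1345 5 = true :=
    by
  decide +kernel

end Pool.Agent.MP_b2c033_nt.UP
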