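import Pool.Agent.MP_b2c033_nt.UP.Chk

/-! Checks of relations. -/

namespace Pool.Agent.MP_b2c033_nt.UP

theorem kc49_1_m1_0_m2_m1 :
    chk 49 [(.E 49 39, 2)] [(.D 49 2 false 1 false 39 1, 1), (.D 49 5 false 3 false 39 1, 1), (.D
    49 15 false 4 false 39 1, 1), (.D 49 20 false 6 false 39 1, 1), (.D 49 22 false 7 false 39 1,
    1), (.D 49 24 false 8 false 39 1, 1), (.D 49 18 false 9 false 39 1, 1), (.D 49 14 false 10
    false 39 1, 1), (.D 49 17 false 11 false 39 1, 1), (.D 49 19 false 12 false 39 1, 1), (.D 49
    23 false 13 false 39 1, 1), (.D 49 21 false 16 false 39 1, 1)] [(.E 49 39, 1)] [(.D 49 14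
    false 7 false 39 2, 2), (.D 49 21 false 7 false 39 2, 2), (.D 49 21 false 14 false 39 2, 2)]
    [[0, -243119043119886502965801097304282222297088, -81420075633321043570829949960978432,
    -11686036538898454087615905792, -1304543330763376951296, -187238109413376, -20901888, -1],
    [0, -20099127242054109041484879076081532928, -4807969318861078253190544097280,
    -322035839365587910262784, 0, 0, 0, 0], [708801874985091845381344307009569161216, 0, 0, 0, 0,
    0, 0, 0]] 7 19209 99 = true := by
  decide +kernel

end Pool.Agent.MP_b2c033_nt.UP
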