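import Pool.Agent.MP_b2c033_nt.UP.Snd2
import Pool.Agent.MP_b2c033_nt.UP.KD
import Pool.Agent.MP_b2c033_nt.UP.KE

/-! Parametrizations by modular units. -/

namespace Pool.Agent.MP_b2c033_nt.UP

open U

theorem pc21_1_0_0_1_0 : Param (toQ (mkW (1, 0, 0, 1, 0))) (cond (mkW (1, 0, 0, 1, 0))) :=
  fin (1) (0) [0, 0, 1] [1, 1] [-1] kc21_1_0_0_1_0 (by decide +kernel) fun K _ _ F G h => by
    simp only [pv2, pv, List.foldr] at h ⊢
    push_cast at h ⊢
    linear_combination ((1) * F ^ 0) * h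

theorem pc48_0_1_0_m24_36 : Param (toQ (mkW (0, 1, 0, -24, 36))) (cond (mkW (0, 1, 0, -24, 36))) :=
  fin (1) (2) [0, 0] [4] [1] kc48_0_1_0_m24_36 (by decide +kernel) fun K _ _ F G h => by
    simp only [pv2, pv, List.foldr] at h ⊢
    push_cast at h ⊢
    linear_combination ((1) * F ^ 0) * h

theorem pc49_1_m1_0_m2_m1 : Param (toQ (mkW (1, -1, 0, -2, -1))) (cond (mkW (1, -1, 0, -2, -1))) :=
  fin (1 / 2985984) (2) [-62121110988732235776, 41608468758528, 12939264, 1]
  [-62121110988732235776, -20804234379264, -995328] [5135673858195456] kc49_1_m1_0_m2_m1 (by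
  decide +kernel) fun K _ _ F G h => by
    simp only [pv2, pv, List.foldr] at h ⊢
    push_cast at h ⊢
    linear_combination ((1 / 26873856) * F ^ 0) * h

end Pool.Agent.MP_b2c033_nt.UP
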