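import Pool.Agent.MP_b2c033_nt.UP.PA
import Pool.Agent.MP_b2c033_nt.UP.PB
import Pool.Agent.MP_b2c033_nt.U.Lists

/-! The curves of the list are parametrized by modular units at their conductor. -/

namespace Pool.Agent.MP_b2c033_nt.U

open UP

theorem s_Pos : S_Pos posL := by
  simp only [S_Pos, posL, List.forall_mem_cons, List.not_mem_nil, false_imp_iff, implies_true,
    and_true]
  exact ⟨pc11_0_m1_1_0_0, pc14_1_0_1_m1_0, pc14_1_0_1_m11_12, pc15_1_1_1_m5_2, pc15_1_1_1_0_0,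
    pc17_1_m1_1_m1_0, pc19_0_1_1_1_0, pc20_0_1_0_m1_0, pc20_0_1_0_4_4, pc21_1_0_0_1_0,
    pc24_0_m1_0_m4_4, pc24_0_m1_0_1_0, pc27_0_0_1_0_0, pc32_0_0_0_m1_0, pc32_0_0_0_m11_m14,
    pc32_0_0_0_m11_14, pc32_0_0_0_4_0, pc36_0_0_0_0_1, pc40_0_0_0_m2_1, pc48_0_1_0_m24_36,
    pc48_0_1_0_m4_m4, pc48_0_1_0_1_0, pc49_1_m1_0_m2_m1, pc64_0_0_0_m4_0, pc64_0_0_0_1_0,
    pc80_0_m1_0_m1_0, pc80_0_0_0_m2_m1, pc144_0_0_0_0_m1⟩

end Pool.Agent.MP_b2c033_nt.U
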