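import Pool.Agent.MP_b2c033_nt.UP.Spec2

/-!
The checker for relations between two quotients of monomials.
-/

namespace Pool.Agent.MP_b2c033_nt.UP

open scoped PowerSeries

/-- The building blocks. -/
inductive Bk
  | D (d a : ℕ) (e : Bool) (b : ℕ) (f : Bool) (J r : ℕ)
  | E (d J : ℕ)

/-- The expansion. -/
noncomputable def Bk.ser : Bk → ℤ⟦X⟧
  | .D d a e b f _ _ => dS d a e b f
  | .E d _ => eS d

/-- The weight. -/
def Bk.wt : Bk → ℕ
  | .D .. => 2
  | .E .. => 12

/-- Admissible parameters. -/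
def Bk.ok (N : ℕ) : Bk → Bool
  | .D d a e b f _ _ => decide (0 < a ∧ a < d ∧ 0 < b ∧ b < d ∧ d ∣ N ∧
      (e = true ∨ f = true → 2 * d ∣ N) ∧ (e = f → a ≠ b ∧ a + b ≠ d))
  | .E d _ => decide (0 < d ∧ d ∣ N)

/-- Arithmetic: exact with absolute values (`K = 0`, `md = false`) or modulo `2 ^ (K * B)`. -/
structure Ar where
  md : Bool
  K : ℕ
  B : ℕ
  q : ℕ
  mask : ℕ

/-- The exact arithmetic. -/
def arE (B : ℕ) : Ar := ⟨false, 0, B, 0, 0⟩

/-- Evaluation in the modular arithmetic. -/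
def arM (K B : ℕ) (k : Ar → ℕ) : ℕ :=
  frc (Nat.shiftLeft 1 (K * B)) fun q => frc (Nat.sub q 1) fun m => k ⟨true, K, B, q, m⟩

namespace Ar

variable (R : Ar)

/-- Reduction. -/
def red (x : ℕ) : ℕ := cond R.md (Nat.land x R.mask) x

/-- Product. -/
def mul (x y : ℕ) : ℕ := R.red (Nat.mul x y)

/-- Negation. -/
def neg (x : ℕ) : ℕ := cond R.md (Nat.sub R.q (Nat.land x R.mask)) x

/-- Product with an integer. -/
def smul (c : ℤ) (x : ℕ) : ℕ :=
  Int.casesOn c (fun n => Nat.mul n x) fun n => R.neg (Nat.mul n.succ x)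

/-- Evaluation with the least spacing of the digits, then change of the spacing. -/
def rs (f : Ar → ℕ) : ℕ :=
  cond R.md (frc R.B fun B => frc (Nat.log2 (f (arE B)) + 1) fun K =>
    frc (arM (K + 1) B f) fun x => resp K R.K B x) (f R)

/-- A series with distinct coefficients. -/
def dn : ℕ := frc R.K fun K => frc R.B fun B => frc (geo K (Nat.log2 B + 1)) fun g => R.mul g g

/-- The same as `rs`, for a series with many zero coefficients. -/
def rd (f : Ar → ℕ) : ℕ := Nat.add (R.rs fun S => Nat.add (f S) S.dn) (R.neg R.dn)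

/-- A Lambert series. -/
def lam (c : ℕ → ℕ) (d a J : ℕ) : ℕ := frc R.K fun K => frc R.B fun B => lamN c d a K B J

/-- The sum over `r ≡ ± a`. -/
def pN (c : ℕ → ℕ) (d a J : ℕ) : ℕ := Nat.add (R.lam c d a J) (R.lam c d (d - a) J)

/-- The negative part. -/
def pM (e : Bool) (d a J : ℕ) : ℕ := cond e (R.pN (cm true) d a J) 0

/-- The value of a difference. -/
def dv (d a : ℕ) (e : Bool) (b : ℕ) (f : Bool) (J : ℕ) : ℕ :=
  R.red (Nat.add (Nat.add (R.pN (cp e) d a J) (R.pM f d b J))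
    (R.neg (Nat.add (R.pM e d a J) (R.pN (cp f) d b J))))

/-- The value of a block. -/
def bk : Bk → ℕ
  | .D d a e b f J r => Nat.casesOn r (R.dv d a e b f J) fun r =>
      Nat.casesOn r (R.rs fun S => S.dv d a e b f J) fun _ => R.rd fun S => S.dv d a e b f J
  | .E d J => frc (Nat.add 1 (Nat.mul 240 (R.rd fun S => S.lam (fun k => k ^ 3) d d J))) fun x =>
      frc (Nat.add 1 (R.neg (Nat.mul 504 (R.rd fun S => S.lam (fun k => k ^ 5) d d J)))) fun y =>
        R.red (Nat.add (R.mul (R.mul x x) x) (R.neg (R.mul y y)))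

/-- Powers. -/
def pw (x n : ℕ) : ℕ := Nat.rec 1 (fun _ ih => R.mul ih x) n

/-- The value of a monomial. -/
def mon (l : List (Bk × ℕ)) : ℕ :=
  List.rec 1 (fun p _ ih => R.mul (frc (R.bk p.1) fun x => R.pw x p.2) ih) l

/-- The homogeneous form with integer coefficients `l`, passed on with the power of `y`. -/
def hi (x y : ℕ) (l : List ℤ) : (ℕ → ℕ → ℕ) → ℕ :=
  List.rec (fun k => k 0 1) (fun c _ ih k => ih fun h p =>
    frc (Nat.add (R.mul h x) (R.smul c p)) fun h' => frc (R.mul p y) fun p' => k h' p') l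

/-- The bihomogeneous form. -/
def ho (x y x' y' : ℕ) (l : List (List ℤ)) : (ℕ → ℕ → ℕ) → ℕ :=
  List.rec (fun k => k 0 1) (fun c _ ih k => ih fun h p =>
    frc (Nat.add (R.mul h x') (R.mul (R.hi x y c fun a _ => a) p)) fun h' =>
      frc (R.mul p y') fun p' => k h' p') l

end Ar

/-- The weight of a monomial. -/
def wtL (l : List (Bk × ℕ)) : ℕ := (l.map fun p => p.1.wt * p.2).sum

/-- The expansion of a monomial. -/
noncomputable def serL (l : List (Bk × ℕ)) : ℤ⟦X⟧ := (l.map fun p => p.1.ser ^ p.2).prod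

/-- One if the condition holds. -/
def bn (b : Bool) : ℕ := cond b 1 0

/-- The numerical part of the check. -/
def chkN (A M A' M' : List (Bk × ℕ)) (c : List (List ℤ)) (B B' : ℕ) : ℕ :=
  frc ((arE B).rd fun S => S.mon A) fun sA => frc ((arE B).rd fun S => S.mon M) fun sM =>
  frc ((arE B).rd fun S => S.mon A') fun sA' => frc ((arE B).rd fun S => S.mon M') fun sM' =>
  frc (Nat.log2 (sM + (arE B).ho sA sM sA' sM' c fun h _ => h) + 1) fun K =>
  frc (Nat.sub (Nat.shiftLeft 1 (K * B')) 1) fun mask' => arM K B fun R =>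
  frc (R.rd fun S => S.mon A) fun xA => frc (R.rd fun S => S.mon M) fun xM =>
  frc (R.rd fun S => S.mon A') fun xA' => frc (R.rd fun S => S.mon M') fun xM' =>
    bn (Nat.beq (Nat.land xM mask') 0 && !Nat.beq (Nat.land xA mask') 0 &&
      Nat.beq (R.red (R.ho xA xM xA' xM' c fun h _ => h)) 0)

/-- The check. -/
def chk (N : ℕ) (A M A' M' : List (Bk × ℕ)) (c : List (List ℤ)) (n B B' : ℕ) : Bool :=
  (A ++ M ++ A' ++ M').all (fun p => p.1.ok N) && c.all (fun l => l.length == n + 1) &&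
    decide (2 < N ∧ wtL A = wtL M ∧ wtL A' = wtL M' ∧ B' ≤ B ∧ c ≠ [] ∧
      (n * wtL M + (c.length - 1) * wtL M') * N ^ 2 < 24 * B) &&
    Nat.beq (chkN A M A' M' c B B') 1

end Pool.Agent.MP_b2c033_nt.UP
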