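import Pool.Agent.MP_b2c033_nt.UP.Chk

/-! Checks of relations. -/

namespace Pool.Agent.MP_b2c033_nt.UP

theorem kc11_0_m1_1_0_0 :
    chk 11 [(.D 11 5 false 1 false 4 0, 1)] [(.D 11 5 false 3 false 4 0, 1)] [(.D 11 4 false 1
    false 4 0, 1)] [(.D 11 5 false 4 false 4 0, 1)] [[0, 0, 1, -1], [1, 0, 0, 0], [1, 0, 0, 0]] 3
    51 2 = true := by
  decide +kernel

theorem kc14_1_0_1_m1_0 :
    chk 14 [(.D 14 5 false 2 false 4 0, 1)] [(.D 14 5 false 4 false 4 0, 1)] [(.D 14 5 false 2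
    false 4 0, 1)] [(.D 14 6 false 5 false 4 0, 1)] [[0, -2, 3, -1], [0, 1, 0, 0], [1, 0, 0, 0]]
    3 82 3 = true := by
  decide +kernel

theorem kc14_1_0_1_m11_12 :
    chk 14 [(.D 14 6 false 4 false 6 0, 1), (.D 14 5 false 4 false 6 0, 1)] [(.D 14 6 false 5
    false 6 0, 2)] [(.D 14 6 false 2 false 6 0, 1), (.D 7 3 false 2 false 9 0, 1)] [(.D 14 6
    false 5 false 6 0, 1), (.D 7 3 true 2 false 9 0, 1)] [[0, 0, 0, -1], [1, 5, 0, 0], [1, 0, 0,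
    0]] 3 164 9 = true := by
  decide +kernel

theorem kc15_1_1_1_0_0 :
    chk 15 [(.D 15 3 false 1 false 6 0, 1), (.D 15 2 false 1 false 6 0, 1)] [(.D 15 7 false 1
    false 6 0, 1), (.D 15 6 false 3 false 6 0, 1)] [(.D 15 6 false 3 false 6 0, 1)] [(.D 15 7
    false 6 false 6 0, 1)] [[0, -1, 2, -1], [0, 1, 0, 0], [1, 0, 0, 0]] 3 151 3 = true := by
  decide +kernel

theorem kc15_1_1_1_m5_2 :
    chk 15 [(.D 15 6 false 3 false 5 0, 1)] [(.D 15 6 false 5 false 5 0, 1)] [(.D 15 4 false 1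
    false 5 0, 2)] [(.D 15 7 false 4 false 5 0, 1), (.D 15 2 false 1 false 5 0, 1)] [[0, 0, 1,
    -1], [3, -3, 0, 0], [1, 0, 0, 0]] 3 132 4 = true := by
  decide +kernel

theorem kc17_1_m1_1_m1_0 :
    chk 17 [(.D 17 5 false 3 false 7 0, 1), (.D 17 4 false 2 false 7 0, 1)] [(.D 17 7 false 3
    false 7 0, 1), (.D 17 5 false 4 false 7 0, 1)] [(.D 17 5 false 1 false 7 0, 1), (.D 17 4
    false 2 false 7 0, 1)] [(.D 17 7 false 5 false 7 0, 1), (.D 17 2 false 1 false 7 0, 1)] [[0,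
    0, 1, -1], [-1, 1, 0, 0], [1, 0, 0, 0]] 3 241 6 = true := by
  decide +kernel

theorem kc19_0_1_1_1_0 :
    chk 19 [(.D 19 6 false 3 false 8 0, 1), (.D 19 5 false 1 false 8 0, 1)] [(.D 19 7 false 5
    false 8 0, 1), (.D 19 6 false 1 false 8 0, 1)] [(.D 19 5 false 1 false 8 0, 1), (.D 19 4
    false 3 false 8 0, 1), (.D 19 8 false 2 false 8 0, 1)] [(.D 19 8 false 4 false 8 0, 2), (.D
    19 7 false 1 false 8 0, 1)] [[0, 0, 0, -1], [1, 2, 0, 0], [1, 0, 0, 0]] 3 362 5 = true := by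
  decide +kernel

theorem kc20_0_1_0_m1_0 :
    chk 20 [(.D 20 8 false 2 false 5 0, 1)] [(.D 20 8 false 4 false 5 0, 1)] [(.D 20 8 false 5
    false 5 0, 1)] [(.D 20 10 false 8 false 5 0, 1)] [[0, 0, 2, -1], [2, 0, 0, 0], [1, 0, 0, 0]]
    3 167 3 = true := by
  decide +kernel

theorem kc20_0_1_0_4_4 :
    chk 20 [(.D 20 6 false 2 false 5 0, 1)] [(.D 20 8 false 4 false 5 0, 1)] [(.D 10 3 false 1
    false 8 0, 1)] [(.D 20 8 false 4 false 5 0, 1)] [[0, -5, 6, -1], [0, -4, 0, 0], [1, 0, 0, 0]]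
    3 167 3 = true := by
  decide +kernel

theorem kc24_0_m1_0_1_0 :
    chk 24 [(.D 24 10 false 2 false 6 0, 1)] [(.D 24 10 false 4 false 6 0, 1)] [(.D 24 10 false 2
    false 6 0, 1)] [(.D 12 5 true 5 false 8 0, 1)] [[3, -6, 4, -1], [0, 0, 0, 0], [4, 0, 0, 0]] 3
    241 3 = true := by
  decide +kernel

theorem kc24_0_m1_0_m4_4 :
    chk 24 [(.D 24 6 false 4 false 6 0, 1)] [(.D 24 8 false 6 false 6 0, 1)] [(.D 12 4 false 3
    false 8 0, 1)] [(.D 24 8 false 6 false 6 0, 1)] [[1, 1, -1, -1], [-2, 2, 0, 0], [1, 0, 0, 0]]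
    3 241 5 = true := by
  decide +kernel

theorem kc27_0_0_1_0_0 :
    chk 27 [(.D 27 9 false 5 false 8 0, 1), (.D 27 7 false 2 false 8 0, 1)] [(.D 27 9 false 7
    false 8 0, 1), (.D 27 5 false 2 false 8 0, 1)] [(.D 27 6 false 3 false 8 0, 1)] [(.D 27 12
    false 6 false 8 0, 1)] [[1, -3, 3, -1], [1, 0, 0, 0], [1, 0, 0, 0]] 3 487 8 = true := by
  decide +kernel

theorem kc32_0_0_0_m1_0 :
    chk 32 [(.D 16 4 false 2 false 12 0, 1)] [(.D 32 12 false 4 false 8 0, 1)] [(.D 32 6 false 4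
    false 8 0, 1), (.D 16 1 true 1 false 12 0, 1)] [(.D 32 14 false 6 false 8 0, 1), (.D 32 12
    false 2 false 8 0, 1)] [[0, -8, 12, -4], [0, 0, 0, 0], [1, 0, 0, 0]] 3 598 3 = true := by
  decide +kernel

theorem kc32_0_0_0_4_0 :
    chk 32 [(.D 16 6 false 2 false 12 0, 1)] [(.D 32 12 false 4 false 8 0, 1)] [(.D 16 5 false 3
    false 12 0, 1), (.D 16 4 false 2 false 12 0, 1)] [(.D 32 13 false 3 false 8 0, 1), (.D 32 11
    false 5 false 8 0, 1)] [[16, -16, 6, -1], [0, 0, 0, 0], [1, 0, 0, 0]] 3 598 3 = true := by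
  decide +kernel

theorem kc32_0_0_0_m11_14 :
    chk 32 [(.D 16 6 true 4 false 12 0, 1)] [(.D 16 6 true 8 false 12 0, 1)] [(.D 32 8 false 4
    false 8 0, 1), (.D 8 4 false 3 false 17 0, 1)] [(.D 32 12 false 8 false 8 0, 1), (.D 16 4
    false 2 false 12 0, 1)] [[0, 0, 1, -1], [-4, 4, 0, 0], [1, 0, 0, 0]] 3 598 5 = true := by
  decide +kernel

theorem kc32_0_0_0_m11_m14 :
    chk 32 [(.D 16 6 false 2 false 12 0, 1)] [(.D 16 6 false 4 false 12 0, 1)] [(.D 16 6 true 2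
    true 12 0, 1), (.D 16 2 false 1 false 12 0, 1)] [(.D 16 6 false 5 false 12 0, 1), (.D 16 4
    false 1 false 12 0, 1)] [[8, -16, 9, -1], [0, 0, 0, 0], [1, 0, 0, 0]] 3 598 3 = true := by
  decide +kernel

theorem kc36_0_0_0_0_1 :
    chk 36 [(.D 36 6 false 2 false 9 0, 1), (.D 36 4 false 2 false 9 0, 1)] [(.D 36 16 false 4
    false 9 0, 1), (.D 36 12 false 2 false 9 0, 1)] [(.D 36 12 false 9 false 9 0, 1)] [(.D 36 18
    false 12 false 9 0, 1)] [[1, -3, 3, -1], [2, 0, 0, 0], [1, 0, 0, 0]] 3 865 5 = true := by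
  decide +kernel

end Pool.Agent.MP_b2c033_nt.UP
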