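import Pool.Agent.MP_b2c033_nt.UP.Chk

/-! Checks of relations. -/

namespace Pool.Agent.MP_b2c033_nt.UP

theorem kc40_0_0_0_m2_1 :
    chk 40 [(.D 40 16 false 8 false 9 0, 1)] [(.D 40 16 false 10 false 9 0, 1)] [(.D 40 8 false 4
    false 9 0, 1), (.D 20 6 false 5 false 13 0, 1)] [(.D 40 16 false 8 false 9 0, 1), (.D 20 5
    false 4 false 13 0, 1)] [[-1, 2, 0, -1], [0, 0, 0, 0], [1, 0, 0, 0]] 3 934 9 = true := by
  decide +kernel

theorem kc48_0_1_0_1_0 :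
    chk 48 [(.D 24 2 true 4 false 14 0, 1)] [(.D 24 6 false 4 false 14 0, 1)] [(.D 48 12 false 4
    false 10 0, 1), (.D 24 7 false 5 false 14 0, 1)] [(.D 48 19 false 5 false 10 0, 1), (.D 48 17
    false 7 false 10 0, 1)] [[1, -2, 2, -1], [0, 0, 0, 0], [1, 0, 0, 0]] 3 1345 3 = true := by
  decide +kernel

theorem kc48_0_1_0_m4_m4 :
    chk 48 [(.D 24 6 false 4 false 14 0, 1)] [(.D 24 8 false 6 false 14 0, 1)] [(.D 24 10 true 2
    true 14 0, 1), (.D 12 5 false 1 false 21 0, 1)] [(.D 24 11 false 1 false 14 0, 1), (.D 24 7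
    false 5 false 14 0, 1)] [[0, 3, 2, -1], [0, 0, 0, 0], [1, 0, 0, 0]] 3 1345 5 = true := by
  decide +kernel

theorem kc64_0_0_0_1_0 :
    chk 64 [(.D 64 16 false 8 false 14 0, 1), (.D 32 10 false 6 false 20 0, 1)] [(.D 64 26 false
    6 false 14 0, 1), (.D 64 22 false 10 false 14 0, 1)] [(.D 32 8 false 2 false 20 0, 1), (.D 16
    5 true 5 false 29 0, 1)] [(.D 32 12 true 8 false 20 0, 1), (.D 32 10 false 2 false 20 0, 1)]
    [[0, -4, 0, -4], [0, 0, 0, 0], [1, 0, 0, 0]] 3 3414 15 = true := by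
  decide +kernel

theorem kc64_0_0_0_m4_0 :
    chk 64 [(.D 16 6 false 2 false 24 0, 1)] [(.D 32 12 false 4 false 17 0, 1)] [(.D 16 4 true 2
    true 24 0, 1), (.D 16 3 true 3 false 24 0, 1)] [(.D 32 14 true 2 true 17 0, 1), (.D 32 8
    false 6 false 17 0, 1)] [[0, -32, 24, -4], [0, 0, 0, 0], [1, 0, 0, 0]] 3 2390 3 = true := by
  decide +kernel

theorem kc80_0_m1_0_m1_0 :
    chk 80 [(.D 20 8 false 4 false 27 0, 1)] [(.D 20 6 true 8 false 27 0, 1)] [(.D 40 18 true 2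
    true 19 0, 1), (.D 20 5 false 2 false 27 0, 1)] [(.D 40 18 false 2 false 19 0, 1), (.D 20 8
    false 5 false 27 0, 1)] [[0, 1, 1, -1], [0, 0, 0, 0], [1, 0, 0, 0]] 3 3734 5 = true := by
  decide +kernel

theorem kc80_0_0_0_m2_m1 :
    chk 80 [(.D 40 16 false 8 false 19 0, 1)] [(.D 40 10 true 16 false 19 0, 1)] [(.D 40 18 true
    2 true 19 0, 1), (.D 20 1 true 1 false 27 0, 1)] [(.D 40 10 false 2 false 19 0, 1), (.D 20 6
    false 4 false 27 0, 1)] [[4, 8, 0, -4], [0, 0, 0, 0], [1, 0, 0, 0]] 3 3734 9 = true := by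
  decide +kernel

end Pool.Agent.MP_b2c033_nt.UP
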