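import Pool.Agent.MP_b2c033_nt.UP.Chk

/-! Checks of relations. -/

namespace Pool.Agent.MP_b2c033_nt.UP

theorem kc144_0_0_0_0_m1 :
    chk 144 [(.D 72 24 false 18 false 30 0, 1), (.D 72 20 false 16 false 30 0, 1)] [(.D 72 28
    false 16 false 30 0, 1), (.D 72 24 false 20 false 30 0, 1)] [(.D 72 30 true 6 true 30 0, 1),
    (.D 36 9 false 6 false 43 0, 1)] [(.D 72 30 false 6 false 30 0, 1), (.D 36 12 false 9 false
    43 0, 1)] [[1, 0, 0, -1], [0, 0, 0, 0], [1, 0, 0, 0]] 3 17281 35 = true := by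
  decide +kernel

end Pool.Agent.MP_b2c033_nt.UP
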