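import Pool.Agent.MP_b2c033_nt.UP.Snd2
import Pool.Agent.MP_b2c033_nt.UP.KA
import Pool.Agent.MP_b2c033_nt.UP.KB
import Pool.Agent.MP_b2c033_nt.UP.KC

/-! Parametrizations by modular units. -/

namespace Pool.Agent.MP_b2c033_nt.UP

open U

theorem pc11_0_m1_1_0_0 : Param (toQ (mkW (0, -1, 1, 0, 0))) (cond (mkW (0, -1, 1, 0, 0))) :=
  fin (1) (0) [1, 0] [1] [-1] kc11_0_m1_1_0_0 (by decide +kernel) fun K _ _ F G h => by
    simp only [pv2, pv, List.foldr] at h ⊢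
    push_cast at h ⊢
    linear_combination ((1) * F ^ 0) * h

theorem pc14_1_0_1_m1_0 : Param (toQ (mkW (1, 0, 1, -1, 0))) (cond (mkW (1, 0, 1, -1, 0))) :=
  fin (1) (-1) [0, 1] [1] [-1] kc14_1_0_1_m1_0 (by decide +kernel) fun K _ _ F G h => by
    simp only [pv2, pv, List.foldr] at h ⊢
    push_cast at h ⊢
    linear_combination ((1) * F ^ 0) * h

theorem pc14_1_0_1_m11_12 : Param (toQ (mkW (1, 0, 1, -11, 12))) (cond (mkW (1, 0, 1, -11, 12))) :=
  fin (1) (2) [2, 3] [1] [-1] kc14_1_0_1_m11_12 (by decide +kernel) fun K _ _ F G h => by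
    simp only [pv2, pv, List.foldr] at h ⊢
    push_cast at h ⊢
    linear_combination ((1) * F ^ 0) * h

theorem pc15_1_1_1_0_0 : Param (toQ (mkW (1, 1, 1, 0, 0))) (cond (mkW (1, 1, 1, 0, 0))) :=
  fin (1) (-1) [0, 1] [1] [-1] kc15_1_1_1_0_0 (by decide +kernel) fun K _ _ F G h => by
    simp only [pv2, pv, List.foldr] at h ⊢
    push_cast at h ⊢
    linear_combination ((1) * F ^ 0) * h

theorem pc15_1_1_1_m5_2 : Param (toQ (mkW (1, 1, 1, -5, 2))) (cond (mkW (1, 1, 1, -5, 2))) :=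
  fin (1) (0) [2, -1] [1] [-1] kc15_1_1_1_m5_2 (by decide +kernel) fun K _ _ F G h => by
    simp only [pv2, pv, List.foldr] at h ⊢
    push_cast at h ⊢
    linear_combination ((1) * F ^ 0) * h

theorem pc17_1_m1_1_m1_0 : Param (toQ (mkW (1, -1, 1, -1, 0))) (cond (mkW (1, -1, 1, -1, 0))) :=
  fin (1) (0) [0, 1] [1] [-1] kc17_1_m1_1_m1_0 (by decide +kernel) fun K _ _ F G h => by
    simp only [pv2, pv, List.foldr] at h ⊢
    push_cast at h ⊢
    linear_combination ((1) * F ^ 0) * h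

theorem pc19_0_1_1_1_0 : Param (toQ (mkW (0, 1, 1, 1, 0))) (cond (mkW (0, 1, 1, 1, 0))) :=
  fin (1) (0) [1, 1] [1] [-1] kc19_0_1_1_1_0 (by decide +kernel) fun K _ _ F G h => by
    simp only [pv2, pv, List.foldr] at h ⊢
    push_cast at h ⊢
    linear_combination ((1) * F ^ 0) * h

theorem pc20_0_1_0_m1_0 : Param (toQ (mkW (0, 1, 0, -1, 0))) (cond (mkW (0, 1, 0, -1, 0))) :=
  fin (1) (-1) [1, 0] [1] [-1] kc20_0_1_0_m1_0 (by decide +kernel) fun K _ _ F G h => by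
    simp only [pv2, pv, List.foldr] at h ⊢
    push_cast at h ⊢
    linear_combination ((1) * F ^ 0) * h

theorem pc20_0_1_0_4_4 : Param (toQ (mkW (0, 1, 0, 4, 4))) (cond (mkW (0, 1, 0, 4, 4))) :=
  fin (1) (-1) [0, -2] [1] [-1] kc20_0_1_0_4_4 (by decide +kernel) fun K _ _ F G h => by
    simp only [pv2, pv, List.foldr] at h ⊢
    push_cast at h ⊢
    linear_combination ((1) * F ^ 0) * h

theorem pc24_0_m1_0_1_0 : Param (toQ (mkW (0, -1, 0, 1, 0))) (cond (mkW (0, -1, 0, 1, 0))) :=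
  fin (1) (-1) [0, 0] [1] [-2] kc24_0_m1_0_1_0 (by decide +kernel) fun K _ _ F G h => by
    simp only [pv2, pv, List.foldr] at h ⊢
    push_cast at h ⊢
    linear_combination ((1) * F ^ 0) * h

theorem pc24_0_m1_0_m4_4 : Param (toQ (mkW (0, -1, 0, -4, 4))) (cond (mkW (0, -1, 0, -4, 4))) :=
  fin (1) (1) [-1, 1] [1] [-1] kc24_0_m1_0_m4_4 (by decide +kernel) fun K _ _ F G h => by
    simp only [pv2, pv, List.foldr] at h ⊢
    push_cast at h ⊢
    linear_combination ((1) * F ^ 0) * h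

theorem pc27_0_0_1_0_0 : Param (toQ (mkW (0, 0, 1, 0, 0))) (cond (mkW (0, 0, 1, 0, 0))) :=
  fin (1) (-1) [1, 0] [1] [-1] kc27_0_0_1_0_0 (by decide +kernel) fun K _ _ F G h => by
    simp only [pv2, pv, List.foldr] at h ⊢
    push_cast at h ⊢
    linear_combination ((1) * F ^ 0) * h

theorem pc32_0_0_0_m1_0 : Param (toQ (mkW (0, 0, 0, -1, 0))) (cond (mkW (0, 0, 0, -1, 0))) :=
  fin (1) (-1) [0, 0] [2] [-1] kc32_0_0_0_m1_0 (by decide +kernel) fun K _ _ F G h => by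
    simp only [pv2, pv, List.foldr] at h ⊢
    push_cast at h ⊢
    linear_combination ((1) * F ^ 0) * h

theorem pc32_0_0_0_4_0 : Param (toQ (mkW (0, 0, 0, 4, 0))) (cond (mkW (0, 0, 0, 4, 0))) :=
  fin (1) (-2) [0, 0] [1] [-1] kc32_0_0_0_4_0 (by decide +kernel) fun K _ _ F G h => by
    simp only [pv2, pv, List.foldr] at h ⊢
    push_cast at h ⊢
    linear_combination ((1) * F ^ 0) * h

theorem pc32_0_0_0_m11_14 : Param (toQ (mkW (0, 0, 0, -11, 14))) (cond (mkW (0, 0, 0, -11, 14))) :=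
  fin (1) (1) [-2, 2] [1] [-1] kc32_0_0_0_m11_14 (by decide +kernel) fun K _ _ F G h => by
    simp only [pv2, pv, List.foldr] at h ⊢
    push_cast at h ⊢
    linear_combination ((1) * F ^ 0) * h

theorem pc32_0_0_0_m11_m14 : Param (toQ (mkW (0, 0, 0, -11, -14))) (cond (mkW (0, 0, 0, -11, -14))) :=
  fin (1) (-3) [0, 0] [1] [1] kc32_0_0_0_m11_m14 (by decide +kernel) fun K _ _ F G h => by
    simp only [pv2, pv, List.foldr] at h ⊢
    push_cast at h ⊢
    linear_combination ((1) * F ^ 0) * h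

theorem pc36_0_0_0_0_1 : Param (toQ (mkW (0, 0, 0, 0, 1))) (cond (mkW (0, 0, 0, 0, 1))) :=
  fin (1) (-1) [1, 0] [1] [-1] kc36_0_0_0_0_1 (by decide +kernel) fun K _ _ F G h => by
    simp only [pv2, pv, List.foldr] at h ⊢
    push_cast at h ⊢
    linear_combination ((1) * F ^ 0) * h

theorem pc40_0_0_0_m2_1 : Param (toQ (mkW (0, 0, 0, -2, 1))) (cond (mkW (0, 0, 0, -2, 1))) :=
  fin (1) (0) [0, 0] [1] [-1] kc40_0_0_0_m2_1 (by decide +kernel) fun K _ _ F G h => by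
    simp only [pv2, pv, List.foldr] at h ⊢
    push_cast at h ⊢
    linear_combination ((1) * F ^ 0) * h

theorem pc48_0_1_0_1_0 : Param (toQ (mkW (0, 1, 0, 1, 0))) (cond (mkW (0, 1, 0, 1, 0))) :=
  fin (1) (-1) [0, 0] [1] [-1] kc48_0_1_0_1_0 (by decide +kernel) fun K _ _ F G h => by
    simp only [pv2, pv, List.foldr] at h ⊢
    push_cast at h ⊢
    linear_combination ((1) * F ^ 0) * h

theorem pc48_0_1_0_m4_m4 : Param (toQ (mkW (0, 1, 0, -4, -4))) (cond (mkW (0, 1, 0, -4, -4))) :=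
  fin (1) (-1) [0, 0] [1] [1] kc48_0_1_0_m4_m4 (by decide +kernel) fun K _ _ F G h => by
    simp only [pv2, pv, List.foldr] at h ⊢
    push_cast at h ⊢
    linear_combination ((1) * F ^ 0) * h

theorem pc64_0_0_0_1_0 : Param (toQ (mkW (0, 0, 0, 1, 0))) (cond (mkW (0, 0, 0, 1, 0))) :=
  fin (1) (0) [0, 0] [2] [-1] kc64_0_0_0_1_0 (by decide +kernel) fun K _ _ F G h => by
    simp only [pv2, pv, List.foldr] at h ⊢
    push_cast at h ⊢
    linear_combination ((1) * F ^ 0) * h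

theorem pc64_0_0_0_m4_0 : Param (toQ (mkW (0, 0, 0, -4, 0))) (cond (mkW (0, 0, 0, -4, 0))) :=
  fin (1) (-2) [0, 0] [2] [-1] kc64_0_0_0_m4_0 (by decide +kernel) fun K _ _ F G h => by
    simp only [pv2, pv, List.foldr] at h ⊢
    push_cast at h ⊢
    linear_combination ((1) * F ^ 0) * h

theorem pc80_0_m1_0_m1_0 : Param (toQ (mkW (0, -1, 0, -1, 0))) (cond (mkW (0, -1, 0, -1, 0))) :=
  fin (1) (0) [0, 0] [1] [1] kc80_0_m1_0_m1_0 (by decide +kernel) fun K _ _ F G h => by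
    simp only [pv2, pv, List.foldr] at h ⊢
    push_cast at h ⊢
    linear_combination ((1) * F ^ 0) * h

theorem pc80_0_0_0_m2_m1 : Param (toQ (mkW (0, 0, 0, -2, -1))) (cond (mkW (0, 0, 0, -2, -1))) :=
  fin (1) (0) [0, 0] [2] [1] kc80_0_0_0_m2_m1 (by decide +kernel) fun K _ _ F G h => by
    simp only [pv2, pv, List.foldr] at h ⊢
    push_cast at h ⊢
    linear_combination ((1) * F ^ 0) * h

theorem pc144_0_0_0_0_m1 : Param (toQ (mkW (0, 0, 0, 0, -1))) (cond (mkW (0, 0, 0, 0, -1))) :=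
  fin (1) (0) [0, 0] [1] [1] kc144_0_0_0_0_m1 (by decide +kernel) fun K _ _ F G h => by
    simp only [pv2, pv, List.foldr] at h ⊢
    push_cast at h ⊢
    linear_combination ((1) * F ^ 0) * h

end Pool.Agent.MP_b2c033_nt.UP
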