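import Pool.Agent.MP_b2c033_nt.UP.Spec

/-!
Differences of values of the Weierstrass function are bounded at all cusps.
-/

namespace Pool.Agent.MP_b2c033_nt.UP

open UpperHalfPlane hiding I
open scoped Real MatrixGroups ModularForm

namespace BdX

theorem den (γ : SL(2, ℤ)) (τ : ℍ) : denom γ τ = (γ 1 0 : ℂ) * τ + γ 1 1 := by
  rw [ModularGroup.denom_apply]

theorem key (hM : SMod) {d : ℕ} (hd : 0 < d) (γ : SL(2, ℤ)) (a : ℕ) (e : Bool) :
    ∃ (a' : ℤ) (t : ℝ), ∀ τ : ℍ, wp (γ • τ) (a * (γ • τ : ℍ) / d + hf e) =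
      denom γ τ ^ 2 * wp τ (a' * τ / (2 * d : ℕ) + t) := by
  refine ⟨2 * a * γ 0 0 + cond e 1 0 * d * γ 1 0, a * γ 0 1 / d + hf e * γ 1 1, fun τ => ?_⟩
  have h0 := denom_ne_zero γ τ
  have h1 : (d : ℂ) ≠ 0 := Nat.cast_ne_zero.2 hd.ne'
  rw [den] at h0
  rw [hM, den, coe_specialLinearGroup_apply]
  refine congrArg (fun z => _ * wp τ z) ?_
  simp only [eq_intCast, Complex.ofReal_intCast]
  cases e
  · simp only [hf, cond_false]
    push_cast
    field_simp
    ring
  · simp only [hf, cond_true]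
    push_cast
    field_simp
    ring

end BdX

open BdX in
theorem rBd : OfBd := by
  intro hM hE hS d a e b f hd γ
  have h : dF d a e b f = fun τ => (fun t : ℍ => (wp t (a * t / d + hf e) -
      wp t (b * t / d + hf f)) / (2 * π * Complex.I) ^ 2) (sc d τ) := funext fun τ => by
    have h1 : (d : ℂ) ≠ 0 := Nat.cast_ne_zero.2 hd.ne'
    simp only [dF, coe_sc hd, mul_left_comm _ (d : ℂ), mul_div_cancel_left₀ _ h1]
  rw [h]
  refine hS.bdd (fun t : ℍ => (wp t (a * t / d + hf e) -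
    wp t (b * t / d + hf f)) / (2 * π * Complex.I) ^ 2) 2 d hd (fun δ => ?_) γ
  obtain ⟨a', t, h1⟩ := key hM hd δ a e
  obtain ⟨b', s, h2⟩ := key hM hd δ b f
  obtain ⟨c, -, hc⟩ := hE (2 * d) a' b' t s (by omega)
  refine isBoundedAtImInfty_of_hasSum_qExpansion (h := (2 * d : ℕ))
    (c := fun n => if n = 0 then c else co (2 * d) a' t n - co (2 * d) b' s n)
    (Nat.cast_pos.2 (by omega)) fun τ => ?_
  have h0 := denom_ne_zero δ τ
  have e1 := hc τ
  rw [ModularForm.SL_slash_apply, h1, h2, ← mul_sub, mul_div_assoc, mul_right_comm, zpow_neg,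
    zpow_ofNat, mul_inv_cancel₀ (pow_ne_zero _ h0), one_mul]
  exact e1

end Pool.Agent.MP_b2c033_nt.UP
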