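import Pool.Agent.MP_b2c033_nt.UP.Spec

/-!
Differences of values of the Weierstrass function at torsion points are forms without zeros.
-/

namespace Pool.Agent.MP_b2c033_nt.UP

open H87
open UpperHalfPlane hiding I
open scoped Real Manifold MatrixGroups ModularForm

namespace RBlk

theorem mem {d : ℕ} (hd : 0 < d) (τ : ℍ) (c : ℤ) (r : ℝ) :
    (c : ℂ) * τ + r ∈ (lat (sc d τ)).lattice ↔ (d : ℤ) ∣ c ∧ ∃ n : ℤ, (n : ℝ) = r := by
  rw [PeriodPair.mem_lattice]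
  simp only [lat, coe_sc hd]
  constructor
  · rintro ⟨m, n, h⟩
    have h1 : (m : ℝ) * (d * τ.im) = c * τ.im := by simpa using congrArg Complex.im h
    have h2 : (c : ℝ) = d * m := mul_right_cancel₀ τ.im_pos.ne' (by linarith)
    have h3 : c = d * m := by exact_mod_cast h2
    refine ⟨⟨m, h3⟩, n, ?_⟩
    have h4 : (n : ℂ) = r := by
      rw [h3] at h
      push_cast at h
      linear_combination h
    exact_mod_cast h4
  · rintro ⟨⟨m, rfl⟩, n, rfl⟩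
    exact ⟨m, n, by push_cast; ring⟩

theorem tr (hm : SMod) (hs : SSc) {N d : ℕ} (a : ℕ) (e : Bool) (hd : 0 < d) (dN : d ∣ N)
    (he : e = true → 2 * d ∣ N) {γ : SL(2, ℤ)} (hγ : γ ∈ CongruenceSubgroup.Gamma1 N) (τ : ℍ) :
    wp (sc d (γ • τ)) (a * (γ • τ : ℍ) + hf e) =
      ((γ 1 0 : ℂ) * τ + γ 1 1) ^ 2 * wp (sc d τ) (a * τ + hf e) := by
  obtain ⟨g0, g1, g2⟩ := (CongruenceSubgroup.Gamma1_mem N γ).1 hγ
  have n0 : (N : ℤ) ∣ γ 0 0 - 1 :=
    (ZMod.intCast_zmod_eq_zero_iff_dvd _ _).1 (by push_cast; rw [g0, sub_self])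
  have n1 : (N : ℤ) ∣ γ 1 1 - 1 :=
    (ZMod.intCast_zmod_eq_zero_iff_dvd _ _).1 (by push_cast; rw [g1, sub_self])
  have n2 : (N : ℤ) ∣ γ 1 0 := (ZMod.intCast_zmod_eq_zero_iff_dvd _ _).1 g2
  have dz : (d : ℤ) ∣ N := Int.natCast_dvd_natCast.2 dN
  obtain ⟨δ, -, -, d2, d3, d4⟩ := hs.cj d γ hd (dz.trans n2)
  have j : (δ 1 0 : ℂ) * (sc d τ : ℍ) + δ 1 1 = (γ 1 0 : ℂ) * τ + γ 1 1 := by
    rw [coe_sc hd, ← d2, d3]
    push_cast
    ring
  have j0 : (γ 1 0 : ℂ) * τ + γ 1 1 ≠ 0 := by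
    have := denom_ne_zero (γ : GL (Fin 2) ℝ) τ
    rwa [ModularGroup.denom_apply] at this
  have cs : ((γ • τ : ℍ) : ℂ) = ((γ 0 0 : ℂ) * τ + γ 0 1) / ((γ 1 0 : ℂ) * τ + γ 1 1) := by
    rw [coe_specialLinearGroup_apply]
    simp
  obtain ⟨c, r, h1, h2⟩ : ∃ (c : ℤ) (r : ℝ), ((d : ℤ) ∣ c ∧ ∃ n : ℤ, (n : ℝ) = r) ∧
      ((γ 1 0 : ℂ) * τ + γ 1 1) * (a * (γ • τ : ℍ) + hf e) = a * τ + hf e + (c * τ + r) := by
    rw [cs, mul_add, mul_left_comm, mul_div_cancel₀ _ j0]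
    cases e
    · refine ⟨a * (γ 0 0 - 1), (a * γ 0 1 : ℤ), ⟨(dz.trans n0).mul_left _, _, rfl⟩, ?_⟩
      simp only [hf, cond_false]
      push_cast
      ring
    · have t : (2 * d : ℤ) ∣ N := by exact_mod_cast he rfl
      obtain ⟨u, hu⟩ := t.trans n2
      obtain ⟨v, hv⟩ := t.trans n1
      refine ⟨a * (γ 0 0 - 1) + d * u, (a * γ 0 1 + d * v : ℤ),
        ⟨((dz.trans n0).mul_left _).add (dvd_mul_right _ _), _, rfl⟩, ?_⟩
      rw [hu, sub_eq_iff_eq_add.1 hv]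
      simp only [hf, cond_true]
      push_cast
      ring
  rw [d4, hm, j, h2]
  exact congrArg _ ((lat (sc d τ)).weierstrassP_add_coe _ ⟨_, (mem hd τ c r).2 h1⟩)

theorem half {e f : Bool} {n : ℤ} (h : (n : ℝ) = hf e - hf f ∨ (n : ℝ) = hf e + hf f) : e = f := by
  have k : ∀ s : ℤ, (2 * n : ℝ) = s → 2 * n = s := fun s q => by exact_mod_cast q
  cases e <;> cases f <;> simp only [hf, cond_true, cond_false] at h ⊢ <;> exfalso <;>
    rcases h with h | h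
  · have := k (-1) (by push_cast; linarith); omega
  · have := k 1 (by push_cast; linarith); omega
  · have := k 1 (by push_cast; linarith); omega
  · have := k 1 (by push_cast; linarith); omega

end RBlk

open RBlk in
theorem rBlk : OfBlk := by
  intro hi hm hs hb hd N d a e b f a0 ad b0 bd dN h2 hne
  have d0 : 0 < d := a0.trans ad
  refine ⟨⟨hs.hol _ _ (hd d a e b f a0 ad b0 bd), fun γ hγ => funext fun τ => ?_,
    hb d a e b f d0, hd d a e b f a0 ad b0 bd⟩, fun τ h => ?_⟩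
  · have j0 := denom_ne_zero (γ : GL (Fin 2) ℝ) τ
    rw [ModularForm.SL_slash_apply, dF, dF, tr hm hs a e d0 dN (fun q => h2 (.inl q)) hγ,
      tr hm hs b f d0 dN (fun q => h2 (.inr q)) hγ]
    rw [ModularGroup.denom_apply] at j0 ⊢
    rw [zpow_neg, zpow_natCast]
    field_simp
  · have p0 : (2 * π * Complex.I : ℂ) ^ 2 ≠ 0 := pow_ne_zero _ Complex.two_pi_I_ne_zero
    have nm : ∀ (c : ℕ) (g : Bool), 0 < c → c < d →
        (c : ℂ) * τ + hf g ∉ (lat (sc d τ)).lattice := fun c g c0 cd q => by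
      have := Int.le_of_dvd (by exact_mod_cast c0) ((mem d0 τ c (hf g)).1 (by simpa using q)).1
      omega
    rcases hi _ _ _ (nm a e a0 ad) (nm b f b0 bd)
      (sub_eq_zero.1 ((div_eq_zero_iff.1 h).resolve_right p0)) with q | q
    · obtain ⟨q1, n, q2⟩ := (mem d0 τ (a - b) (hf e - hf f)).1 (by
        rwa [show (((a : ℤ) - b : ℤ) : ℂ) * τ + ((hf e - hf f : ℝ) : ℂ) =
          a * τ + hf e - (b * τ + hf f) by push_cast; ring])
      have := Int.eq_zero_of_abs_lt_dvd q1 (abs_lt.2 ⟨by omega, by omega⟩)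
      exact (hne (half (.inl q2))).1 (by omega)
    · obtain ⟨q1, n, q2⟩ := (mem d0 τ (a + b) (hf e + hf f)).1 (by
        rwa [show (((a : ℤ) + b : ℤ) : ℂ) * τ + ((hf e + hf f : ℝ) : ℂ) =
          a * τ + hf e + (b * τ + hf f) by push_cast; ring])
      have := Int.eq_zero_of_abs_lt_dvd (q1.sub (dvd_refl _)) (abs_lt.2 ⟨by omega, by omega⟩)
      exact (hne (half (.inr q2))).2 (by omega)

end Pool.Agent.MP_b2c033_nt.UP
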