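import Pool.Agent.MP_b2c033_nt.UP.Spec

/-!
Forms with integral expansion: constants, sums and products.
-/

namespace Pool.Agent.MP_b2c033_nt.UP

open H87
open UpperHalfPlane hiding I
open scoped Manifold MatrixGroups ModularForm PowerSeries

theorem hasSum_mul {f g : ℕ → ℂ} {s t : ℂ} (hf : HasSum f s) (hg : HasSum g t) :
    HasSum (fun n : ℕ => ∑ p ∈ Finset.HasAntidiagonal.antidiagonal n, f p.1 * g p.2) (s * t) := by
  have h1 := summable_norm_iff.2 hf.summable
  have h2 := summable_norm_iff.2 hg.summable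
  rw [← hf.tsum_eq, ← hg.tsum_eq, tsum_mul_tsum_eq_tsum_sum_antidiagonal_of_summable_norm h1 h2]
  exact (summable_norm_sum_mul_antidiagonal_of_summable_norm h1 h2).of_norm.hasSum

theorem rCl : SCl where
  cst N c := by
    have e : ∀ γ : SL(2, ℤ), (fun _ : ℍ => (c : ℂ)) ∣[((0 : ℕ) : ℤ)] γ = fun _ => (c : ℂ) :=
      fun γ => ModularForm.is_invariant_const γ c
    refine ⟨mdifferentiable_const, fun γ _ => e γ, fun γ => ?_, fun z => ?_⟩
    · rw [e]
      exact Filter.const_boundedAtFilter _ _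
    · have := hasSum_single (f := fun n : ℕ =>
        ((PowerSeries.coeff n (c : ℤ⟦X⟧) : ℤ) : ℂ) * nome z ^ n) 0 fun n hn => by
          rw [← map_intCast (PowerSeries.C (R := ℤ)), PowerSeries.coeff_C, if_neg hn]
          simp
      rw [← map_intCast (PowerSeries.C (R := ℤ))] at this ⊢
      simpa using this
  zero N k := by
    have e : ∀ γ : SL(2, ℤ), (fun _ : ℍ => (0 : ℂ)) ∣[(k : ℤ)] γ = fun _ => (0 : ℂ) :=
      fun γ => SlashAction.zero_slash (k : ℤ) γ
    refine ⟨mdifferentiable_const, fun γ _ => e γ, fun γ => ?_, fun z => ?_⟩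
    · rw [e]
      exact Filter.const_boundedAtFilter _ _
    · simp [hasSum_zero]
  add {N k f g a b} hf hg := by
    have e : ∀ γ : SL(2, ℤ), (fun z => f z + g z) ∣[(k : ℤ)] γ = f ∣[(k : ℤ)] γ + g ∣[(k : ℤ)] γ :=
      fun γ => SlashAction.add_slash (k : ℤ) γ f g
    refine ⟨hf.hol.add hg.hol, fun γ hγ => ?_, fun γ => ?_, fun z => ?_⟩
    · rw [e, hf.inv γ hγ, hg.inv γ hγ]
      rfl
    · rw [e]
      exact Filter.BoundedAtFilter.add (hf.bdd γ) (hg.bdd γ)
    · simpa [add_mul] using (hf.exp z).add (hg.exp z)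
  mul {N k l f g a b} hf hg := by
    have e : ∀ γ : SL(2, ℤ), (fun z => f z * g z) ∣[((k + l : ℕ) : ℤ)] γ =
        f ∣[(k : ℤ)] γ * g ∣[(l : ℤ)] γ := fun γ => by
      rw [Nat.cast_add]
      exact ModularForm.mul_slash_SL2 k l γ f g
    refine ⟨hf.hol.mul hg.hol, fun γ hγ => ?_, fun γ => ?_, fun z => ?_⟩
    · rw [e, hf.inv γ hγ, hg.inv γ hγ]
      rfl
    · rw [e]
      exact Filter.BoundedAtFilter.mul (hf.bdd γ) (hg.bdd γ)
    · refine (hasSum_mul (hf.exp z) (hg.exp z)).congr_fun fun n => ?_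
      rw [PowerSeries.coeff_mul, Int.cast_sum, Finset.sum_mul]
      refine Finset.sum_congr rfl fun p hp => ?_
      rw [← Finset.HasAntidiagonal.mem_antidiagonal.1 hp, Int.cast_mul, pow_add]
      ring

end Pool.Agent.MP_b2c033_nt.UP
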