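import Pool.Agent.MP_b2c033_nt.UP.Spec

/-!
The integral expansion of a difference of two values of the Weierstrass function.
-/

namespace Pool.Agent.MP_b2c033_nt.UP

open H87
open UpperHalfPlane hiding I
open scoped Real

noncomputable section

namespace DeX

lemma ex (e : Bool) (k : ℕ) :
    (k : ℂ) * Complex.exp (2 * π * Complex.I * (k * (hf e : ℝ))) = (cp e k : ℂ) - cm e k ∧
    (k : ℂ) * Complex.exp (-(2 * π * Complex.I * (k * (hf e : ℝ)))) = (cp e k : ℂ) - cm e k := by
  cases e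
  · simp [hf, cp, cm]
  · have h : 2 * π * Complex.I * (k * (hf true : ℝ)) = k * (π * Complex.I) := by
      simp only [hf, cond_true]
      push_cast
      ring
    rw [h, Complex.exp_neg, Complex.exp_nat_mul, Complex.exp_pi_mul_I]
    rcases Nat.even_or_odd k with q | q
    · have q' : Nat.beq (k % 2) 1 = false := by rw [Nat.even_iff.1 q]; rfl
      simp [cp, cm, q', q.neg_one_pow]
    · have q' : Nat.beq (k % 2) 1 = true := by rw [Nat.odd_iff.1 q]; rfl
      simp [cp, cm, q', q.neg_one_pow]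

lemma dv1 (d a r : ℕ) : (d : ℤ) ∣ (r : ℤ) - (a : ℤ) ↔ r % d = a % d :=
  (Nat.modEq_iff_dvd (n := d) (a := a) (b := r)).symm.trans eq_comm

lemma dv2 {d a : ℕ} (h : a ≤ d) (r : ℕ) : (d : ℤ) ∣ (r : ℤ) + (a : ℤ) ↔ r % d = (d - a) % d := by
  rw [← dv1, Nat.cast_sub h, show (r : ℤ) - (d - a) = r + a - d by ring]
  exact (dvd_sub_left (dvd_refl _)).symm

lemma co_eq {d a : ℕ} (h : a ≤ d) (e : Bool) (n : ℕ) : co d a (hf e) n =
    ((PowerSeries.coeff n (pS (cp e) d a) : ℤ) : ℂ) -
      ((PowerSeries.coeff n (pS (cm e) d a) : ℤ) : ℂ) := by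
  simp only [co, pS, lamS, map_add, PowerSeries.coeff_mk, dv1, dv2 h]
  push_cast
  rw [← Finset.sum_add_distrib, ← Finset.sum_add_distrib, ← Finset.sum_sub_distrib]
  refine Finset.sum_congr rfl fun p _ => ?_
  obtain ⟨h1, h2⟩ := ex e p.2
  split_ifs
  · linear_combination h1 + h2
  · linear_combination h1
  · linear_combination h2
  · simp

end DeX

open DeX in
theorem rDe : OfDe := by
  intro hE d a e b f a0 ad b0 bd z
  have d0 : 0 < d := a0.trans ad
  have dn : (d : ℂ) ≠ 0 := Nat.cast_ne_zero.2 d0.ne'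
  have nd : ∀ c : ℕ, 0 < c → c < d → ¬(d : ℤ) ∣ (c : ℤ) := fun c c0 cd k =>
    absurd (Nat.le_of_dvd c0 (Int.natCast_dvd_natCast.1 k)) cd.not_ge
  obtain ⟨c, c0, hs⟩ := hE d a b (hf e) (hf f) d0
  have h := hs (sc d z)
  have e1 : ∀ x : ℂ, x * (d * (z : ℂ)) / d = x * z := fun x => by field_simp
  rw [c0 (nd a a0 ad) (nd b b0 bd), coe_sc d0, e1, e1, e1] at h
  have e2 : ∀ n : ℕ, ((PowerSeries.coeff n (dS d a e b f) : ℤ) : ℂ) =
      if n = 0 then 0 else co d a (hf e) n - co d b (hf f) n := fun n => by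
    have e3 : ((PowerSeries.coeff n (dS d a e b f) : ℤ) : ℂ) =
        co d a (hf e) n - co d b (hf f) n := by
      rw [co_eq ad.le, co_eq bd.le, dS, map_sub, map_add, map_add]
      push_cast
      ring
    rw [e3]
    split_ifs with k
    · simp [k, co]
    · rfl
  simp only [Int.cast_natCast] at h
  simp only [e2]
  exact h

end

end Pool.Agent.MP_b2c033_nt.UP
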