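import Pool.Agent.MP_b2c033_nt.UP.Spec

/-!
The discriminant at `d τ` as a form with integral expansion.
-/

namespace Pool.Agent.MP_b2c033_nt.UP

open H87
open UpperHalfPlane hiding I
open scoped Real Manifold MatrixGroups ModularForm PowerSeries

namespace RDel

theorem co_mul (c : ℕ → ℕ) {d : ℕ} (hd : 0 < d) (m : ℕ) :
    PowerSeries.coeff (d * m) (lamS c d d) = ∑ k ∈ m.divisors, (c k : ℤ) := by
  rw [lamS, PowerSeries.coeff_mk,
    Nat.sum_divisorsAntidiagonal' fun r k => if r % d = d % d then (c k : ℤ) else 0,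
    ← Finset.sum_filter]
  refine Finset.sum_congr (Finset.ext fun k => ?_) fun _ _ => rfl
  simp only [Finset.mem_filter, Nat.mem_divisors, Nat.mod_self, ← Nat.dvd_iff_mod_eq_zero]
  constructor
  · rintro ⟨⟨h1, h2⟩, h3⟩
    rw [Nat.dvd_div_iff_mul_dvd h1, mul_comm k, Nat.mul_dvd_mul_iff_left hd] at h3
    exact ⟨h3, right_ne_zero_of_mul h2⟩
  · rintro ⟨h1, h2⟩
    refine ⟨⟨h1.mul_left d, mul_ne_zero hd.ne' h2⟩, ?_⟩
    rwa [Nat.dvd_div_iff_mul_dvd (h1.mul_left d), mul_comm k, Nat.mul_dvd_mul_iff_left hd]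

theorem co_off (c : ℕ → ℕ) {d n : ℕ} (h : ¬ d ∣ n) : PowerSeries.coeff n (lamS c d d) = 0 := by
  rw [lamS, PowerSeries.coeff_mk]
  refine Finset.sum_eq_zero fun p hp => if_neg fun q => h ?_
  rw [Nat.mod_self] at q
  exact (Nat.mem_divisorsAntidiagonal.1 hp).1 ▸ (Nat.dvd_of_mod_eq_zero q).mul_right _

theorem nome_sc {d : ℕ} (hd : 0 < d) (z : ℍ) :
    Function.Periodic.qParam 1 (sc d z) = nome z ^ d := by
  rw [Function.Periodic.qParam, nome, coe_sc hd, ← Complex.exp_nat_mul]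
  congr 1
  push_cast
  ring

theorem exp_E {k : ℕ} (hk : 3 ≤ k) (hk2 : Even k) (c : ℤ)
    (hc : (qExpansion 1 (ModularForm.E hk)).coeff 1 = c) {d : ℕ} (hd : 0 < d) (z : ℍ) :
    HasSum (fun n : ℕ => ((PowerSeries.coeff n (1 + (c : ℤ⟦X⟧) *
      lamS (fun r => r ^ (k - 1)) d d) : ℤ) : ℂ) * nome z ^ n) (ModularForm.E hk (sc d z)) := by
  have h := ModularForm.hasSum_qExpansion (ModularForm.E hk) one_pos
    one_mem_strictPeriods_SL (sc d z)
  have h1 := EisensteinSeries.E_qExpansion_coeff hk hk2 1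
  rw [hc] at h1
  simp only [one_ne_zero, if_false, ArithmeticFunction.sigma_one, Nat.cast_one, mul_one] at h1
  have e : ∀ n, PowerSeries.coeff n (1 + (c : ℤ⟦X⟧) * lamS (fun r => r ^ (k - 1)) d d) =
      (if n = 0 then 1 else 0) + c * PowerSeries.coeff n (lamS (fun r => r ^ (k - 1)) d d) :=
    fun n => by
      rw [map_add, PowerSeries.coeff_one, ← zsmul_eq_mul, map_zsmul, smul_eq_mul]
  refine ((mul_right_injective₀ hd.ne').hasSum_iff fun n hn => ?_).1 ?_
  · have h2 : ¬ d ∣ n := fun ⟨m, hm⟩ => hn ⟨m, hm.symm⟩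
    rw [e, co_off _ h2, if_neg fun q : n = 0 => h2 (q ▸ dvd_zero d)]
    simp
  · refine (congrArg (HasSum · _) (funext fun m => ?_)).mpr h
    rw [Function.comp_apply, e, co_mul _ hd, nome_sc hd, ← pow_mul,
      EisensteinSeries.E_qExpansion_coeff hk hk2 m, ← h1, ArithmeticFunction.sigma_apply]
    by_cases hm : m = 0
    · simp [hm]
    · simp [hm, hd.ne']

theorem fm_E (hS : SSc) {k : ℕ} (hk : 3 ≤ k) (hk2 : Even k) (c : ℤ)
    (hc : (qExpansion 1 (ModularForm.E hk)).coeff 1 = c) {N d : ℕ} (hd : 0 < d) (hN : d ∣ N) :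
    Fm N k (fun τ => ModularForm.E hk (sc d τ))
      (1 + (c : ℤ⟦X⟧) * lamS (fun r => r ^ (k - 1)) d d) where
  hol := hS.hol _ _ (exp_E hk hk2 c hc hd)
  inv := fun γ hγ => funext fun z => by
    obtain ⟨δ, -, -, h3, h4, h5⟩ := hS.cj d γ hd ((Int.natCast_dvd_natCast.2 hN).trans
      ((ZMod.intCast_zmod_eq_zero_iff_dvd _ _).1 ((CongruenceSubgroup.Gamma1_mem N γ).1 hγ).2.2))
    have h := (ModularForm.slash_action_eq'_iff k (ModularForm.E hk) δ (sc d z)).1
      (congrFun (SlashInvariantForm.slash_action_eqn (ModularForm.E hk) _ ⟨δ, rfl⟩) _)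
    rw [ModularForm.slash_action_eq'_iff, h5, h, coe_sc hd, ← h3, h4]
    push_cast
    rw [mul_left_comm, mul_assoc]
  bdd := hS.bdd _ k d hd fun γ => ModularFormClass.bdd_at_infty_slash (ModularForm.E hk) γ
  exp := exp_E hk hk2 c hc hd

end RDel

theorem rDel : OfDel := by
  intro hS hC N d hd hN
  have h4 := RDel.fm_E hS (k := 4) (by norm_num) ⟨2, rfl⟩ 240
    (by rw [ModularForm.E₄_qExpansion_coeff_one]; norm_num) hd hN
  have h6 := RDel.fm_E hS (k := 6) (by norm_num) ⟨3, rfl⟩ (-504)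
    (by rw [ModularForm.E₆_qExpansion_coeff_one]; norm_num) hd hN
  have h := hC.add (k := 12) (hC.mul (hC.mul h4 h4) h4) (hC.mul (hC.cst N (-1)) (hC.mul h6 h6))
  refine ⟨_, (congrArg (Fm N 12 _) ?_).mp h, fun z q => ModularForm.discriminant_ne_zero (sc d z) ?_⟩
  · simp only [eS, Nat.add_one_sub_one]
    push_cast
    ring
  · rw [ModularForm.discriminant_eq_E₄_cube_sub_E₆_sq, div_eq_zero_iff]
    refine Or.inl (Eq.trans ?_ q)
    push_cast
    ring

end Pool.Agent.MP_b2c033_nt.UP
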