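import Pool.Agent.MP_b2c033_nt.UP.Spec

/-!
The expansion of a difference of two values of the Weierstrass function at torsion points.
-/

namespace Pool.Agent.MP_b2c033_nt.UP

open UpperHalfPlane hiding I
open scoped Real

noncomputable section

namespace RExp

/-- A row of the lattice sum. -/
def Cw (w : ℂ) : ℂ := ∑' n : ℤ, 1 / (w + n) ^ 2

lemma cg {ι : Type} {f g : ι → ℂ} {a : ℂ} (h : HasSum f a) (e : ∀ i, g i = f i) : HasSum g a :=
  (funext e : g = f) ▸ h

lemma cw_sum (w : ℂ) : HasSum (fun n : ℤ => 1 / (w + n) ^ 2) (Cw w) := by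
  refine Summable.hasSum ?_
  refine (EisensteinSeries.linear_right_summable w 1 (k := 2) le_rfl).congr fun n => ?_
  simp [zpow_ofNat]

lemma cw_sum' (w : ℂ) : HasSum (fun n : ℤ => 1 / (w - n) ^ 2) (Cw w) := by
  refine cg ((Equiv.neg ℤ).hasSum_iff.2 (cw_sum w)) fun n => ?_
  simp [sub_eq_add_neg]

lemma cw_neg (w : ℂ) : Cw (-w) = Cw w := by
  refine (cw_sum (-w)).unique ?_
  have : (fun n : ℤ => 1 / (-w + n) ^ 2) = fun n : ℤ => 1 / (w - n) ^ 2 := by
    funext n
    rw [← neg_sq (w - n)]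
    congr 2
    ring
  rw [this]
  exact cw_sum' w

lemma rows (τ : ℍ) (z z' : ℂ) :
    HasSum (fun m : ℤ => Cw (z - m * τ) - Cw (z' - m * τ)) (wp τ z - wp τ z') := by
  have h := ((lat τ).hasSum_weierstrassP z).sub ((lat τ).hasSum_weierstrassP z')
  have h2 := (lat τ).latticeEquivProd.symm.toEquiv.hasSum_iff.2 h
  refine h2.prod_fiberwise fun m => ?_
  have e : ∀ n : ℤ, (((lat τ).latticeEquivProd.symm.toEquiv (m, n) : (lat τ).lattice) : ℂ) =
      m * τ + n := fun n => by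
    refine ((lat τ).latticeEquiv_symm_apply (m, n)).trans ?_
    simp [lat]
  have := (cw_sum' (z - m * τ)).sub (cw_sum' (z' - m * τ))
  refine cg this fun n => ?_
  simp only [Function.comp, e, sub_sub]
  ring

lemma lam (φ : ℕ → ℕ → ℂ) (hφ : ∀ r k, ‖φ r k‖ ≤ k) {q : ℂ} (hq : ‖q‖ < 1) : ∃ S,
    HasSum (fun r : ℕ => ∑' k : ℕ+, φ (r + 1) k * q ^ ((r + 1) * k : ℕ)) S ∧
    HasSum (fun n : ℕ => (∑ p ∈ n.divisorsAntidiagonal, φ p.1 p.2) * q ^ n) S := by
  have s : Summable fun c : ℕ+ × ℕ+ => φ c.1 c.2 * q ^ (c.1 * c.2 : ℕ) := by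
    refine Summable.of_norm_bounded (summable_prod_mul_pow 1 hq).norm fun c => ?_
    rw [norm_mul, norm_mul, pow_one, Complex.norm_natCast]
    exact mul_le_mul_of_nonneg_right (hφ _ _) (norm_nonneg _)
  refine ⟨_, (hasSum_pnat_iff_hasSum_succ
    (f := fun r : ℕ => ∑' k : ℕ+, φ r k * q ^ (r * k : ℕ))).1
      (s.hasSum.prod_fiberwise fun r => (s.prod_factor r).hasSum), ?_⟩
  have h1 : HasSum (fun n : ℕ+ => (∑ p ∈ (n : ℕ).divisorsAntidiagonal, φ p.1 p.2) * q ^ (n : ℕ))
      _ := (sigmaAntidiagonalEquivProd.hasSum_iff.2 s.hasSum).sigma fun n => by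
    rw [Finset.sum_mul, ← Finset.sum_coe_sort]
    refine cg (hasSum_fintype _) fun x => ?_
    change φ x.1.1 x.1.2 * q ^ (x.1.1 * x.1.2) = _
    rw [(Nat.mem_divisorsAntidiagonal.1 x.2).1]
  simpa using (hasSum_pnat_iff
    (f := fun n : ℕ => (∑ p ∈ n.divisorsAntidiagonal, φ p.1 p.2) * q ^ n)).1 h1

lemma row {h : ℕ} (h0 : 0 < h) (τ : ℍ) (r : ℕ) (t : ℝ) :
    Cw (((r + 1 : ℕ) : ℂ) * τ / h + t) / (2 * π * Complex.I) ^ 2 =
      ∑' k : ℕ+, (k : ℕ) * Complex.exp (2 * π * Complex.I * ((k : ℕ) * t)) *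
        Complex.exp (2 * π * Complex.I * τ / h) ^ ((r + 1) * k : ℕ) := by
  have p : 0 < (((r + 1 : ℕ) : ℂ) * τ / h + t).im := by
    have : (((r + 1 : ℕ) : ℂ) * τ / h + t).im = (r + 1) * τ.im / h := by simp
    rw [this]
    have := τ.im_pos
    positivity
  have e := EisensteinSeries.qExpansion_identity_pnat (k := 1) le_rfl ⟨_, p⟩
  have n0 : (2 * π * Complex.I : ℂ) ^ 2 ≠ 0 := pow_ne_zero _ Complex.two_pi_I_ne_zero
  rw [div_eq_iff n0, Cw]
  refine e.trans ?_
  rw [mul_comm]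
  congr 1
  · refine tsum_congr fun k => ?_
    rw [pow_one, mul_assoc (_ : ℂ) (Complex.exp _), ← Complex.exp_nat_mul, ← Complex.exp_nat_mul,
      ← Complex.exp_add]
    congr 2
    push_cast
    ring
  · simp only [Nat.factorial_one, Nat.cast_one, div_one]
    ring

lemma half {h : ℕ} (h0 : 0 < h) (τ : ℍ) (P : ℕ → Prop) [DecidablePred P] (t : ℝ) : ∃ S,
    HasSum (fun r : ℕ => if P (r + 1) then
      Cw (((r + 1 : ℕ) : ℂ) * τ / h + t) / (2 * π * Complex.I) ^ 2 else 0) S ∧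
    HasSum (fun n : ℕ => (∑ p ∈ n.divisorsAntidiagonal, (p.2 : ℂ) *
      if P p.1 then Complex.exp (2 * π * Complex.I * (p.2 * t)) else 0) *
        Complex.exp (2 * π * Complex.I * τ / h) ^ n) S := by
  have hq : ‖Complex.exp (2 * π * Complex.I * τ / h)‖ < 1 := by
    rw [Complex.norm_exp, Real.exp_lt_one_iff]
    have : (2 * π * Complex.I * τ / h : ℂ).re = -(2 * π * τ.im / h) := by simp [neg_div]
    rw [this, neg_lt_zero]
    have := τ.im_pos
    positivity
  obtain ⟨S, h1, h2⟩ := lam (fun r k => (k : ℂ) *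
    if P r then Complex.exp (2 * π * Complex.I * (k * t)) else 0) (fun r k => by
      split_ifs
      · rw [norm_mul, Complex.norm_natCast, Complex.norm_exp]
        simp
      · simp) hq
  refine ⟨S, cg h1 fun r => ?_, h2⟩
  split_ifs
  · exact row h0 τ r t
  · simp

lemma one {h : ℕ} (h0 : 0 < h) (τ : ℍ) (a : ℤ) (t : ℝ) : ∃ S,
    HasSum (fun m : ℤ => Cw (a * τ / h + t - m * τ) / (2 * π * Complex.I) ^ 2) S ∧
    HasSum (fun n : ℕ => (if n = 0 then
      (if (h : ℤ) ∣ a then Cw t / (2 * π * Complex.I) ^ 2 else 0) else co h a t n) *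
        Complex.exp (2 * π * Complex.I * τ / h) ^ n) S := by
  obtain ⟨S, h1, h2⟩ := half h0 τ (fun r => (h : ℤ) ∣ r - a) t
  obtain ⟨S', h1', h2'⟩ := half h0 τ (fun r => (h : ℤ) ∣ r + a) (-t)
  have hh : (h : ℂ) ≠ 0 := Nat.cast_ne_zero.2 h0.ne'
  have z := HasSum.of_add_one_of_neg_add_one (f := fun r : ℤ => if (h : ℤ) ∣ r - a then
      Cw (r * τ / h + t) / (2 * π * Complex.I) ^ 2 else 0) (m := S) (m' := S')
    (by simpa using h1) (by
      refine cg h1' fun r => ?_
      rw [← cw_neg]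
      refine if_congr ?_ ?_ rfl
      · rw [← dvd_neg]
        push_cast
        rw [show -(-((r : ℤ) + 1) - a) = r + 1 + a by ring]
      · congr 2
        push_cast
        ring)
  refine ⟨_, ?_, cg ((h2.add (hasSum_single (f := fun n : ℕ =>
    if n = 0 then (if (h : ℤ) ∣ a then Cw t / (2 * π * Complex.I) ^ 2 else 0) else 0) 0
      fun n hn => if_neg hn)).add h2') fun n => ?_⟩
  · have inj : Function.Injective fun m : ℤ => a - m * h := fun m n e =>
      mul_right_cancel₀ (Int.natCast_ne_zero.2 h0.ne') (sub_right_injective e)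
    have := (inj.hasSum_iff fun r hr => if_neg fun ⟨c, hc⟩ => hr ⟨-c, by
      simp only
      linarith⟩).2 z
    simp only [zero_sub, dvd_neg, Int.cast_zero, zero_mul, zero_div, zero_add] at this
    simp only [if_true]
    refine cg this fun m => ?_
    simp only [Function.comp]
    rw [if_pos ⟨-m, by ring⟩]
    congr 2
    push_cast
    field_simp
    ring
  · split_ifs with h3
    · simp [h3]
    · simp [h3]
    · rw [add_zero, ← add_mul, ← Finset.sum_add_distrib, co]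
      congr 1
      refine Finset.sum_congr rfl fun p _ => ?_
      rw [← mul_add]
      simp

end RExp

open RExp in
theorem rExp : SExp := by
  intro h a b t s h0
  refine ⟨(if (h : ℤ) ∣ a then Cw t / (2 * π * Complex.I) ^ 2 else 0) -
    if (h : ℤ) ∣ b then Cw s / (2 * π * Complex.I) ^ 2 else 0,
    fun p q => by rw [if_neg p, if_neg q, sub_zero], fun τ => ?_⟩
  obtain ⟨S, h1, h2⟩ := one h0 τ a t
  obtain ⟨S', h1', h2'⟩ := one h0 τ b s
  have e := ((rows τ (a * τ / h + t) (b * τ / h + s)).div_const ((2 * π * Complex.I) ^ 2)).unique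
    (cg (h1.sub h1') fun m => sub_div _ _ _)
  rw [e]
  refine cg (h2.sub h2') fun n => ?_
  rw [← sub_mul]
  split_ifs <;> rfl

end

end Pool.Agent.MP_b2c033_nt.UP
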