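import Pool.Agent.MP_b2c033_nt.UP.Spec

/-! The field generated by a generic point of a general Weierstrass curve. -/

namespace Pool.Agent.MP_b2c033_nt.UP

open H87 Polynomial
open scoped PowerSeries LaurentSeries

namespace RFld

theorem iso {F K : Type} [Field F] [Field K] [Algebra F K] (V : WeierstrassCurve F) {x y : K}
    (hx : Transcendental F x)
    (h : y ^ 2 + algebraMap F K V.a₁ * x * y + algebraMap F K V.a₃ * y =
      x ^ 3 + algebraMap F K V.a₂ * x ^ 2 + algebraMap F K V.a₄ * x + algebraMap F K V.a₆) :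
    Nonempty (IntermediateField.adjoin F {x, y} ≃ₐ[F] V.toAffine.FunctionField) := by
  set W := V.toAffine with hW
  have h0 : W.polynomial.eval₂ (aeval x : F[X] →ₐ[F] K) y = 0 := by
    simp only [WeierstrassCurve.Affine.polynomial, hW, eval₂_sub, eval₂_add, eval₂_mul, eval₂_C,
      eval₂_X_pow, eval₂_X]
    simp
    linear_combination h
  let φ : W.CoordinateRing →ₐ[F] K := AdjoinRoot.liftAlgHom W.polynomial (aeval x) y h0
  have h1 : ∀ p : F[X], φ (algebraMap F[X] W.CoordinateRing p) = aeval x p := fun p =>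
    AdjoinRoot.liftAlgHom_of _ _ _ _ p
  have h2 : φ (AdjoinRoot.root _) = y := AdjoinRoot.liftAlgHom_root _ _ _ _
  have hi : Function.Injective φ := by
    have : Module.Finite F[X] W.CoordinateRing :=
      .of_basis (WeierstrassCurve.Affine.CoordinateRing.basis W)
    rw [RingHom.injective_iff_ker_eq_bot]
    refine Ideal.eq_bot_of_comap_eq_bot (R := F[X]) (eq_bot_iff.2 fun p hp => ?_)
    rw [Ideal.mem_comap, RingHom.mem_ker, h1] at hp
    exact transcendental_iff.1 hx p hp
  have hr : φ.range = Algebra.adjoin F {x, y} := by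
    refine le_antisymm ?_ (Algebra.adjoin_le ?_)
    · rintro _ ⟨t, rfl⟩
      obtain ⟨p, q, rfl⟩ := WeierstrassCurve.Affine.CoordinateRing.exists_smul_basis_eq t
      have h3 : ∀ p : F[X], aeval x p ∈ Algebra.adjoin F {x, y} := fun p =>
        Algebra.adjoin_mono (Set.singleton_subset_iff.2 (Set.mem_insert _ _))
          (aeval_mem_adjoin_singleton F x)
      change φ _ ∈ _
      rw [Algebra.smul_def, Algebra.smul_def, mul_one, map_add, map_mul, h1, h1,
        AdjoinRoot.mk_X, h2]
      exact add_mem (h3 p) (mul_mem (h3 q) (Algebra.subset_adjoin (Or.inr rfl)))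
    · rintro _ (rfl | rfl)
      · exact ⟨_, (h1 X).trans (aeval_X _)⟩
      · exact ⟨_, h2⟩
  have h4 := IsFractionRing.liftAlgHom_fieldRange_eq_of_range_eq (K := W.FunctionField) hi hr
  exact ⟨(IntermediateField.equivOfEq h4.symm).trans
    (AlgEquiv.ofInjectiveField (IsFractionRing.liftAlgHom (K := W.FunctionField) hi)).symm⟩

theorem aev_mem {F K : Type} [Field F] [Field K] [Algebra F K] {S : IntermediateField F K}
    {x : K} (hx : x ∈ S) (p : F[X]) : aeval x p ∈ S :=
  (Algebra.adjoin_le (S := S.toSubalgebra) (Set.singleton_subset_iff.2 hx))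
    (aeval_mem_adjoin_singleton F x)

theorem gen {F K : Type} [Field F] [Field K] [Algebra F K] (W : WeierstrassCurve F) (u v : K)
    (c x₀ : F) (α β γ : F[X]) (hu : Transcendental F u) (hc : c ≠ 0) (hβ : β ≠ 0) (hγ : γ ≠ 0)
    (h : (aeval u γ * v - aeval u α) ^ 2 +
      (algebraMap F K W.a₁ * (algebraMap F K c * u + algebraMap F K x₀) + algebraMap F K W.a₃) *
        (aeval u γ * v - aeval u α) * aeval u β =
      aeval u β ^ 2 * ((algebraMap F K c * u + algebraMap F K x₀) ^ 3 +
        algebraMap F K W.a₂ * (algebraMap F K c * u + algebraMap F K x₀) ^ 2 +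
        algebraMap F K W.a₄ * (algebraMap F K c * u + algebraMap F K x₀) +
        algebraMap F K W.a₆)) :
    Nonempty (IntermediateField.adjoin F {u, v} ≃ₐ[F] W.toAffine.FunctionField) := by
  have b0 : aeval u β ≠ 0 := fun e => hβ (transcendental_iff.1 hu β e)
  have g0 : aeval u γ ≠ 0 := fun e => hγ (transcendental_iff.1 hu γ e)
  have c0 : algebraMap F K c ≠ 0 := (_root_.map_ne_zero _).2 hc
  obtain ⟨x, hx⟩ : ∃ x, x = algebraMap F K c * u + algebraMap F K x₀ := ⟨_, rfl⟩
  obtain ⟨y, hy⟩ : ∃ y, y = (aeval u γ * v - aeval u α) / aeval u β := ⟨_, rfl⟩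
  have eu : u = (x - algebraMap F K x₀) / algebraMap F K c := by
    rw [hx, add_sub_cancel_right, mul_div_cancel_left₀ _ c0]
  have ey : aeval u γ * v - aeval u α = y * aeval u β := by rw [hy, div_mul_cancel₀ _ b0]
  have ev : v = (y * aeval u β + aeval u α) / aeval u γ := by
    rw [← ey, sub_add_cancel, mul_div_cancel_left₀ _ g0]
  have tx : Transcendental F x := by
    intro ha
    apply hu
    rw [eu, div_eq_mul_inv]
    exact (ha.sub (isAlgebraic_algebraMap _)).mul (isAlgebraic_algebraMap _).inv
  have he : IntermediateField.adjoin F {u, v} = IntermediateField.adjoin F {x, y} := by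
    apply le_antisymm
    · have mx : x ∈ IntermediateField.adjoin F {x, y} :=
        IntermediateField.subset_adjoin _ _ (Or.inl rfl)
      have my : y ∈ IntermediateField.adjoin F {x, y} :=
        IntermediateField.subset_adjoin _ _ (Or.inr rfl)
      have mu : u ∈ IntermediateField.adjoin F {x, y} := by
        rw [eu]
        exact div_mem (sub_mem mx (IntermediateField.algebraMap_mem _ _))
          (IntermediateField.algebraMap_mem _ _)
      have mv : v ∈ IntermediateField.adjoin F {x, y} := by
        rw [ev]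
        exact div_mem (add_mem (mul_mem my (aev_mem mu _)) (aev_mem mu _)) (aev_mem mu _)
      exact IntermediateField.adjoin_le_iff.2 (Set.insert_subset mu (Set.singleton_subset_iff.2 mv))
    · have mu : u ∈ IntermediateField.adjoin F {u, v} :=
        IntermediateField.subset_adjoin _ _ (Or.inl rfl)
      have mv : v ∈ IntermediateField.adjoin F {u, v} :=
        IntermediateField.subset_adjoin _ _ (Or.inr rfl)
      have mx : x ∈ IntermediateField.adjoin F {u, v} := by
        rw [hx]
        exact add_mem (mul_mem (IntermediateField.algebraMap_mem _ _) mu)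
          (IntermediateField.algebraMap_mem _ _)
      have my : y ∈ IntermediateField.adjoin F {u, v} := by
        rw [hy]
        exact div_mem (sub_mem (mul_mem (aev_mem mu _) mv) (aev_mem mu _)) (aev_mem mu _)
      exact IntermediateField.adjoin_le_iff.2 (Set.insert_subset mx (Set.singleton_subset_iff.2 my))
  rw [he]
  refine iso W tx (mul_left_cancel₀ (pow_ne_zero 2 b0) ?_)
  rw [← hx, ey] at h
  linear_combination h

theorem ring {F K : Type} [Field F] [Field K] [Algebra F K] {W : WeierstrassCurve F}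
    {S : IntermediateField F K} (h : Nonempty (S ≃ₐ[F] W.toAffine.FunctionField)) :
    Nonempty (S ≃+* W.toAffine.FunctionField) :=
  h.map AlgEquiv.toRingEquiv

theorem tr (a b : ℤ⟦X⟧) (B : ℕ) (hb : b ≠ 0) (h0 : ∀ n < B, PowerSeries.coeff n b = 0)
    (h1 : ∃ n < B, PowerSeries.coeff n a ≠ 0) : Transcendental ℚ (io a / io b) := by
  intro ha
  obtain ⟨p, hp⟩ := (IsIntegrallyClosed.isIntegral_iff (R := ℚ⟦X⟧) (K := ℚ⸨X⸩)
    (x := io a / io b)).1
    (ha.isIntegral.map_of_comp_eq (algebraMap ℚ ℚ⟦X⟧) (RingHom.id ℚ⸨X⸩) rfl)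
  have hq : Function.Injective iq := HahnSeries.ofPowerSeries_injective
  have hm : Function.Injective (PowerSeries.map (Int.castRingHom ℚ)) :=
    PowerSeries.map_injective _ Int.cast_injective
  have b0 : io b ≠ 0 := fun e => hb (hm (hq (e.trans (map_zero io).symm)))
  have e1 : iq p * io b = io a := by
    have : iq p = io a / io b := hp
    rw [this, div_mul_cancel₀ _ b0]
  have e2 : p * PowerSeries.map (Int.castRingHom ℚ) b = PowerSeries.map (Int.castRingHom ℚ) a :=
    hq ((map_mul iq _ _).trans e1)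
  have d1 : PowerSeries.X ^ B ∣ PowerSeries.map (Int.castRingHom ℚ) b :=
    PowerSeries.X_pow_dvd_iff.2 fun n hn => by rw [PowerSeries.coeff_map, h0 n hn, map_zero]
  obtain ⟨n, hn, hne⟩ := h1
  have d2 := PowerSeries.X_pow_dvd_iff.1 (e2 ▸ d1.mul_left p) n hn
  rw [PowerSeries.coeff_map] at d2
  exact hne (Int.cast_injective (α := ℚ) (d2.trans Int.cast_zero.symm))

end RFld

theorem rFld : SFld :=
  ⟨fun W _ _ hx h => (RFld.ring (RFld.iso W hx h)).map RingEquiv.toRatAlgEquiv,
    RFld.tr, fun W F G c x₀ α β γ hF hc hβ hγ h =>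
      (RFld.ring (RFld.gen W F G c x₀ α β γ hF hc hβ hγ h)).map RingEquiv.toRatAlgEquiv⟩

end Pool.Agent.MP_b2c033_nt.UP
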