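import Pool.Agent.MP_b2c033_nt.UP.Spec

/-!
The calculus of evaluation at a power of two.
-/

namespace Pool.Agent.MP_b2c033_nt.UP

open Polynomial

namespace RKrX

lemma coeff_le (m : ℕ[X]) (n : ℕ) : m.coeff n ≤ m.eval 1 := by
  by_cases h : n ∈ m.support
  · rw [eval_eq_sum, Polynomial.sum]
    simpa using Finset.single_le_sum (f := fun k => m.coeff k) (fun _ _ => Nat.zero_le _) h
  · rw [notMem_support_iff.1 h]
    exact Nat.zero_le _

lemma digits (q : ℤ) (B : ℕ) : ∀ p : ℤ[X], (∀ n, |p.coeff n| < q) → q ^ B ∣ p.eval q →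
    ∀ n < B, p.coeff n = 0 := by
  induction B with
  | zero => exact fun _ _ _ n hn => absurd hn n.not_lt_zero
  | succ B ih =>
    intro p hp hd
    have q0 : q ≠ 0 := ((abs_nonneg _).trans_lt (hp 0)).ne'
    rw [← X_mul_divX_add p, eval_add, eval_mul, eval_X, eval_C, pow_succ'] at hd
    have c0 : p.coeff 0 = 0 := Int.eq_zero_of_abs_lt_dvd
      ((dvd_add_right (dvd_mul_right q _)).1 ((dvd_mul_right q _).trans hd)) (hp 0)
    rw [c0, add_zero, mul_dvd_mul_iff_left q0] at hd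
    rintro (_ | n) hn
    · exact c0
    · exact (coeff_divX (p := p)).symm.trans (ih _ (fun k => coeff_divX (p := p) ▸ hp (k + 1)) hd n
        (Nat.lt_of_succ_lt_succ hn))

lemma red (x M : ℕ) : ((x % 2 ^ M : ℕ) : ℤ) ≡ x [ZMOD 2 ^ M] := by
  push_cast
  exact Int.mod_modEq _ _

lemma dvd_iff {x M : ℕ} {v : ℤ} (h : (x : ℤ) ≡ v [ZMOD 2 ^ M]) : x % 2 ^ M = 0 ↔ 2 ^ M ∣ v := by
  rw [← Nat.dvd_iff_mod_eq_zero, ← Int.natCast_dvd_natCast, Nat.cast_pow, Nat.cast_ofNat]
  exact ⟨fun q => by simpa using dvd_add q h.dvd, fun q => by simpa using dvd_sub q h.dvd⟩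

end RKrX

open RKrX

theorem rKr : SKr where
  nat K B c := ⟨C (c : ℤ), C c, fun n _ => by
      rw [← map_natCast (PowerSeries.C (R := ℤ)), PowerSeries.coeff_C, coeff_C], fun n => by
      rw [coeff_C, coeff_C]
      split_ifs <;> simp, by simp, by simp⟩
  add := fun ⟨p, m, a1, a2, a3, a4⟩ ⟨p', m', b1, b2, b3, b4⟩ =>
    ⟨p + p', m + m', fun n hn => by rw [map_add, coeff_add, a1 n hn, b1 n hn], fun n => by
      rw [coeff_add, coeff_add]
      exact (Int.natAbs_add_le _ _).trans (add_le_add (a2 n) (b2 n)), by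
      rw [eval_add]
      exact add_le_add a3 b3, by
      rw [eval_add, Nat.cast_add]
      exact a4.add b4⟩
  mul := fun ⟨p, m, a1, a2, a3, a4⟩ ⟨p', m', b1, b2, b3, b4⟩ =>
    ⟨p * p', m * m', fun n hn => by
      rw [PowerSeries.coeff_mul, coeff_mul]
      refine Finset.sum_congr rfl fun i hi => ?_
      have := Finset.HasAntidiagonal.mem_antidiagonal.1 hi
      rw [a1 _ (by omega), b1 _ (by omega)], fun n => by
      rw [coeff_mul, coeff_mul]
      refine (Int.natAbs_sum_le _ _).trans (Finset.sum_le_sum fun i _ => ?_)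
      rw [Int.natAbs_mul]
      exact Nat.mul_le_mul (a2 _) (b2 _), by
      rw [eval_mul]
      exact Nat.mul_le_mul a3 b3, by
      rw [eval_mul, Nat.cast_mul]
      exact a4.mul b4⟩
  neg := fun {K B _ x _} ⟨p, m, a1, a2, a3, a4⟩ =>
    ⟨-p, m, fun n hn => by rw [map_neg, coeff_neg, a1 n hn], fun n => by
      rw [coeff_neg, Int.natAbs_neg]
      exact a2 n, a3, by
      rw [eval_neg, Nat.cast_sub (Nat.mod_lt _ (by positivity)).le, ← zero_sub (eval _ p)]
      refine Int.ModEq.sub (Int.modEq_zero_iff_dvd.2 ?_) ((red x _).trans a4)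
      rw [Nat.cast_pow, Nat.cast_ofNat]⟩
  red := fun ⟨p, m, a1, a2, a3, a4⟩ => ⟨p, m, a1, a2, a3, (red _ _).trans a4⟩
  mono := fun h ⟨p, m, a1, a2, a3, a4⟩ => ⟨p, m, fun n hn => a1 n (hn.trans_le h), a2, a3,
    a4.of_dvd (pow_dvd_pow _ (Nat.mul_le_mul_left _ h))⟩
  zero := fun {K B _ _ _} ⟨p, m, a1, a2, a3, a4⟩ hs hx n hn => (a1 n hn).trans
    (digits (2 ^ K) B p (fun k => by
      rw [Int.abs_eq_natAbs]
      exact_mod_cast ((a2 k).trans ((coeff_le m k).trans a3)).trans_lt hs)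
      (by rw [← pow_mul]; exact (dvd_iff a4).1 hx) n hn)
  ne := fun {K B _ _ _} ⟨p, m, a1, _, _, a4⟩ hx => by
    by_contra! h
    obtain ⟨r, hr⟩ := X_pow_dvd_iff.2 fun n hn => (a1 n hn).symm.trans (h n hn)
    refine hx ((dvd_iff a4).2 ?_)
    rw [hr, eval_mul, eval_pow, eval_X, ← pow_mul]
    exact dvd_mul_right _ _

end Pool.Agent.MP_b2c033_nt.UP
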