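import Pool.Agent.MP_b2c033_nt.UP.Spec

/-!
The value of a truncated Lambert series at a power of two.
-/

namespace Pool.Agent.MP_b2c033_nt.UP

open Polynomial Finset

noncomputable section

namespace LamX

theorem sm_eq (g : ℕ → ℕ) (n : ℕ) : sm g n = ∑ i ∈ range n, g i := by
  induction n with
  | zero => rfl
  | succ n ih => rw [sum_range_succ, ← ih]; rfl

theorem row_eq (c : ℕ → ℕ) (w t : ℕ) :
    ∀ lo, row c w t lo = ∑ i ∈ range (2 ^ t), c (lo + i) * 2 ^ (w * i) := by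
  induction t with
  | zero => intro lo; simp [row]
  | succ t ih =>
    intro lo
    have e : row c w (t + 1) lo = row c w t lo + row c w t (lo + 2 ^ t) <<< (w * 2 ^ t) := by
      show Nat.add (row c w t lo) (frc _ _) = _
      rw [frc_eq]
      rfl
    rw [e, ih, ih, Nat.shiftLeft_eq, pow_succ, mul_two, sum_range_add, sum_mul]
    refine congrArg _ (sum_congr rfl fun i _ => ?_)
    rw [add_assoc, mul_add, pow_add]
    ring

theorem geo_eq (w t : ℕ) : geo w t = ∑ i ∈ range (2 ^ t), 2 ^ (w * i) := by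
  induction t with
  | zero => simp [geo]
  | succ t ih =>
    have e : geo w (t + 1) = geo w t + geo w t <<< (w * 2 ^ t) := by
      exact frc_eq (geo w t) fun x => Nat.add x (Nat.shiftLeft x (Nat.mul w (Nat.pow 2 t)))
    rw [e, ih, Nat.shiftLeft_eq, pow_succ, mul_two, sum_range_add, sum_mul]
    refine congrArg _ (sum_congr rfl fun i _ => ?_)
    rw [mul_add, pow_add]
    ring

/-- The truncation. -/
def pol (c : ℕ → ℕ) (d a B J : ℕ) : ℕ[X] :=
  (∑ j ∈ range J, ∑ i ∈ range (2 ^ (Nat.log2 (B / (d * (j + 1))) + 1)),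
    monomial ((a + i * d) * (j + 1)) (c (j + 1))) +
  ∑ i ∈ range (B / (d * (J + 1)) + 1), ∑ l ∈ range (2 ^ (Nat.log2 (B / (a + i * d)) + 1)),
    monomial ((a + i * d) * (J + 1 + l)) (c (J + 1 + l))

theorem lam_eq (c : ℕ → ℕ) (d a K B J : ℕ) :
    lamN c d a K B J = (pol c d a B J).eval (2 ^ K) := by
  rw [pol, eval_add, eval_finsetSum, eval_finsetSum, lamN, sm_eq, sm_eq]
  refine congrArg₂ Nat.add (sum_congr rfl fun j _ => ?_) (sum_congr rfl fun i _ => ?_)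
  · show (c (j + 1) * geo _ _) <<< _ = _
    rw [Nat.shiftLeft_eq, geo_eq, eval_finsetSum, mul_sum, sum_mul]
    refine sum_congr rfl fun i _ => ?_
    rw [eval_monomial, ← pow_mul, mul_assoc, ← pow_add]
    congr 2
    ring
  · rw [frc_eq]
    show (row _ _ _ _) <<< _ = _
    rw [Nat.shiftLeft_eq, row_eq, eval_finsetSum, sum_mul]
    refine sum_congr rfl fun l _ => ?_
    rw [eval_monomial, ← pow_mul, mul_assoc, ← pow_add]
    congr 2
    ring

theorem key (c : ℕ → ℕ) (d a n : ℕ) (s : Finset (Σ _ : ℕ, ℕ)) (φ : (Σ _ : ℕ, ℕ) → ℕ × ℕ)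
    (P : ℕ → Prop) [DecidablePred P] (inj : ∀ x y, φ x = φ y → x = y)
    (h1 : ∀ x ∈ s, (φ x).1 % d = a % d ∧ (φ x).1 ≠ 0 ∧ (φ x).2 ≠ 0 ∧ P (φ x).2)
    (h2 : ∀ r k, r * k = n → n ≠ 0 → r % d = a % d → P k → ∃ x ∈ s, φ x = (r, k)) :
    ∑ x ∈ s, (if (φ x).1 * (φ x).2 = n then c (φ x).2 else 0) =
      ∑ p ∈ n.divisorsAntidiagonal, if p.1 % d = a % d ∧ P p.2 then c p.2 else 0 := by
  rw [← sum_filter, ← sum_filter]
  refine sum_bij (fun x _ => φ x) (fun x hx => ?_) (fun x _ y _ h => inj x y h)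
    (fun p hp => ?_) fun _ _ => rfl
  · obtain ⟨k1, k2⟩ := mem_filter.1 hx
    obtain ⟨j1, j2, j3, j4⟩ := h1 x k1
    exact mem_filter.2 ⟨Nat.mem_divisorsAntidiagonal.2 ⟨k2, k2 ▸ mul_ne_zero j2 j3⟩, j1, j4⟩
  · obtain ⟨k1, k2, k3⟩ := mem_filter.1 hp
    obtain ⟨k4, k5⟩ := Nat.mem_divisorsAntidiagonal.1 k1
    obtain ⟨x, x1, x2⟩ := h2 p.1 p.2 k4 k5 k2 k3
    exact ⟨x, mem_filter.2 ⟨x1, by rw [x2]; exact k4⟩, x2⟩

theorem rep {d a r : ℕ} (ad : a ≤ d) (r0 : r ≠ 0) (h : r % d = a % d) : ∃ i, r = a + i * d := by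
  rcases le_or_gt a r with k | k
  · obtain ⟨i, hi⟩ := (Nat.modEq_iff_dvd' k).1 h.symm
    exact ⟨i, by rw [mul_comm, ← hi, Nat.add_sub_cancel' k]⟩
  · have := Nat.le_of_dvd (Nat.sub_pos_of_lt k) ((Nat.modEq_iff_dvd' k.le).1 h)
    omega

theorem coeff_pol (c : ℕ → ℕ) {d a B n : ℕ} (J : ℕ) (a0 : 0 < a) (ad : a ≤ d) (hn : n < B) :
    (pol c d a B J).coeff n =
      ∑ p ∈ n.divisorsAntidiagonal, if p.1 % d = a % d then c p.2 else 0 := by
  have d0 : 0 < d := a0.trans_le ad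
  have e1 := key c d a n ((range J).sigma fun j => range (2 ^ (Nat.log2 (B / (d * (j + 1))) + 1)))
    (fun x => (a + x.2 * d, x.1 + 1)) (· ≤ J) ?_ ?_ ?_
  have e2 := key c d a n ((range (B / (d * (J + 1)) + 1)).sigma
      fun i => range (2 ^ (Nat.log2 (B / (a + i * d)) + 1)))
    (fun x => (a + x.1 * d, J + 1 + x.2)) (¬· ≤ J) ?_ ?_ ?_
  · rw [sum_sigma] at e1 e2
    simp only [pol, coeff_add, finsetSum_coeff, coeff_monomial]
    rw [e1, e2, ← sum_add_distrib]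
    refine sum_congr rfl fun p _ => ?_
    by_cases h1 : p.1 % d = a % d <;> by_cases h2 : p.2 ≤ J <;> simp [h1, h2]
  · rintro ⟨i, l⟩ ⟨i', l'⟩ h
    obtain ⟨k1, k2⟩ := Prod.mk.inj h
    obtain rfl : i = i' := Nat.eq_of_mul_eq_mul_right d0 (Nat.add_left_cancel k1)
    obtain rfl : l = l' := Nat.add_left_cancel k2
    rfl
  · rintro ⟨i, l⟩ -
    exact ⟨Nat.add_mul_mod_self_right _ _ _, by positivity, by positivity, by omega⟩
  · intro r k h n0 hr hk
    have r0 : r ≠ 0 := fun e => n0 (by rw [← h, e, zero_mul])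
    obtain ⟨i, rfl⟩ := rep ad r0 hr
    obtain ⟨l, rfl⟩ : ∃ l, k = J + 1 + l := ⟨k - (J + 1), by omega⟩
    refine ⟨⟨i, l⟩, mem_sigma.2 ⟨mem_range.2 (Nat.lt_succ_of_le ?_),
      mem_range.2 (lt_of_le_of_lt ?_ Nat.lt_log2_self)⟩, rfl⟩
    · rw [Nat.le_div_iff_mul_le (by positivity)]
      show i * (d * (J + 1)) ≤ B
      nlinarith [Nat.zero_le (a * (J + 1 + l)), Nat.zero_le (i * d * l)]
    · rw [Nat.le_div_iff_mul_le (Nat.pos_of_ne_zero r0)]
      show l * (a + i * d) ≤ B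
      nlinarith [Nat.zero_le ((a + i * d) * (J + 1))]
  · rintro ⟨j, i⟩ ⟨j', i'⟩ h
    obtain ⟨k1, k2⟩ := Prod.mk.inj h
    obtain rfl : i = i' := Nat.eq_of_mul_eq_mul_right d0 (Nat.add_left_cancel k1)
    obtain rfl : j = j' := Nat.add_right_cancel k2
    rfl
  · rintro ⟨j, i⟩ h
    exact ⟨Nat.add_mul_mod_self_right _ _ _, by positivity, by positivity,
      mem_range.1 (mem_sigma.1 h).1⟩
  · intro r k h n0 hr hk
    have r0 : r ≠ 0 := fun e => n0 (by rw [← h, e, zero_mul])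
    have k0 : k ≠ 0 := fun e => n0 (by rw [← h, e, mul_zero])
    obtain ⟨i, rfl⟩ := rep ad r0 hr
    obtain ⟨j, rfl⟩ := Nat.exists_eq_succ_of_ne_zero k0
    refine ⟨⟨j, i⟩, mem_sigma.2 ⟨mem_range.2 hk,
      mem_range.2 (lt_of_le_of_lt ?_ Nat.lt_log2_self)⟩, rfl⟩
    rw [Nat.le_div_iff_mul_le (by positivity)]
    show i * (d * (j + 1)) ≤ B
    rw [Nat.succ_eq_add_one] at h
    nlinarith [Nat.zero_le (a * (j + 1))]

end LamX

open LamX in
theorem rLam : SLam := by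
  intro c d a K B J a0 ad
  refine ⟨(pol c d a B J).map (Nat.castRingHom ℤ), pol c d a B J, fun n hn => ?_, fun n => ?_,
    ?_, ?_⟩
  · rw [coeff_map, coeff_pol c J a0 ad hn, lamS, PowerSeries.coeff_mk, map_sum]
    refine sum_congr rfl fun p _ => ?_
    split_ifs <;> simp
  · simp [coeff_map]
  · rw [lam_eq, pow_zero]
  · have e : ((2 : ℤ) ^ K) = Nat.castRingHom ℤ (2 ^ K) := by simp
    rw [lam_eq, e, eval_map, eval₂_at_apply]
    rfl

end

end Pool.Agent.MP_b2c033_nt.UP
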