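import Pool.Agent.MP_b2c033_nt.UP.Spec

/-! The transformation law of the Weierstrass function. -/

namespace Pool.Agent.MP_b2c033_nt.UP

open UpperHalfPlane hiding I
open scoped MatrixGroups

/-- Homogeneity of the Weierstrass function. -/
theorem wp_hom (L L' : PeriodPair) (j : ℂ) (hj : j ≠ 0)
    (h : ∀ x, x ∈ L.lattice ↔ j * x ∈ L'.lattice) (z : ℂ) :
    L.weierstrassP z = j ^ 2 * L'.weierstrassP (j * z) := by
  rw [PeriodPair.weierstrassP, PeriodPair.weierstrassP, ← tsum_mul_left,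
    ← ((Equiv.mulLeft₀ j hj).subtypeEquiv (p := (· ∈ L.lattice)) (q := (· ∈ L'.lattice)) h).tsum_eq]
  refine tsum_congr fun l => ?_
  show _ = j ^ 2 * (1 / (j * z - j * l) ^ 2 - 1 / (j * l) ^ 2)
  rw [← mul_sub, mul_pow, mul_pow, mul_sub, mul_one_div, mul_one_div, div_mul_cancel_left₀,
    div_mul_cancel_left₀, one_div, one_div] <;> exact pow_ne_zero 2 hj

theorem rMod : SMod := fun γ τ z => by
  have hj : (γ 1 0 : ℂ) * τ + γ 1 1 ≠ 0 := by simpa [denom] using denom_ne_zero γ τ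
  have e : ((γ 1 0 : ℂ) * τ + γ 1 1) * (γ • τ : ℍ) = γ 0 0 * τ + γ 0 1 := by
    rw [coe_specialLinearGroup_apply]
    simp only [eq_intCast, Complex.ofReal_intCast]
    exact mul_div_cancel₀ _ hj
  have d : (γ 0 0 : ℂ) * γ 1 1 - γ 0 1 * γ 1 0 = 1 := by
    exact_mod_cast (Matrix.det_fin_two γ.1).symm.trans γ.2
  refine wp_hom _ _ _ hj (fun x => ?_) z
  simp only [PeriodPair.mem_lattice, lat]
  refine ⟨fun ⟨m, n, h⟩ => ⟨m * γ 0 0 + n * γ 1 0, m * γ 0 1 + n * γ 1 1, ?_⟩, fun ⟨m, n, h⟩ =>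
    ⟨m * γ 1 1 - n * γ 1 0, n * γ 0 0 - m * γ 0 1, mul_left_cancel₀ hj ?_⟩⟩ <;> rw [← h] <;>
    push_cast
  · linear_combination -m * e
  · linear_combination (m * γ 1 1 - n * γ 1 0) * e + (m * τ + n) * d

end Pool.Agent.MP_b2c033_nt.UP
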