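import Pool.Agent.MP_b2c033_nt.UP.Spec2

/-! Change of the spacing of the digits. -/

namespace Pool.Agent.MP_b2c033_nt.UP

open Finset

namespace RResp

/-- The number with digits `g`. -/
def dg (K : ℕ) (g : ℕ → ℕ) (n : ℕ) : ℕ := ∑ i ∈ range n, g i * 2 ^ (K * i)

theorem dg_add (K : ℕ) (g : ℕ → ℕ) (a b : ℕ) :
    dg K g (a + b) = dg K g a + dg K (fun i => g (a + i)) b * 2 ^ (K * a) := by
  rw [dg, sum_range_add, dg, dg, sum_mul]
  refine congrArg _ (sum_congr rfl fun i _ => ?_)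
  rw [mul_add, pow_add]
  ring

theorem dg_lt {K : ℕ} {g : ℕ → ℕ} (h : ∀ i, g i < 2 ^ K) (n : ℕ) : dg K g n < 2 ^ (K * n) := by
  induction n with
  | zero => simp [dg]
  | succ n ih =>
    have h1 := Nat.mul_le_mul_right (2 ^ (K * n)) (Nat.succ_le_of_lt (h n))
    rw [dg, sum_range_succ, mul_add, pow_add, mul_one, mul_comm (2 ^ (K * n))]
    rw [Nat.succ_mul] at h1
    rw [dg] at ih
    omega

theorem land_eq (x n : ℕ) : Nat.land x (Nat.sub (Nat.shiftLeft 1 n) 1) = x % 2 ^ n := by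
  change x &&& (1 <<< n - 1) = _
  rw [Nat.one_shiftLeft, Nat.and_two_pow_sub_one_eq_mod]

theorem shl (x n : ℕ) : Nat.shiftLeft x n = x * 2 ^ n := Nat.shiftLeft_eq x n

theorem shr (x n : ℕ) : Nat.shiftRight x n = x / 2 ^ n := Nat.shiftRight_eq_div_pow x n

theorem spr_zero (K₀ K t : ℕ) : spr K₀ K t 0 = 0 := by cases t <;> rfl

theorem spr_succ (K₀ K t x : ℕ) : spr K₀ K (t + 1) x = spr K₀ K t (x % 2 ^ (K₀ * 2 ^ t)) +
    spr K₀ K t (x / 2 ^ (K₀ * 2 ^ t)) * 2 ^ (K * 2 ^ t) := by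
  cases x with
  | zero => simp [spr_zero]
  | succ n =>
    rw [← land_eq, ← shr, ← shl _ (K * 2 ^ t)]
    rfl

theorem spr_dg (K₀ K t : ℕ) : ∀ g : ℕ → ℕ, (∀ i, g i < 2 ^ K₀) →
    spr K₀ K t (dg K₀ g (2 ^ t)) = dg K g (2 ^ t) := by
  induction t with
  | zero => intro g _; simp [spr, dg]
  | succ t ih =>
    intro g h
    have h1 := dg_lt h (2 ^ t)
    rw [spr_succ, pow_succ, mul_two, dg_add, dg_add, Nat.add_mul_mod_self_right,
      Nat.mod_eq_of_lt h1, Nat.add_mul_div_right _ _ (by positivity), Nat.div_eq_of_lt h1,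
      zero_add, ih g h, ih _ fun i => h _]

theorem geo_eq (w t : ℕ) : geo w t = dg w (fun _ => 1) (2 ^ t) := by
  induction t with
  | zero => simp [geo, dg]
  | succ t ih =>
    rw [pow_succ, mul_two, dg_add, ← ih, ← shl]
    exact frc_eq (geo w t) fun x => Nat.add x (Nat.shiftLeft x (Nat.mul w (Nat.pow 2 t)))

theorem geo_mod (w c : ℕ) {t B : ℕ} (h : B ≤ 2 ^ t) :
    ((geo w t * c : ℕ) : ℤ) ≡ ∑ i ∈ range B, c * 2 ^ (w * i) [ZMOD 2 ^ (w * B)] := by
  obtain ⟨b, hb⟩ := Nat.exists_eq_add_of_le h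
  rw [geo_eq, hb, dg_add, dg, add_mul, sum_mul]
  push_cast
  refine (Int.modEq_iff_dvd.2 ⟨-(dg w (fun _ => 1) b * c), ?_⟩)
  rw [sum_congr rfl fun i _ => (by ring : (1 : ℤ) * 2 ^ (w * i) * c = c * 2 ^ (w * i))]
  ring

theorem eval_mod (p : Polynomial ℤ) (K B : ℕ) :
    p.eval (2 ^ K) ≡ ∑ i ∈ range B, p.coeff i * 2 ^ (K * i) [ZMOD 2 ^ (K * B)] := by
  rw [Polynomial.eval_eq_sum_range' (n := B + (p.natDegree + 1)) (by omega), sum_range_add]
  simp only [← pow_mul]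
  refine Int.modEq_iff_dvd.2 ?_
  rw [sub_add_cancel_left, dvd_neg]
  exact dvd_sum fun i _ => Dvd.dvd.mul_left (pow_dvd_pow _ (Nat.mul_le_mul_left _ (by omega))) _

end RResp

open RResp in
theorem rResp : SResp := by
  rintro K₀ K B a x s ⟨p, m, h1, h2, h3, h4⟩ hs
  refine ⟨p, m, h1, h2, h3, ?_⟩
  have hm : ∀ i, (p.coeff i).natAbs < 2 ^ K₀ := fun i => by
    refine ((h2 i).trans (le_trans ?_ h3)).trans_lt hs
    rw [Polynomial.eval_eq_sum_range' (n := i + m.natDegree + 1) (by omega)]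
    simp only [one_pow, mul_one]
    exact single_le_sum (fun _ _ => Nat.zero_le _) (mem_range.2 (by omega))
  obtain ⟨c, hc⟩ : ∃ c : ℕ, c = 2 ^ K₀ := ⟨_, rfl⟩
  obtain ⟨g, hg⟩ : ∃ g : ℕ → ℕ, g = fun i => if i < B then (p.coeff i + c).toNat else 0 := ⟨_, rfl⟩
  have g1 : ∀ i, g i < 2 ^ (K₀ + 1) := fun i => by
    have := hm i
    rw [hg, pow_succ, ← hc] at *
    dsimp only
    split_ifs <;> omega
  have hB : B ≤ 2 ^ (Nat.log2 B + 1) := Nat.lt_log2_self.le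
  have g2 : ∀ w, dg w g (2 ^ (Nat.log2 B + 1)) = dg w g B := fun w => by
    obtain ⟨b, hb⟩ := Nat.exists_eq_add_of_le hB
    rw [hb, dg_add, dg, dg, sum_eq_zero (s := range b) fun i _ => by simp [hg], zero_mul, add_zero]
  have g3 : ∀ w, (dg w g B : ℤ) =
      ∑ i ∈ range B, p.coeff i * 2 ^ (w * i) + ∑ i ∈ range B, (c : ℤ) * 2 ^ (w * i) := fun w => by
    rw [dg, ← sum_add_distrib]
    push_cast
    refine sum_congr rfl fun i hi => ?_
    have := hm i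
    rw [← hc] at this
    rw [← add_mul, hg]
    simp only [mem_range.1 hi, if_true]
    rw [Int.toNat_of_nonneg (by omega)]
  have e1 : (x + geo (K₀ + 1) (Nat.log2 B + 1) * c) % 2 ^ ((K₀ + 1) * B) = dg (K₀ + 1) g B := by
    rw [← Nat.mod_eq_of_lt (dg_lt g1 B)]
    refine Int.natCast_modEq_iff.1 ?_
    rw [g3, Nat.cast_add, Nat.cast_pow, Nat.cast_two]
    exact (h4.trans (eval_mod p _ B)).add (geo_mod _ c hB)
  have e2 : resp K₀ K B x = dg K g B +
      (2 ^ (K * B) - geo K (Nat.log2 B + 1) * c % 2 ^ (K * B)) := by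
    rw [← g2, ← spr_dg _ K _ g g1, g2, ← e1, resp, land_eq, land_eq, shl, shl, shl, one_mul, ← hc]
    rfl
  have e3 := geo_mod K c hB
  rw [e2, Nat.cast_add, g3, Nat.cast_sub (Nat.mod_lt _ (by positivity)).le, Int.natCast_mod,
    Nat.cast_pow, Nat.cast_two]
  refine Int.ModEq.trans ?_ (eval_mod p K B).symm
  rw [add_assoc]
  conv_rhs => rw [← add_zero (∑ i ∈ range B, p.coeff i * 2 ^ (K * i))]
  refine Int.ModEq.add_left _ ?_
  have e4 := ((Int.mod_modEq _ _).trans e3).symm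
  have e5 := e4.add ((Int.modulus_modEq_zero (n := 2 ^ (K * B))).sub
    (Int.ModEq.refl (((geo K (Nat.log2 B + 1) * c : ℕ) : ℤ) % 2 ^ (K * B))))
  rwa [zero_sub, add_neg_cancel] at e5

end Pool.Agent.MP_b2c033_nt.UP
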