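import Pool.Agent.MP_b2c033_nt.UP.Spec
import Pool.Agent.MP_b2c033_nt.H87.T1
import Pool.Agent.MP_b2c033_nt.H87.T2

/-! Holomorphy from an expansion, and the passage from `f (τ)` to `f (d τ)`. -/

namespace Pool.Agent.MP_b2c033_nt.UP

open H87 Matrix OnePoint
open UpperHalfPlane hiding I
open scoped Real Manifold MatrixGroups ModularForm

noncomputable section

namespace RSc

theorem hol (f : ℍ → ℂ) (c : ℕ → ℂ) (h : ∀ z : ℍ, HasSum (fun n => c n * nome z ^ n) (f z)) :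
    MDifferentiable 𝓘(ℂ) 𝓘(ℂ) f := by
  have hc : Conv (PowerSeries.mk c) fun q => ∑' n, c n * q ^ n := fun q hq => by
    simp only [PowerSeries.coeff_mk]
    refine Summable.hasSum ?_
    by_cases h0 : q = 0
    · exact (hasSum_single 0 fun n hn => by simp [h0, hn]).summable
    · obtain ⟨z, rfl⟩ := T2x.exists_nome h0 (mem_ball_zero_iff.1 hq)
      exact (h z).summable
  rw [mdifferentiable_iff]
  have h1 : DifferentiableOn ℂ
      ((fun q => ∑' n, c n * q ^ n) ∘ fun z : ℂ => Complex.exp (2 * π * Complex.I * z))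
      {z | 0 < z.im} :=
    (T1x.diff hc).comp (by fun_prop) fun z hz => mem_ball_zero_iff.2 (T2x.norm_nome ⟨z, hz⟩)
  refine h1.congr fun z hz => ?_
  rw [Function.comp_apply, ofComplex_apply_of_im_pos hz, ← (h ⟨z, hz⟩).tsum_eq]
  rfl

/-- The diagonal matrix with entries `d` and `1`. -/
def dg (d : ℕ) (hd : 0 < d) : GL (Fin 2) ℝ :=
  .mkOfDetNeZero !![(d : ℝ), 0; 0, 1] (by simp [hd.ne'])

theorem det_dg {d : ℕ} (hd : 0 < d) : (dg d hd).det.val = d := by simp [dg]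

theorem dg_smul {d : ℕ} (hd : 0 < d) (τ : ℍ) : dg d hd • τ = sc d τ := by
  refine UpperHalfPlane.ext ?_
  rw [coe_smul_of_det_pos (by rw [det_dg]; exact_mod_cast hd), coe_sc hd]
  simp [dg, num, denom]

theorem slash_dg (f : ℍ → ℂ) (k : ℤ) {d : ℕ} (hd : 0 < d) :
    (fun τ => f (sc d τ)) = ((d : ℂ) ^ (k - 1))⁻¹ • f ∣[k] dg d hd := by
  funext τ
  have h0 : (0 : ℝ) < d := by exact_mod_cast hd
  have h1 : (d : ℂ) ^ (k - 1) ≠ 0 := zpow_ne_zero _ (by exact_mod_cast hd.ne')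
  have h2 : denom (dg d hd) τ = 1 := by simp [dg, denom]
  rw [Pi.smul_apply, ModularForm.slash_apply, dg_smul, σ, det_dg, if_pos h0, h2, abs_of_pos h0,
    _root_.one_zpow, mul_one, smul_eq_mul, Complex.ofReal_natCast, mul_comm, mul_assoc,
    mul_inv_cancel₀ h1, mul_one]
  rfl

theorem cusp {d : ℕ} (hd : 0 < d) (γ : SL(2, ℤ)) :
    IsCusp ((dg d hd * SpecialLinearGroup.mapGL ℝ γ) • (∞ : OnePoint ℝ)) 𝒮ℒ := by
  rw [isCusp_SL2Z_iff, smul_infty_eq_ite]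
  split_ifs with h
  · exact ⟨∞, rfl⟩
  · refine ⟨((d * γ 0 0 / γ 1 0 : ℚ) : OnePoint ℚ), ?_⟩
    simp [dg, Matrix.mul_apply]

theorem bdd (f : ℍ → ℂ) (k : ℤ) (d : ℕ) (hd : 0 < d)
    (h : ∀ γ : SL(2, ℤ), IsBoundedAtImInfty (f ∣[k] γ)) (γ : SL(2, ℤ)) :
    IsBoundedAtImInfty ((fun τ => f (sc d τ)) ∣[k] γ) := by
  have h1 := (isBoundedAt_iff_forall_SL2Z (f := f) (k := k) (cusp hd γ)).2 (fun g _ => h g) _ rfl
  rw [SlashAction.slash_mul] at h1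
  rw [slash_dg f k hd, ModularForm.SL_smul_slash]
  exact h1.smul _

theorem cj (d : ℕ) (γ : SL(2, ℤ)) (hd : 0 < d) (h : (d : ℤ) ∣ γ 1 0) :
    ∃ δ : SL(2, ℤ), δ 0 0 = γ 0 0 ∧ δ 0 1 = d * γ 0 1 ∧ d * δ 1 0 = γ 1 0 ∧ δ 1 1 = γ 1 1 ∧
      ∀ τ : ℍ, sc d (γ • τ) = δ • sc d τ := by
  obtain ⟨c, hc⟩ := h
  have h1 : γ 0 0 * γ 1 1 - γ 0 1 * γ 1 0 = 1 := by rw [← det_fin_two]; exact γ.det_coe
  obtain ⟨δ, h2, h3, h4, h5⟩ : ∃ δ : SL(2, ℤ), δ 0 0 = γ 0 0 ∧ δ 0 1 = d * γ 0 1 ∧ δ 1 0 = c ∧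
      δ 1 1 = γ 1 1 := ⟨⟨!![γ 0 0, d * γ 0 1; c, γ 1 1], by
    rw [det_fin_two_of]; linear_combination h1 + γ 0 1 * hc⟩, rfl, rfl, rfl, rfl⟩
  refine ⟨δ, h2, h3, by rw [h4, hc], h5, fun τ => UpperHalfPlane.ext ?_⟩
  rw [coe_sc hd, coe_specialLinearGroup_apply, coe_specialLinearGroup_apply, coe_sc hd, hc, h2, h3,
    h4, h5]
  simp only [eq_intCast, Complex.ofReal_intCast, Int.cast_mul, Int.cast_natCast,
    Complex.ofReal_mul, Complex.ofReal_natCast]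
  ring

end RSc

theorem rSc : SSc := ⟨RSc.hol, RSc.bdd, RSc.cj⟩

end

end Pool.Agent.MP_b2c033_nt.UP
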