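import Pool.Agent.MP_b2c033_nt.UP.Spec

/-! The Sturm bound on `Γ₁(N)`, by the norm to level one. -/

namespace Pool.Agent.MP_b2c033_nt.UP

open H87 Filter Asymptotics
open UpperHalfPlane hiding I
open scoped Real Manifold MatrixGroups ModularForm PowerSeries Topology

noncomputable section

namespace RSturmx

theorem nome_eq (z : ℍ) : Function.Periodic.qParam 1 z = nome z := by
  simp [Function.Periodic.qParam, nome]

theorem nome_ne (z : ℍ) : nome z ≠ 0 := Complex.exp_ne_zero _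

theorem nome_tend : Tendsto nome atImInfty (𝓝 0) :=
  (qParam_tendsto_atImInfty (h := 1) one_pos).congr nome_eq

theorem big {f : ℍ → ℂ} {c : ℕ → ℂ} (h : ∀ z : ℍ, HasSum (fun n => c n * nome z ^ n) (f z))
    {B : ℕ} (h0 : ∀ n < B, c n = 0) : f =O[atImInfty] fun z => nome z ^ B := by
  have h1 : IsBoundedAtImInfty fun z => f z / nome z ^ B := by
    refine isBoundedAtImInfty_of_hasSum_qExpansion (h := 1) (c := fun n => c (n + B)) one_pos
      fun z => ?_
    have e := (hasSum_nat_add_iff' B).2 (h z)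
    rw [Finset.sum_eq_zero fun n hn => by rw [h0 n (Finset.mem_range.1 hn), zero_mul],
      sub_zero] at e
    refine (congrArg (fun g => HasSum g (f z / nome z ^ B)) (funext fun n => ?_)).mp
      (e.div_const (nome z ^ B))
    rw [nome_eq, smul_eq_mul, pow_add, ← mul_assoc, mul_div_assoc,
      div_self (pow_ne_zero _ (nome_ne z)), mul_one]
  have h2 := (IsBigO.mul h1 (isBigO_refl (fun z => ‖nome z ^ B‖) atImInfty).of_norm_left)
  refine (h2.congr (fun z => div_mul_cancel₀ _ (pow_ne_zero _ (nome_ne z)))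
    fun z => one_mul _).of_norm_right

theorem pow_le {m n : ℕ} (h : n ≤ m) :
    (fun z => nome z ^ m) =O[atImInfty] fun z => nome z ^ n := by
  refine IsBigO.of_bound 1 (Eventually.of_forall fun z => ?_)
  rw [one_mul, norm_pow, norm_pow]
  refine pow_le_pow_of_le_one (norm_nonneg _) ?_ h
  rw [← nome_eq]
  exact (Function.Periodic.norm_qParam_lt_one one_pos z.im_pos).le

theorem uniq {f : ℍ → ℂ} {c : ℕ → ℂ} (h : ∀ z : ℍ, HasSum (fun n => c n * nome z ^ n) (f z))
    {m : ℕ} (hm : f =O[atImInfty] fun z => nome z ^ m) : ∀ n < m, c n = 0 := by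
  intro n
  induction n using Nat.strong_induction_on with
  | _ n ih =>
    intro hn
    have h1 : ∀ z : ℍ, HasSum (fun j => Function.update c n 0 j * nome z ^ j)
        (f z - c n * nome z ^ n) := fun z => by
      have e := (h z).update n 0
      rw [zero_sub, neg_add_eq_sub] at e
      refine (congrArg (fun g => HasSum g (f z - c n * nome z ^ n)) (funext fun j => ?_)).mp e
      rcases eq_or_ne j n with rfl | hj
      · simp
      · simp [Function.update_of_ne hj]
    have h2 := big h1 (B := n + 1) fun j hj => by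
      rcases eq_or_ne j n with rfl | hj'
      · simp
      · rw [Function.update_of_ne hj']
        exact ih j (by omega) (by omega)
    have h3 := (hm.trans (pow_le (show n + 1 ≤ m from hn))).sub h2
    have h4 := h3.mul (isBigO_refl (fun z => (nome z ^ n)⁻¹) atImInfty)
    have h5 : (fun _ : ℍ => c n) =O[atImInfty] nome :=
      h4.congr (fun z => by have := nome_ne z; field_simp; ring)
        fun z => by have := nome_ne z; field_simp; ring
    exact tendsto_nhds_unique tendsto_const_nhds (h5.trans_tendsto nome_tend)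

theorem level_one {w m : ℕ} (F : ModularForm 𝒮ℒ (w : ℤ))
    (h : (F : ℍ → ℂ) =O[atImInfty] fun z => nome z ^ m) (hw : w < 12 * m) : F = 0 := by
  refine ModularForm.sturm_bound_levelOne_nat ?_
  have h1 := uniq (c := fun n => (qExpansion 1 F).coeff n) (fun z => by
    simpa only [nome_eq] using
      ModularForm.hasSum_qExpansion F one_pos one_mem_strictPeriods_SL z) h
  refine lt_of_lt_of_le ?_ (PowerSeries.nat_le_order _ m h1)
  exact_mod_cast (show w / 12 < m by omega)

variable {H : Subgroup SL(2, ℤ)} {k : ℤ} {f : ℍ → ℂ}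

/-- The conjugate along a coset. -/
def cj (k : ℤ) (f : ℍ → ℂ) (q : SL(2, ℤ) ⧸ H) : ℍ → ℂ := f ∣[k] q.out⁻¹

theorem cj_mk (hf : ∀ γ ∈ H, f ∣[k] γ = f) (g : SL(2, ℤ)) :
    cj k f (g : SL(2, ℤ) ⧸ H) = f ∣[k] g⁻¹ := by
  obtain ⟨h, hh⟩ := QuotientGroup.mk_out_eq_mul H g
  rw [cj, hh, mul_inv_rev, SlashAction.slash_mul, hf _ (H.inv_mem h.2)]

theorem cj_smul (hf : ∀ γ ∈ H, f ∣[k] γ = f) (γ : SL(2, ℤ)) (q : SL(2, ℤ) ⧸ H) :
    cj k f (γ • q) ∣[k] γ = cj k f q := by
  induction q using QuotientGroup.induction_on with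
  | H g =>
    rw [MulAction.Quotient.smul_mk, cj_mk hf, cj_mk hf, smul_eq_mul, mul_inv_rev,
      ← SlashAction.slash_mul, inv_mul_cancel_right]

theorem prod_sl {ι : Type*} [Fintype ι] (F : ι → ℍ → ℂ) (k : ℕ) (γ : SL(2, ℤ)) :
    (∏ i, F i) ∣[((k * Fintype.card ι : ℕ) : ℤ)] γ = ∏ i, F i ∣[(k : ℤ)] γ := by
  funext z
  simp only [ModularForm.SL_slash_apply, Finset.prod_apply, Finset.prod_mul_distrib,
    Finset.prod_const, Finset.card_univ, zpow_neg, zpow_natCast, inv_pow, pow_mul]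

theorem prod_inv [Fintype (SL(2, ℤ) ⧸ H)] {k : ℕ} (hf : ∀ γ ∈ H, f ∣[(k : ℤ)] γ = f)
    (γ : SL(2, ℤ)) :
    (∏ q : SL(2, ℤ) ⧸ H, cj k f q) ∣[((k * Fintype.card (SL(2, ℤ) ⧸ H) : ℕ) : ℤ)] γ =
      ∏ q : SL(2, ℤ) ⧸ H, cj k f q := by
  rw [prod_sl]
  exact (Fintype.prod_equiv (MulAction.toPerm γ) _ _ fun q => (cj_smul hf γ q).symm).symm

theorem card_le (N : ℕ) [NeZero N] :
    Nat.card (SL(2, ℤ) ⧸ CongruenceSubgroup.Gamma1 N) ≤ N ^ 2 := by
  have h := Nat.card_le_card_of_injective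
    (fun q : SL(2, ℤ) ⧸ CongruenceSubgroup.Gamma1 N =>
      (((q.out 0 0 : ℤ) : ZMod N), ((q.out 1 0 : ℤ) : ZMod N))) fun q q' hq => by
    obtain ⟨h1, h2⟩ := Prod.ext_iff.1 hq
    simp only at h1 h2
    rw [← q.out_eq', ← q'.out_eq', QuotientGroup.eq, CongruenceSubgroup.Gamma1_mem]
    generalize q.out = g at h1 h2
    generalize q'.out = g' at h1 h2
    have d1 := congrArg (Int.cast : ℤ → ZMod N) g.det_coe
    have d2 := congrArg (Int.cast : ℤ → ZMod N) g'.det_coe
    rw [Matrix.det_fin_two] at d1 d2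
    push_cast at d1 d2
    simp only [Matrix.SpecialLinearGroup.coe_mul, Matrix.SpecialLinearGroup.coe_inv,
      Matrix.adjugate_fin_two, Matrix.mul_apply, Fin.sum_univ_two, Matrix.of_apply,
      Matrix.cons_val', Matrix.cons_val_zero, Matrix.cons_val_one, Matrix.cons_val_fin_one]
    push_cast
    refine ⟨?_, ?_, ?_⟩
    · rw [← h1, ← h2]; linear_combination d1
    · rw [h1, h2]; linear_combination d2
    · rw [← h1, ← h2]; ring
  rwa [Nat.card_prod, Nat.card_zmod, ← sq] at h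

theorem neg_ne {N : ℕ} (hN : 2 < N) :
    ((1 : SL(2, ℤ)) : SL(2, ℤ) ⧸ CongruenceSubgroup.Gamma1 N) ≠ (-1 : SL(2, ℤ)) := by
  intro h
  rw [QuotientGroup.eq, CongruenceSubgroup.Gamma1_mem] at h
  have h1 : ((2 : ℕ) : ZMod N) = 0 := by
    have := h.1
    simp at this
    push_cast
    linear_combination -this
  exact absurd (Nat.le_of_dvd two_pos ((ZMod.natCast_eq_zero_iff _ _).1 h1)) (by omega)

theorem neg_big (k : ℤ) (f : ℍ → ℂ) : (f ∣[k] (-1 : SL(2, ℤ))⁻¹) =O[atImInfty] f := by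
  refine IsBigO.of_bound 1 (Eventually.of_forall fun z => ?_)
  rw [inv_neg_one, ModularForm.SL_slash_apply, ModularGroup.SL_neg_smul, one_smul]
  simp [denom]

end RSturmx

open RSturmx in
theorem rSturm : SSturm := by
  intro N k B f a hN hf h0 hk
  classical
  have : NeZero N := ⟨by omega⟩
  have : Fintype (SL(2, ℤ) ⧸ CongruenceSubgroup.Gamma1 N) := Fintype.ofFinite _
  have hb : ∀ q : SL(2, ℤ) ⧸ CongruenceSubgroup.Gamma1 N,
      cj k f q =O[atImInfty] (1 : ℍ → ℂ) := fun q =>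
    (show cj k f q =O[atImInfty] (1 : ℍ → ℝ) from hf.bdd _).trans
      (IsBigO.of_bound 1 (Eventually.of_forall fun z => by simp))
  have hh : ∀ q : SL(2, ℤ) ⧸ CongruenceSubgroup.Gamma1 N,
      MDifferentiable 𝓘(ℂ) 𝓘(ℂ) (cj k f q) := fun q => hf.hol.slash _ _
  have hp : ∀ s : Finset (SL(2, ℤ) ⧸ CongruenceSubgroup.Gamma1 N),
      (∏ q ∈ s, cj k f q) =O[atImInfty] (1 : ℍ → ℂ) := fun s => by
    have := IsBigO.finsetProd (s := s) fun q _ => hb q
    exact this.congr (fun z => (Finset.prod_apply _ _ _).symm) fun z => by simp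
  let F : ModularForm 𝒮ℒ
      ((k * Fintype.card (SL(2, ℤ) ⧸ CongruenceSubgroup.Gamma1 N) : ℕ) : ℤ) :=
    { toFun := ∏ q : SL(2, ℤ) ⧸ CongruenceSubgroup.Gamma1 N, cj k f q
      slash_action_eq' := fun _ ⟨γ, hγ⟩ => hγ ▸ prod_inv hf.inv γ
      holo' := .prod fun q _ => hh q
      bdd_at_cusps' := fun {c} hc => by
        rw [OnePoint.isBoundedAt_iff_forall_SL2Z hc]
        intro γ _
        rw [prod_inv hf.inv γ]
        exact (hp _).trans (IsBigO.of_bound 1 (Eventually.of_forall fun z => by simp)) }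
  have h1 : f =O[atImInfty] fun z => nome z ^ B :=
    big hf.exp fun n hn => by rw [h0 n hn, Int.cast_zero]
  have h2 : (F : ℍ → ℂ) =O[atImInfty] fun z => nome z ^ (2 * B) := by
    change (∏ q : SL(2, ℤ) ⧸ CongruenceSubgroup.Gamma1 N, cj k f q) =O[atImInfty] _
    rw [← Finset.mul_prod_erase _ _ (Finset.mem_univ ((1 : SL(2, ℤ)) : _ ⧸ _)),
      ← Finset.mul_prod_erase _ _ (Finset.mem_erase.2 ⟨(neg_ne hN).symm, Finset.mem_univ _⟩),
      cj_mk hf.inv, cj_mk hf.inv, inv_one, SlashAction.slash_one]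
    exact (h1.mul (((neg_big k f).trans h1).mul (hp _))).congr (fun z => rfl) fun z => by
      rw [Pi.one_apply]; ring
  have h3 : F = 0 := level_one F h2 (by
    have := card_le N
    rw [Nat.card_eq_fintype_card] at this
    have := Nat.mul_le_mul_left k this
    omega)
  have h4 : (∏ q : SL(2, ℤ) ⧸ CongruenceSubgroup.Gamma1 N, cj k f q) = 0 :=
    congrArg (fun G : ModularForm 𝒮ℒ _ => (G : ℍ → ℂ)) h3
  obtain ⟨q, -, hq⟩ := (prod_eq_zero_iff fun q _ => hh q).1 h4
  have h5 : f = 0 := by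
    have := congrArg (fun g : ℍ → ℂ => g ∣[(k : ℤ)] q.out) hq
    simpa only [cj, ← SlashAction.slash_mul, inv_mul_cancel, SlashAction.slash_one,
      SlashAction.zero_slash] using this
  ext n
  have h6 := uniq hf.exp (m := n + 1) (by rw [h5]; exact isBigO_zero _ _) n (Nat.lt_succ_self n)
  simpa using h6

end

end Pool.Agent.MP_b2c033_nt.UP
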