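import Pool.Agent.MP_b2c033_nt.UP.Spec
import Pool.Agent.MP_b2c033_nt.H80.QExp

/-! The quotient of two forms of the same weight, the second without zeros, is a regular
function. -/

namespace Pool.Agent.MP_b2c033_nt.UP

open H87 Filter Function Asymptotics
open UpperHalfPlane hiding I
open scoped Real Manifold MatrixGroups ModularForm PowerSeries LaurentSeries Topology

namespace RUnit

/-- a periodic bounded function without zeros decays at most exponentially -/
theorem low {g : ℍ → ℂ} {h : ℝ} (hh : 0 < h) (hp : Periodic (g ∘ ofComplex) h)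
    (hm : MDifferentiable 𝓘(ℂ) 𝓘(ℂ) g) (hb : IsBoundedAtImInfty g) (h0 : ∀ z, g z ≠ 0) :
    ∃ κ : ℝ, (fun z => (g z)⁻¹) =O[atImInfty] fun z => Real.exp (κ * z.im) := by
  have ha := analyticAt_cuspFunction_zero hh hp hm hb
  have ht := qParam_tendsto_atImInfty hh
  have he : ∀ τ : ℍ, cuspFunction h g (Periodic.qParam h τ) = g τ := fun τ =>
    eq_cuspFunction τ hh.ne' hp
  obtain ⟨n, G, hG, hG0, hE⟩ := ha.exists_eventuallyEq_pow_smul_nonzero_iff.2 fun hz => by
    obtain ⟨τ, hτ⟩ := (ht.eventually hz).exists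
    exact h0 τ (he τ ▸ hτ)
  refine ⟨2 * π * n / h, ?_⟩
  have h2 := ((hG.continuousAt.tendsto.comp ht).inv₀ hG0).isBigO_one ℝ
  have h3 : (fun τ : ℍ => (Periodic.qParam h τ ^ n)⁻¹) =O[atImInfty]
      fun z => Real.exp (2 * π * n / h * z.im) := by
    refine IsBigO.of_norm_le fun τ => le_of_eq ?_
    rw [norm_inv, norm_pow, Periodic.norm_qParam, ← Real.exp_nat_mul, ← Real.exp_neg, coe_im]
    congr 1
    ring
  refine (h3.mul h2).congr' ?_ (Eventually.of_forall fun z => mul_one _)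
  filter_upwards [ht.eventually hE] with τ hτ
  rw [← he τ, hτ, sub_zero, smul_eq_mul, mul_inv]
  rfl

theorem per {N k : ℕ} {g : ℍ → ℂ} (hg : ∀ γ ∈ CongruenceSubgroup.Gamma1 N, g ∣[(k : ℤ)] γ = g)
    (γ : SL(2, ℤ)) : Periodic ((g ∣[(k : ℤ)] γ) ∘ ofComplex) ((N : ℝ) : ℂ) := by
  have h1 : γ * ModularGroup.T ^ (N : ℤ) * γ⁻¹ ∈ CongruenceSubgroup.Gamma1 N := by
    have h2 := (CongruenceSubgroup.Gamma_normal N).conj_mem _
      (CongruenceSubgroup.ModularGroup_T_pow_mem_Gamma N N dvd_rfl) γ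
    rw [CongruenceSubgroup.Gamma_mem] at h2
    rw [CongruenceSubgroup.Gamma1_mem]
    exact ⟨h2.1, h2.2.2.2, h2.2.2.1⟩
  have h3 : (g ∣[(k : ℤ)] γ) ∣[(k : ℤ)] (ModularGroup.T ^ (N : ℤ)) = g ∣[(k : ℤ)] γ := by
    rw [← SlashAction.slash_mul, ← inv_mul_cancel_right (γ * _) γ, SlashAction.slash_mul, hg _ h1]
  generalize g ∣[(k : ℤ)] γ = F at h3
  intro w
  rcases lt_or_ge 0 w.im with hw | hw
  · have hw' : 0 < (w + ((N : ℝ) : ℂ)).im := by simpa using hw
    have h4 := congrFun h3 ⟨w, hw⟩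
    rw [ModularForm.SL_slash_apply, ModularGroup.denom_apply] at h4
    simp only [comp_apply, ofComplex_apply_of_im_pos hw, ofComplex_apply_of_im_pos hw']
    rw [← h4]
    have h5 : ModularGroup.T ^ (N : ℤ) • (⟨w, hw⟩ : ℍ) = ⟨w + ((N : ℝ) : ℂ), hw'⟩ :=
      UpperHalfPlane.ext (by rw [ModularGroup.coe_T_zpow_smul_eq]; simp)
    rw [h5, ModularGroup.coe_T_zpow]
    simp
  · simp only [comp_apply]
    rw [ofComplex_apply_eq_of_im_nonpos (by simpa using hw) hw]

theorem quo (k : ℤ) (f g : ℍ → ℂ) (γ : SL(2, ℤ)) (z : ℍ) :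
    f (γ • z) / g (γ • z) = (f ∣[k] γ) z / (g ∣[k] γ) z := by
  rw [ModularForm.SL_slash_apply, ModularForm.SL_slash_apply,
    mul_div_mul_right _ _ (zpow_ne_zero _ (denom_ne_zero _ _))]

theorem nice {N k : ℕ} {f : ℍ → ℂ} {a : ℤ⟦X⟧} (h : Fm N k f a) :
    H80.Nice (f ∘ ofComplex) (a.map (Int.castRingHom ℚ)) := by
  refine ⟨mdifferentiable_iff.1 h.hol, fun z hz => ?_⟩
  have h1 := h.exp ⟨z, hz⟩
  simp only [comp_apply, ofComplex_apply_of_im_pos hz]
  refine h1.congr_fun fun n => ?_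
  rw [PowerSeries.coeff_map]
  simp [H80.q, nome]

theorem shift {g : ℂ → ℂ} {m : ℕ} {d : ℚ⟦X⟧} (h : H80.Nice g (PowerSeries.X ^ m * d)) :
    H80.Nice (fun z => g z * H80.q z ^ (-(m : ℤ))) d := by
  refine ⟨h.1.mul (H80.q_diff.zpow (Or.inl H80.q_ne)).differentiableOn, fun z hz => ?_⟩
  have h1 := (hasSum_nat_add_iff' m).2 (h.2 z hz)
  rw [Finset.sum_eq_zero fun i hi => by
    rw [PowerSeries.coeff_X_pow_mul', if_neg (by simpa using hi)]; simp, sub_zero] at h1
  refine (h1.mul_right (H80.q z ^ (-(m : ℤ)))).congr_fun fun n => ?_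
  rw [PowerSeries.coeff_X_pow_mul, pow_add, zpow_neg, zpow_natCast, mul_assoc, mul_assoc,
    mul_inv_cancel₀ (pow_ne_zero _ (H80.q_ne z)), mul_one]

theorem lau {u : ℂ → ℂ} {e : ℤ} {F : ℚ⟦X⟧} (h : H80.Nice (fun z => u z * H80.q z ^ (-e)) F)
    {z : ℂ} (hz : 0 < z.im) : HasSum (fun n : ℤ =>
      (((HahnSeries.single e 1 * iq F).coeff n : ℚ) : ℂ) * H80.q z ^ n) (u z) := by
  have hi : Injective fun m : ℕ => (m : ℤ) + e := fun a b h => by simpa using h
  have h1 := (h.2 z hz).mul_right (H80.q z ^ e)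
  rw [mul_assoc, ← zpow_add₀ (H80.q_ne z), neg_add_cancel, zpow_zero, mul_one] at h1
  refine (hi.hasSum_iff fun n hn => ?_).1 (h1.congr_fun fun m => ?_)
  · have hn' : n - e < 0 := by
      by_contra hc
      exact hn ⟨(n - e).toNat, by simp only; omega⟩
    rw [← sub_add_cancel n e, HahnSeries.coeff_single_mul_add, iq, PowerSeries.coeff_coe,
      if_pos hn']
    simp
  · simp only [Function.comp]
    rw [HahnSeries.coeff_single_mul_add, iq, LaurentSeries.coeff_coe_powerSeries, one_mul,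
      zpow_add₀ (H80.q_ne z), zpow_natCast, mul_assoc]

end RUnit

open RUnit

theorem rUnit : SUnit := by
  intro N k f g a b hN hf hg h0
  have hb : b ≠ 0 := by
    rintro rfl
    exact h0 UpperHalfPlane.I ((hg.exp _).unique (by simp))
  refine ⟨hb, hf.hol.div hg.hol h0, fun γ hγ z => ?_, fun γ => ?_, fun z => ?_⟩
  · simp only [quo k f g γ z, hf.inv γ hγ, hg.inv γ hγ]
  · obtain ⟨κ, hκ⟩ := low (Nat.cast_pos.2 hN) (per hg.inv γ) (hg.hol.slash k γ) (hg.bdd γ)
      fun z => by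
        rw [ModularForm.SL_slash_apply]
        exact mul_ne_zero (h0 _) (zpow_ne_zero _ (denom_ne_zero _ _))
    exact ⟨κ, (IsBigO.mul (hf.bdd γ) hκ).congr (fun z => by rw [quo k f g γ z, div_eq_mul_inv])
      fun z => one_mul _⟩
  · have hB : b.map (Int.castRingHom ℚ) ≠ 0 := fun h =>
      hb (PowerSeries.map_injective _ (RingHom.injective_int _) (h.trans (map_zero _).symm))
    have h1 := nice hg
    have h2 : io b = iq (b.map (Int.castRingHom ℚ)) := rfl
    generalize b.map (Int.castRingHom ℚ) = B at hB h1 h2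
    have hd : B.divXPowOrder.constantCoeff ≠ 0 := fun h =>
      hB (PowerSeries.constantCoeff_divXPowOrder_eq_zero_iff.1 h)
    have hx := PowerSeries.X_pow_order_mul_divXPowOrder (f := B)
    generalize B.divXPowOrder = d at hd hx
    generalize B.order.toNat = m at hx
    subst hx
    have h3 := (nice hf).mul ((shift h1).inv
      (fun w _ => mul_ne_zero (h0 _) (zpow_ne_zero _ (H80.q_ne w))) (by simpa using hd))
    have h4 := lau (u := fun w => f (ofComplex w) / g (ofComplex w)) (e := -(m : ℤ))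
      (h3.congr fun w _ => by
        simp only [comp_apply, neg_neg, zpow_neg, mul_inv, inv_inv, div_eq_mul_inv, mul_assoc])
      z.im_pos
    have h5 : io a / io b = HahnSeries.single (-(m : ℤ)) 1 *
        iq (a.map (Int.castRingHom ℚ) * d⁻¹) := by
      have h6 : iq d⁻¹ * iq d = 1 := by
        rw [← map_mul, PowerSeries.inv_mul_cancel d hd, map_one]
      have h7 : (HahnSeries.single (-(m : ℤ)) 1 : L) * iq (PowerSeries.X ^ m) = 1 := by
        rw [iq, HahnSeries.ofPowerSeries_X_pow, HahnSeries.single_mul_single, neg_add_cancel,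
          mul_one]
        rfl
      rw [h2, div_eq_mul_inv, map_mul, map_mul, mul_inv, inv_eq_of_mul_eq_one_left h6,
        inv_eq_of_mul_eq_one_left h7, mul_left_comm]
      rfl
    rw [h5]
    simpa only [ofComplex_apply, H80.q] using h4

end Pool.Agent.MP_b2c033_nt.UP
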