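import Pool.Agent.MP_b2c033_nt.UP.Chk
import Pool.Agent.MP_b2c033_nt.UP.RKr
import Pool.Agent.MP_b2c033_nt.UP.RLam
import Pool.Agent.MP_b2c033_nt.UP.RResp

/-!
Soundness of the numerical part of the checker.
-/

namespace Pool.Agent.MP_b2c033_nt.UP

open scoped PowerSeries

/-- The modular arithmetic. -/
def arK (K B : ℕ) : Ar := ⟨true, K, B, 2 ^ (K * B), 2 ^ (K * B) - 1⟩

theorem shl_one (n : ℕ) : Nat.shiftLeft 1 n = 2 ^ n := by
  show 1 <<< n = _
  rw [Nat.shiftLeft_eq, one_mul]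

theorem land_mask (x n : ℕ) : Nat.land x (2 ^ n - 1) = x % 2 ^ n :=
  Nat.and_two_pow_sub_one_eq_mod x n

theorem arM_eq (K B : ℕ) (k : Ar → ℕ) : arM K B k = k (arK K B) := by
  rw [arM, frc_eq, frc_eq, shl_one]; rfl

/-- The homogeneous form and the power of `y`. -/
def hiS {R : Type} [CommRing R] (x y : R) (l : List ℤ) : R × R :=
  l.foldr (fun c p => (p.1 * x + c * p.2, p.2 * y)) (0, 1)

/-- The bihomogeneous form and the power of `y'`. -/
def hoS {R : Type} [CommRing R] (x y x' y' : R) (l : List (List ℤ)) : R × R :=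
  l.foldr (fun c p => (p.1 * x' + (hiS x y c).1 * p.2, p.2 * y')) (0, 1)

namespace Snd

variable {K B : ℕ} {a b a' b' : ℤ⟦X⟧} {x y s t x' y' s' t' : ℕ}

theorem red_eq (K B x : ℕ) : (arK K B).red x = x % 2 ^ (K * B) := land_mask _ _

theorem red (h : Rep K B a x s) : Rep K B a ((arK K B).red x) ((arE B).red s) := by
  rw [red_eq]; exact rKr.red h

theorem mul (h : Rep K B a x s) (h' : Rep K B b y t) :
    Rep K B (a * b) ((arK K B).mul x y) ((arE B).mul s t) := red (rKr.mul h h')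

theorem neg (h : Rep K B a x s) : Rep K B (-a) ((arK K B).neg x) ((arE B).neg s) := by
  have : (arK K B).neg x = 2 ^ (K * B) - x % 2 ^ (K * B) := by
    rw [← land_mask]; rfl
  rw [this]; exact rKr.neg h

theorem smul (c : ℤ) (h : Rep K B a x s) :
    Rep K B (c * a) ((arK K B).smul c x) ((arE B).smul c s) := by
  cases c with
  | ofNat n => exact rKr.mul (rKr.nat K B n) h
  | negSucc n =>
    have := neg (rKr.mul (rKr.nat K B (n + 1)) h)
    rw [Int.cast_negSucc, neg_mul]
    exact this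

theorem zero (K B : ℕ) : Rep K B 0 0 0 := by simpa using rKr.nat K B 0

theorem one (K B : ℕ) : Rep K B 1 1 1 := by simpa using rKr.nat K B 1

theorem rs {f : Ar → ℕ} (h : ∀ K, Rep K B a (f (arK K B)) (f (arE B))) (K : ℕ) :
    Rep K B a ((arK K B).rs f) ((arE B).rs f) := by
  have e : (arK K B).rs f = resp (Nat.log2 (f (arE B)) + 1) K B
      (f (arK (Nat.log2 (f (arE B)) + 1 + 1) B)) := by
    simp only [Ar.rs, frc_eq, arM_eq]; rfl
  rw [e]
  exact rResp _ _ _ _ _ _ (h _) Nat.lt_log2_self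

theorem geo (B t : ℕ) : ∃ g, ∀ K, Rep K B g (geo K t) (geo 0 t) := by
  induction t with
  | zero => exact ⟨1, fun K => one K B⟩
  | succ t ih =>
    obtain ⟨g, h⟩ := ih
    refine ⟨g + g * PowerSeries.X ^ 2 ^ t, fun K => ?_⟩
    have e : ∀ K, UP.geo K (t + 1) = UP.geo K t + UP.geo K t * 2 ^ (K * 2 ^ t) := fun K => by
      rw [← Nat.shiftLeft_eq]
      exact frc_eq (UP.geo K t) fun x => Nat.add x (Nat.shiftLeft x (Nat.mul K (Nat.pow 2 t)))
    rw [e, e, zero_mul, pow_zero]
    refine rKr.add (h K) (rKr.mul (h K) ⟨Polynomial.X ^ 2 ^ t, Polynomial.X ^ 2 ^ t, fun n _ => ?_,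
      fun n => ?_, by simp, by simp [pow_mul]⟩)
    · rw [PowerSeries.coeff_X_pow, Polynomial.coeff_X_pow]
    · simp only [Polynomial.coeff_X_pow]; split_ifs <;> simp

theorem rd {f : Ar → ℕ} (h : ∀ K, Rep K B a (f (arK K B)) (f (arE B))) (K : ℕ) :
    Rep K B a ((arK K B).rd f) ((arE B).rd f) := by
  obtain ⟨g, hg⟩ := geo B (Nat.log2 B + 1)
  have d : ∀ K, Rep K B (g * g) (arK K B).dn (arE B).dn := fun K => by
    simp only [Ar.dn, frc_eq]; exact mul (hg K) (hg K)
  have := rKr.add (rs (f := fun S => Nat.add (f S) S.dn) (fun K => rKr.add (h K) (d K)) K)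
    (neg (d K))
  rwa [add_neg_cancel_right] at this

theorem lam (c : ℕ → ℕ) {d e : ℕ} (J K B : ℕ) (h : 0 < e) (h' : e ≤ d) :
    Rep K B (lamS c d e) ((arK K B).lam c d e J) ((arE B).lam c d e J) := by
  simp only [Ar.lam, frc_eq]; exact rLam c d e K B J h h'

theorem pN (c : ℕ → ℕ) {d e : ℕ} (J K B : ℕ) (h : 0 < e) (h' : e < d) :
    Rep K B (pS c d e) ((arK K B).pN c d e J) ((arE B).pN c d e J) :=
  rKr.add (lam c J K B h h'.le) (lam c J K B (by omega) (by omega))

theorem pM (f : Bool) {d e : ℕ} (J K B : ℕ) (h : 0 < e) (h' : e < d) :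
    Rep K B (pS (cm f) d e) ((arK K B).pM f d e J) ((arE B).pM f d e J) := by
  cases f
  · have : pS (cm false) d e = 0 := by
      ext n; simp [pS, lamS, cm]
    rw [this]; exact zero K B
  · exact pN _ J K B h h'

theorem bk {N : ℕ} (p : Bk) (h : p.ok N = true) (K B : ℕ) :
    Rep K B p.ser ((arK K B).bk p) ((arE B).bk p) := by
  cases p with
  | D d a e b f J r =>
    obtain ⟨h1, h2, h3, h4, -⟩ := of_decide_eq_true h
    have : ∀ K, Rep K B (dS d a e b f) ((arK K B).dv d a e b f J) ((arE B).dv d a e b f J) :=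
      fun K => by
        rw [dS, sub_eq_add_neg]
        exact red (rKr.add (rKr.add (pN _ J K B h1 h2) (pM f J K B h3 h4))
          (neg (rKr.add (pM e J K B h1 h2) (pN _ J K B h3 h4))))
    rcases r with _ | _ | r
    · exact this K
    · exact rs (f := fun S => S.dv d a e b f J) this K
    · exact rd (f := fun S => S.dv d a e b f J) this K
  | E d J =>
    obtain ⟨h1, -⟩ := of_decide_eq_true h
    have u := rKr.add (one K B) (rKr.mul (rKr.nat K B 240)
      (rd (f := fun S => S.lam (fun k => k ^ 3) d d J) (fun K => lam _ J K B h1 le_rfl) K))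
    have v := rKr.add (one K B) (neg (rKr.mul (rKr.nat K B 504)
      (rd (f := fun S => S.lam (fun k => k ^ 5) d d J) (fun K => lam _ J K B h1 le_rfl) K)))
    have w := red (rKr.add (mul (mul u u) u) (neg (mul v v)))
    simp only [Ar.bk, frc_eq]
    refine (?_ : _ = Bk.ser (.E d J)) ▸ w
    simp only [Bk.ser, eS]
    push_cast
    ring

theorem pw (h : Rep K B a x s) (n : ℕ) :
    Rep K B (a ^ n) ((arK K B).pw x n) ((arE B).pw s n) := by
  induction n with
  | zero => rw [pow_zero]; exact one K B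
  | succ n ih => rw [pow_succ]; exact mul ih h

theorem mon {N : ℕ} (l : List (Bk × ℕ)) (h : ∀ p ∈ l, p.1.ok N = true) (K B : ℕ) :
    Rep K B (serL l) ((arK K B).mon l) ((arE B).mon l) := by
  induction l with
  | nil => exact one K B
  | cons p l ih =>
    have := mul (pw (bk p.1 (h p (by simp)) K B) p.2) (ih fun q hq => h q (by simp [hq]))
    simp only [Ar.mon, frc_eq] at this ⊢
    simpa only [serL, List.map_cons, List.prod_cons] using this

theorem hi (h : Rep K B a x s) (h' : Rep K B b y t) (l : List ℤ) : ∃ u p u' p',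
    (∀ k, (arK K B).hi x y l k = k u p) ∧ (∀ k, (arE B).hi s t l k = k u' p') ∧
      Rep K B (hiS a b l).1 u u' ∧ Rep K B (hiS a b l).2 p p' := by
  induction l with
  | nil => exact ⟨0, 1, 0, 1, fun _ => rfl, fun _ => rfl, zero K B, one K B⟩
  | cons c l ih =>
    obtain ⟨u, p, u', p', e, e', r, r'⟩ := ih
    refine ⟨_, _, _, _, fun k => ?_, fun k => ?_, rKr.add (mul r h) (smul c r'), mul r' h'⟩
    · exact (e _).trans (by rw [frc_eq, frc_eq]; rfl)
    · exact (e' _).trans (by rw [frc_eq, frc_eq]; rfl)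

theorem ho (h : Rep K B a x s) (h' : Rep K B b y t) (g : Rep K B a' x' s')
    (g' : Rep K B b' y' t') (l : List (List ℤ)) : ∃ u p u' p',
    (∀ k, (arK K B).ho x y x' y' l k = k u p) ∧ (∀ k, (arE B).ho s t s' t' l k = k u' p') ∧
      Rep K B (hoS a b a' b' l).1 u u' ∧ Rep K B (hoS a b a' b' l).2 p p' := by
  induction l with
  | nil => exact ⟨0, 1, 0, 1, fun _ => rfl, fun _ => rfl, zero K B, one K B⟩
  | cons c l ih =>
    obtain ⟨u, p, u', p', e, e', r, r'⟩ := ih
    obtain ⟨v, q, v', q', f, f', w, -⟩ := hi h h' c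
    refine ⟨_, _, _, _, fun k => ?_, fun k => ?_, rKr.add (mul r g) (mul w r'), mul r' g'⟩
    · exact (e _).trans (by rw [frc_eq, frc_eq, f]; rfl)
    · exact (e' _).trans (by rw [frc_eq, frc_eq, f']; rfl)

end Snd

theorem chkN_sound {N : ℕ} {A M A' M' : List (Bk × ℕ)} {c : List (List ℤ)} {B B' : ℕ}
    (hok : ∀ p ∈ A ++ M ++ A' ++ M', p.1.ok N = true) (hB : B' ≤ B)
    (h : chkN A M A' M' c B B' = 1) :
    (∀ n < B', PowerSeries.coeff n (serL M) = 0) ∧ (∃ n < B', PowerSeries.coeff n (serL A) ≠ 0) ∧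
      ∀ n < B, PowerSeries.coeff n (hoS (serL A) (serL M) (serL A') (serL M') c).1 = 0 := by
  simp only [chkN, frc_eq, arM_eq, shl_one] at h
  generalize hK : Nat.log2 _ + 1 = K at h
  have m : ∀ l : List (Bk × ℕ), (∀ p ∈ l, p ∈ A ++ M ++ A' ++ M') →
      Rep K B (serL l) ((arK K B).rd fun S => S.mon l) ((arE B).rd fun S => S.mon l) := fun l hl =>
    Snd.rd (f := fun S => S.mon l) (fun K => Snd.mon l (fun p hp => hok p (hl p hp)) K B) K
  have mA := m A fun p hp => by simp [hp]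
  have mM := m M fun p hp => by simp [hp]
  obtain ⟨u, p, u', p', e, e', r, -⟩ := Snd.ho mA mM (m A' fun p hp => by simp [hp])
    (m M' fun p hp => by simp [hp]) c
  rw [e'] at hK
  rw [e, Snd.red_eq] at h
  have hlt : ((arE B).rd fun S => S.mon M) + u' < 2 ^ K := hK ▸ Nat.lt_log2_self
  have l : ∀ z, Nat.land z (Nat.sub (2 ^ (K * B')) 1) = z % 2 ^ (K * B') := fun z => land_mask z _
  rw [l, l] at h
  have h2 : ∀ z : Bool, bn z = 1 → z = true := fun z => by cases z <;> simp [bn]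
  have h3 := h2 _ h
  simp only [Bool.and_eq_true, Bool.not_eq_true', Nat.beq_eq, ← Bool.not_eq_true] at h3
  exact ⟨rKr.zero (rKr.mono hB mM) (by omega) h3.1.1, rKr.ne (rKr.mono hB mA) h3.1.2,
    rKr.zero r (by omega) h3.2⟩

end Pool.Agent.MP_b2c033_nt.UP
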