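import Pool.Agent.MP_b2c033_nt.UP.Snd1
import Pool.Agent.MP_b2c033_nt.UP.RInj
import Pool.Agent.MP_b2c033_nt.UP.RMod
import Pool.Agent.MP_b2c033_nt.UP.RExp
import Pool.Agent.MP_b2c033_nt.UP.RSc
import Pool.Agent.MP_b2c033_nt.UP.RBd
import Pool.Agent.MP_b2c033_nt.UP.RDe
import Pool.Agent.MP_b2c033_nt.UP.RBlk
import Pool.Agent.MP_b2c033_nt.UP.RDel
import Pool.Agent.MP_b2c033_nt.UP.RCl
import Pool.Agent.MP_b2c033_nt.UP.RSturm
import Pool.Agent.MP_b2c033_nt.UP.RUnit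
import Pool.Agent.MP_b2c033_nt.UP.RFld
import Pool.Agent.MP_b2c033_nt.U.Spec

/-!
Soundness of the checker.
-/

namespace Pool.Agent.MP_b2c033_nt.UP

open H87 Polynomial
open UpperHalfPlane hiding I
open scoped PowerSeries

/-- The value of a polynomial given by its integer coefficients. -/
def pv {R : Type} [CommRing R] (l : List ℤ) (x : R) : R := l.foldr (fun (c : ℤ) h => h * x + c) 0

/-- The same in two variables. -/
def pv2 {R : Type} [CommRing R] (l : List (List ℤ)) (x y : R) : R :=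
  l.foldr (fun c h => h * y + pv c x) 0

namespace Snd

variable {N : ℕ}

/-- Expansions of forms. -/
def IsF (N k : ℕ) (a : ℤ⟦X⟧) : Prop := ∃ f, Fm N k f a

theorem IsF.add {k a b} (h : IsF N k a) (h' : IsF N k b) : IsF N k (a + b) :=
  let ⟨_, u⟩ := h; let ⟨_, v⟩ := h'; ⟨_, rCl.add u v⟩

theorem IsF.mul {k l m a b} (h : IsF N k a) (h' : IsF N l b) (e : m = k + l) :
    IsF N m (a * b) :=
  let ⟨_, u⟩ := h; let ⟨_, v⟩ := h'; e ▸ ⟨_, rCl.mul u v⟩

theorem fone (N : ℕ) : Fm N 0 (fun _ => 1) 1 := by simpa using rCl.cst N 1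

theorem fbk (p : Bk) (h : p.ok N = true) : ∃ f, Fm N p.wt f p.ser ∧ ∀ z, f z ≠ 0 := by
  cases p with
  | D d a e b f J r =>
    obtain ⟨h1, h2, h3, h4, h5, h6, h7⟩ := of_decide_eq_true h
    exact ⟨_, rBlk rInj rMod rSc (rBd rMod rExp rSc) (rDe rExp) N d a e b f h1 h2 h3 h4 h5 h6 h7⟩
  | E d J =>
    obtain ⟨h1, h2⟩ := of_decide_eq_true h
    exact rDel rSc rCl N d h1 h2

theorem fpw {k f a} (h : Fm N k f a) (n : ℕ) : Fm N (k * n) (fun z => f z ^ n) (a ^ n) := by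
  induction n with
  | zero => simpa using fone N
  | succ n ih => simpa only [pow_succ, Nat.mul_succ] using rCl.mul ih h

theorem fmon (l : List (Bk × ℕ)) (h : ∀ p ∈ l, p.1.ok N = true) :
    ∃ f, Fm N (wtL l) f (serL l) ∧ ∀ z, f z ≠ 0 := by
  induction l with
  | nil => exact ⟨_, fone N, fun _ => one_ne_zero⟩
  | cons p l ih =>
    obtain ⟨f, u, v⟩ := fbk p.1 (h p (by simp))
    obtain ⟨g, u', v'⟩ := ih fun q hq => h q (by simp [hq])
    exact ⟨_, rCl.mul (fpw u p.2) u', fun z => mul_ne_zero (pow_ne_zero _ (v z)) (v' z)⟩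

theorem fhi0 {k a b} (h : IsF N k a) (h' : IsF N k b) (l : List ℤ) :
    IsF N (l.length * k) ((hiS a b l).1 * a) ∧ IsF N (l.length * k) (hiS a b l).2 := by
  induction l with
  | nil => exact ⟨by simpa [hiS] using ⟨_, rCl.zero N 0⟩, by simpa [hiS] using ⟨_, fone N⟩⟩
  | cons c l ih =>
    have e : (c :: l).length * k = l.length * k + k := by rw [List.length_cons]; ring
    exact ⟨(ih.1.add (IsF.mul ⟨_, rCl.cst N c⟩ ih.2 (zero_add _).symm)).mul h e, ih.2.mul h' e⟩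

theorem fhi {k n a b} (h : IsF N k a) (h' : IsF N k b) (l : List ℤ) (e : l.length = n + 1) :
    IsF N (n * k) (hiS a b l).1 := by
  cases l with
  | nil => simp at e
  | cons c l =>
    obtain rfl : l.length = n := by simpa using e
    have ih := fhi0 h h' l
    exact ih.1.add (IsF.mul ⟨_, rCl.cst N c⟩ ih.2 (zero_add _).symm)

theorem fho0 {k k' n a b a' b'} (h : IsF N k a) (h' : IsF N k b) (g : IsF N k' a')
    (g' : IsF N k' b') (l : List (List ℤ)) (e : ∀ c ∈ l, c.length = n + 1) :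
    IsF N (n * k + l.length * k') ((hoS a b a' b' l).1 * a') ∧
      IsF N (l.length * k') (hoS a b a' b' l).2 := by
  induction l with
  | nil => exact ⟨by simpa [hoS] using ⟨_, rCl.zero N _⟩, by simpa [hoS] using ⟨_, fone N⟩⟩
  | cons c l ih =>
    have ih := ih fun q hq => e q (by simp [hq])
    exact ⟨(ih.1.add ((fhi h h' c (e c (by simp))).mul ih.2 rfl)).mul g
      (by rw [List.length_cons]; ring), ih.2.mul g' (by rw [List.length_cons]; ring)⟩

theorem fho {k k' n a b a' b'} (h : IsF N k a) (h' : IsF N k b) (g : IsF N k' a')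
    (g' : IsF N k' b') (l : List (List ℤ)) (e : ∀ c ∈ l, c.length = n + 1) (ne : l ≠ []) :
    IsF N (n * k + (l.length - 1) * k') (hoS a b a' b' l).1 := by
  cases l with
  | nil => exact absurd rfl ne
  | cons c l =>
    have ih := fho0 h h' g g' l fun q hq => e q (by simp [hq])
    exact ih.1.add ((fhi h h' c (e c (by simp))).mul ih.2 rfl)

theorem lhi {R S : Type} [CommRing R] [Field S] (φ : R →+* S) (a b : R) (hb : φ b ≠ 0)
    (l : List ℤ) : φ (hiS a b l).1 * φ b = φ b ^ l.length * pv l (φ a / φ b) ∧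
      φ (hiS a b l).2 = φ b ^ l.length := by
  induction l with
  | nil => simp [hiS, pv]
  | cons c l ih =>
    obtain ⟨u, v⟩ := ih
    have e1 : hiS a b (c :: l) = ((hiS a b l).1 * a + c * (hiS a b l).2, (hiS a b l).2 * b) := rfl
    have e2 : pv (c :: l) (φ a / φ b) = pv l (φ a / φ b) * (φ a / φ b) + c := rfl
    rw [e1, e2, List.length_cons]
    simp only [map_add, map_mul, map_intCast, v]
    refine ⟨?_, by ring⟩
    have : φ a / φ b * φ b = φ a := div_mul_cancel₀ _ hb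
    linear_combination φ a * u - φ b ^ l.length * pv l (φ a / φ b) * this

theorem lho {R S : Type} [CommRing R] [Field S] (φ : R →+* S) (a b a' b' : R) (hb : φ b ≠ 0)
    (hb' : φ b' ≠ 0) {n : ℕ} (l : List (List ℤ)) (e : ∀ c ∈ l, c.length = n + 1) :
    φ (hoS a b a' b' l).1 * φ b * φ b' =
      φ b ^ (n + 1) * φ b' ^ l.length * pv2 l (φ a / φ b) (φ a' / φ b') ∧
      φ (hoS a b a' b' l).2 = φ b' ^ l.length := by
  induction l with
  | nil => simp [hoS, pv2]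
  | cons c l ih =>
    obtain ⟨u, v⟩ := ih fun q hq => e q (by simp [hq])
    have w := (lhi φ a b hb c).1
    rw [e c (by simp)] at w
    have e1 : hoS a b a' b' (c :: l) = ((hoS a b a' b' l).1 * a' +
      (hiS a b c).1 * (hoS a b a' b' l).2, (hoS a b a' b' l).2 * b') := rfl
    have e2 : pv2 (c :: l) (φ a / φ b) (φ a' / φ b') =
      pv2 l (φ a / φ b) (φ a' / φ b') * (φ a' / φ b') + pv c (φ a / φ b) := rfl
    rw [e1, e2, List.length_cons]
    simp only [map_add, map_mul, v]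
    refine ⟨?_, by ring⟩
    have : φ a' / φ b' * φ b' = φ a' := div_mul_cancel₀ _ hb'
    linear_combination φ a' * u + φ b' ^ l.length * φ b' * w -
      φ b ^ (n + 1) * φ b' ^ l.length * pv2 l (φ a / φ b) (φ a' / φ b') * this

theorem unit {A M : List (Bk × ℕ)} (hN : 0 < N) (hA : ∀ p ∈ A, p.1.ok N = true)
    (hM : ∀ p ∈ M, p.1.ok N = true) (e : wtL A = wtL M) :
    IsF N (wtL M) (serL A) ∧ IsF N (wtL M) (serL M) ∧ serL M ≠ 0 ∧ io (serL M) ≠ 0 ∧
      ∃ u, U.MUnit N u (io (serL A) / io (serL M)) := by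
  obtain ⟨f, u, v⟩ := fmon A hA
  obtain ⟨g, u', v'⟩ := fmon M hM
  rw [e] at u
  obtain ⟨h1, h2⟩ := rUnit N _ f g _ _ hN u u' v'
  refine ⟨⟨f, u⟩, ⟨g, u'⟩, h1, fun h => h1 ?_,
    _, h2.hol, fun z => div_ne_zero (v z) (v' z), h2.inv, h2.cusp, h2.exp⟩
  have h3 : PowerSeries.map (Int.castRingHom ℚ) (serL M) = 0 :=
    HahnSeries.ofPowerSeries_injective (Γ := ℤ) (h.trans (map_zero _).symm)
  ext n
  simpa using congrArg (PowerSeries.coeff n) h3

theorem map_pv {R S : Type} [CommRing R] [CommRing S] (φ : R →+* S) (l : List ℤ) (x : R) :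
    φ (pv l x) = pv l (φ x) := by
  induction l with
  | nil => simp [pv]
  | cons c l ih =>
    show φ (pv l x * x + c) = pv l (φ x) * φ x + c
    rw [map_add, map_mul, ih, map_intCast]

theorem aeval_pv {S : Type} [CommRing S] [Algebra ℚ S] (l : List ℤ) (x : S) :
    aeval x (pv l (X : ℚ[X])) = pv l x := by
  simpa using map_pv (aeval (R := ℚ) x).toRingHom l X

theorem pv_ne (l : List ℤ) (t : ℤ) (h : pv l t ≠ 0) : pv l (X : ℚ[X]) ≠ 0 := fun h0 => h <| by
  have h1 := aeval_pv l (t : ℚ)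
  have h2 := map_pv (Int.castRingHom ℚ) l t
  rw [h0, map_zero] at h1
  simp only [eq_intCast] at h2
  exact_mod_cast h2.trans h1.symm

end Snd

theorem sound {N : ℕ} {A M A' M' : List (Bk × ℕ)} {c : List (List ℤ)} {n B B' : ℕ}
    (h : chk N A M A' M' c n B B' = true) : ∃ u v F G, U.MUnit N u F ∧ U.MUnit N v G ∧
      Transcendental ℚ F ∧ pv2 c F G = 0 := by
  simp only [chk, Bool.and_eq_true, List.all_eq_true, decide_eq_true_eq, Nat.beq_eq,
    beq_iff_eq] at h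
  obtain ⟨⟨⟨hok, hc⟩, hN, w, w', hB, hne, hS⟩, hn⟩ := h
  obtain ⟨z1, z2, z3⟩ := chkN_sound hok hB hn
  obtain ⟨fA, fM, nM, iM, u, hu⟩ := Snd.unit (A := A) (M := M) (by omega)
    (fun p hp => hok p (by simp [hp])) (fun p hp => hok p (by simp [hp])) w
  obtain ⟨fA', fM', -, iM', v, hv⟩ := Snd.unit (A := A') (M := M') (by omega)
    (fun p hp => hok p (by simp [hp])) (fun p hp => hok p (by simp [hp])) w'
  obtain ⟨f, hf⟩ := Snd.fho fA fM fA' fM' c hc hne
  have h0 := rSturm N _ B f _ hN hf z3 hS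
  have h1 := (Snd.lho io (serL A) _ (serL A') _ iM iM' c hc).1
  rw [h0, map_zero, zero_mul, zero_mul] at h1
  exact ⟨u, v, _, _, hu, hv, rFld.tr _ _ B' nM z1 z2, (mul_eq_zero.1 h1.symm).resolve_left
    (mul_ne_zero (pow_ne_zero _ iM) (pow_ne_zero _ iM'))⟩

/-- The relation implies the equation of the curve for `x = c F + x₀`,
`y = (γ(F) G - α(F)) / β(F)`. -/
def Eqn (l : ℤ × ℤ × ℤ × ℤ × ℤ) (r : List (List ℤ)) (c : ℚ) (x₀ : ℤ) (α β γ : List ℤ) : Prop :=
  ∀ (K : Type) [Field K] [CharZero K] (F G : K), pv2 r F G = 0 →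
    (pv γ F * G - pv α F) ^ 2 + (l.1 * (c * F + x₀) + l.2.2.1) * (pv γ F * G - pv α F) * pv β F =
      pv β F ^ 2 * ((c * F + x₀) ^ 3 + l.2.1 * (c * F + x₀) ^ 2 + l.2.2.2.1 * (c * F + x₀) +
        l.2.2.2.2)

theorem fin {l : ℤ × ℤ × ℤ × ℤ × ℤ} {N : ℕ} {A M A' M' : List (Bk × ℕ)} {r : List (List ℤ)}
    {n B B' : ℕ} (c : ℚ) (x₀ : ℤ) (α β γ : List ℤ) (h : chk N A M A' M' r n B B' = true)
    (hc : U.cond (U.mkW l) = N ∧ c ≠ 0 ∧ pv β (7 : ℤ) ≠ 0 ∧ pv γ (7 : ℤ) ≠ 0)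
    (he : Eqn l r c x₀ α β γ) : U.Param (U.toQ (U.mkW l)) (U.cond (U.mkW l)) := by
  obtain ⟨u, v, F, G, hu, hv, hT, h0⟩ := sound h
  rw [hc.1]
  have := charZeroL
  refine ⟨u, v, F, G, hu, hv, rFld.gen _ F G c x₀ (pv α X) (pv β X) (pv γ X) hT hc.2.1
    (Snd.pv_ne _ _ hc.2.2.1) (Snd.pv_ne _ _ hc.2.2.2) ?_⟩
  simp only [Snd.aeval_pv, algMapL, U.mkW, WeierstrassCurve.map_a₁, WeierstrassCurve.map_a₂,
    WeierstrassCurve.map_a₃, WeierstrassCurve.map_a₄, WeierstrassCurve.map_a₆, eq_intCast,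
    Rat.cast_intCast]
  exact he L F G h0

end Pool.Agent.MP_b2c033_nt.UP
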