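import Pool.Agent.MP_b2c033_nt.H87.Spec

/-!
Explicit modular units: differences of values of the Weierstrass function at torsion points, the
Sturm bound, and the check of series identities by evaluation at a power of two. The statements.
-/

namespace Pool.Agent.MP_b2c033_nt.UP

open H87 Polynomial
open UpperHalfPlane hiding I
open scoped Real Manifold MatrixGroups ModularForm PowerSeries LaurentSeries

noncomputable section

/-- The function field of `E` is generated by two modular units of level `M`. -/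
def Par (E : WeierstrassCurve ℚ) (M : ℕ) : Prop :=
  ∃ u v F G, Reg M u F ∧ (∀ z, u z ≠ 0) ∧ Reg M v G ∧ (∀ z, v z ≠ 0) ∧
    Nonempty (IntermediateField.adjoin ℚ {F, G} ≃ₐ[ℚ] E.toAffine.FunctionField)

/-- A modular form of weight `k` on `Γ₁(N)` with integral expansion `a`. -/
structure Fm (N k : ℕ) (f : ℍ → ℂ) (a : ℤ⟦X⟧) : Prop where
  hol : MDifferentiable 𝓘(ℂ) 𝓘(ℂ) f
  inv : ∀ γ ∈ CongruenceSubgroup.Gamma1 N, f ∣[(k : ℤ)] γ = f
  bdd : ∀ γ : SL(2, ℤ), IsBoundedAtImInfty (f ∣[(k : ℤ)] γ)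
  exp : ∀ z : ℍ, HasSum (fun n : ℕ => ((PowerSeries.coeff n a : ℤ) : ℂ) * nome z ^ n) (f z)

/-- The lattice spanned by `τ` and `1`. -/
def lat (τ : ℍ) : PeriodPair where
  ω₁ := τ
  ω₂ := 1
  indep := by
    rw [LinearIndependent.pair_iff]
    intro s t h
    have h1 : s * τ.im = 0 := by simpa using congrArg Complex.im h
    have h2 : s = 0 := (mul_eq_zero.1 h1).resolve_right τ.im_pos.ne'
    exact ⟨h2, by simpa [h2] using h⟩

/-- The Weierstrass function of that lattice. -/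
def wp (τ : ℍ) (z : ℂ) : ℂ := (lat τ).weierstrassP z

/-- The point `d τ`. -/
def sc (d : ℕ) (τ : ℍ) : ℍ := ofComplex (d * τ)

theorem coe_sc {d : ℕ} (hd : 0 < d) (τ : ℍ) : (sc d τ : ℂ) = d * τ := by
  rw [sc, ofComplex_apply_of_im_pos (by simpa using mul_pos (Nat.cast_pos.2 hd) τ.im_pos)]

/-- Lambert series: the sum of `c k * X ^ (r * k)` over `r ≡ a` modulo `d`. -/
def lamS (c : ℕ → ℕ) (d a : ℕ) : ℤ⟦X⟧ :=
  PowerSeries.mk fun n => ∑ p ∈ n.divisorsAntidiagonal, if p.1 % d = a % d then (c p.2 : ℤ) else 0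

/-- The positive part of `(± 1) ^ k * k`. -/
def cp (e : Bool) (k : ℕ) : ℕ := cond (e && Nat.beq (k % 2) 1) 0 k

/-- The negative part of `(± 1) ^ k * k`. -/
def cm (e : Bool) (k : ℕ) : ℕ := cond (e && Nat.beq (k % 2) 1) k 0

/-- The sum over `r ≡ ± a`. -/
def pS (c : ℕ → ℕ) (d a : ℕ) : ℤ⟦X⟧ := lamS c d a + lamS c d (d - a)

/-- The expansion of a difference of two values. -/
def dS (d a : ℕ) (e : Bool) (b : ℕ) (f : Bool) : ℤ⟦X⟧ :=
  (pS (cp e) d a + pS (cm f) d b) - (pS (cm e) d a + pS (cp f) d b)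

/-- The expansion of `1728 Δ(d τ)`. -/
def eS (d : ℕ) : ℤ⟦X⟧ :=
  (1 + 240 * lamS (fun k => k ^ 3) d d) ^ 3 - (1 - 504 * lamS (fun k => k ^ 5) d d) ^ 2

/-- A half or zero. -/
def hf (e : Bool) : ℝ := cond e (1 / 2) 0

/-- The difference of two values. -/
def dF (d a : ℕ) (e : Bool) (b : ℕ) (f : Bool) (τ : ℍ) : ℂ :=
  (wp (sc d τ) (a * τ + hf e) - wp (sc d τ) (b * τ + hf f)) / (2 * π * Complex.I) ^ 2

/-- The coefficients at a general torsion point. -/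
def co (h : ℕ) (a : ℤ) (t : ℝ) (n : ℕ) : ℂ :=
  ∑ p ∈ n.divisorsAntidiagonal, (p.2 : ℂ) *
    ((if (h : ℤ) ∣ p.1 - a then Complex.exp (2 * π * Complex.I * (p.2 * t)) else 0) +
      if (h : ℤ) ∣ p.1 + a then Complex.exp (-(2 * π * Complex.I * (p.2 * t))) else 0)

/-! ### Analysis -/

def SInj : Prop := ∀ (L : PeriodPair) (z w : ℂ), z ∉ L.lattice → w ∉ L.lattice →
  L.weierstrassP z = L.weierstrassP w → z - w ∈ L.lattice ∨ z + w ∈ L.lattice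

def SMod : Prop := ∀ (γ : SL(2, ℤ)) (τ : ℍ) (z : ℂ),
  wp (γ • τ) z = ((γ 1 0 : ℂ) * τ + γ 1 1) ^ 2 * wp τ (((γ 1 0 : ℂ) * τ + γ 1 1) * z)

def SExp : Prop := ∀ (h : ℕ) (a b : ℤ) (t s : ℝ), 0 < h → ∃ c : ℂ,
  (¬(h : ℤ) ∣ a → ¬(h : ℤ) ∣ b → c = 0) ∧ ∀ τ : ℍ,
    HasSum (fun n : ℕ => (if n = 0 then c else co h a t n - co h b s n) *
        Complex.exp (2 * π * Complex.I * τ / h) ^ n)
      ((wp τ (a * τ / h + t) - wp τ (b * τ / h + s)) / (2 * π * Complex.I) ^ 2)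

/-- A function with an expansion is holomorphic; bounds at the cusps pass to `f(d τ)`. -/
structure SSc : Prop where
  hol : ∀ (f : ℍ → ℂ) (c : ℕ → ℂ), (∀ z : ℍ, HasSum (fun n => c n * nome z ^ n) (f z)) →
    MDifferentiable 𝓘(ℂ) 𝓘(ℂ) f
  bdd : ∀ (f : ℍ → ℂ) (k : ℤ) (d : ℕ), 0 < d →
    (∀ γ : SL(2, ℤ), IsBoundedAtImInfty (f ∣[k] γ)) →
    ∀ γ : SL(2, ℤ), IsBoundedAtImInfty ((fun τ => f (sc d τ)) ∣[k] γ)
  cj : ∀ (d : ℕ) (γ : SL(2, ℤ)), 0 < d → (d : ℤ) ∣ γ 1 0 → ∃ δ : SL(2, ℤ), δ 0 0 = γ 0 0 ∧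
    δ 0 1 = d * γ 0 1 ∧ d * δ 1 0 = γ 1 0 ∧ δ 1 1 = γ 1 1 ∧ ∀ τ : ℍ, sc d (γ • τ) = δ • sc d τ

/-- Differences of values are bounded at all cusps. -/
def SBd : Prop := ∀ (d a : ℕ) (e : Bool) (b : ℕ) (f : Bool), 0 < d →
  ∀ γ : SL(2, ℤ), IsBoundedAtImInfty (dF d a e b f ∣[(2 : ℤ)] γ)

def SDe : Prop := ∀ (d a : ℕ) (e : Bool) (b : ℕ) (f : Bool), 0 < a → a < d → 0 < b → b < d →
  ∀ z : ℍ, HasSum (fun n : ℕ => ((PowerSeries.coeff n (dS d a e b f) : ℤ) : ℂ) * nome z ^ n)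
    (dF d a e b f z)

def SBlk : Prop := ∀ (N d a : ℕ) (e : Bool) (b : ℕ) (f : Bool), 0 < a → a < d → 0 < b → b < d →
  d ∣ N → (e = true ∨ f = true → 2 * d ∣ N) → (e = f → a ≠ b ∧ a + b ≠ d) →
  Fm N 2 (dF d a e b f) (dS d a e b f) ∧ ∀ z, dF d a e b f z ≠ 0

def SDel : Prop := ∀ N d : ℕ, 0 < d → d ∣ N → ∃ f, Fm N 12 f (eS d) ∧ ∀ z, f z ≠ 0

structure SCl : Prop where
  cst : ∀ (N : ℕ) (c : ℤ), Fm N 0 (fun _ => c) (c : ℤ⟦X⟧)
  zero : ∀ N k : ℕ, Fm N k (fun _ => 0) 0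
  add : ∀ {N k : ℕ} {f g a b}, Fm N k f a → Fm N k g b → Fm N k (fun z => f z + g z) (a + b)
  mul : ∀ {N k l : ℕ} {f g a b}, Fm N k f a → Fm N l g b →
    Fm N (k + l) (fun z => f z * g z) (a * b)

def SSturm : Prop := ∀ (N k B : ℕ) (f : ℍ → ℂ) (a : ℤ⟦X⟧), 2 < N → Fm N k f a →
  (∀ n < B, PowerSeries.coeff n a = 0) → k * N ^ 2 < 24 * B → a = 0

def SUnit : Prop := ∀ (N k : ℕ) (f g : ℍ → ℂ) (a b : ℤ⟦X⟧), 0 < N → Fm N k f a → Fm N k g b →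
  (∀ z, g z ≠ 0) → b ≠ 0 ∧ Reg N (fun z => f z / g z) (io a / io b)

def OfBd : Prop := SMod → SExp → SSc → SBd
def OfDe : Prop := SExp → SDe
def OfBlk : Prop := SInj → SMod → SSc → SBd → SDe → SBlk
def OfDel : Prop := SSc → SCl → SDel

/-! ### Evaluation at a power of two -/

/-- `x` is the value at `2 ^ K`, modulo `2 ^ (K * B)`, of a polynomial that agrees with `a` below
degree `B` and whose coefficients have absolute values of sum at most `s`. -/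
def Rep (K B : ℕ) (a : ℤ⟦X⟧) (x s : ℕ) : Prop :=
  ∃ (p : ℤ[X]) (m : ℕ[X]), (∀ n < B, PowerSeries.coeff n a = p.coeff n) ∧
    (∀ n, (p.coeff n).natAbs ≤ m.coeff n) ∧ m.eval 1 ≤ s ∧
    (x : ℤ) ≡ p.eval (2 ^ K) [ZMOD 2 ^ (K * B)]

structure SKr : Prop where
  nat : ∀ K B c : ℕ, Rep K B (c : ℤ⟦X⟧) c c
  add : ∀ {K B a b x y s t}, Rep K B a x s → Rep K B b y t → Rep K B (a + b) (x + y) (s + t)
  mul : ∀ {K B a b x y s t}, Rep K B a x s → Rep K B b y t → Rep K B (a * b) (x * y) (s * t)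
  neg : ∀ {K B a x s}, Rep K B a x s → Rep K B (-a) (2 ^ (K * B) - x % 2 ^ (K * B)) s
  red : ∀ {K B a x s}, Rep K B a x s → Rep K B a (x % 2 ^ (K * B)) s
  mono : ∀ {K B B' a x s}, B' ≤ B → Rep K B a x s → Rep K B' a x s
  zero : ∀ {K B a x s}, Rep K B a x s → s < 2 ^ K → x % 2 ^ (K * B) = 0 →
    ∀ n < B, PowerSeries.coeff n a = 0
  ne : ∀ {K B a x s}, Rep K B a x s → x % 2 ^ (K * B) ≠ 0 → ∃ n < B, PowerSeries.coeff n a ≠ 0

/-- Forces the evaluation of `x`. -/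
def frc (x : ℕ) (f : ℕ → ℕ) : ℕ := Nat.rec (f 0) (fun n _ => f n.succ) x

theorem frc_eq (x : ℕ) (f : ℕ → ℕ) : frc x f = f x := by cases x <;> rfl

/-- The sum of `c (lo + i) * 2 ^ (w * i)` over `i < 2 ^ t`. -/
def row (c : ℕ → ℕ) (w t : ℕ) : ℕ → ℕ :=
  Nat.rec c (fun t ih lo => Nat.add (ih lo)
    (frc (Nat.add lo (Nat.pow 2 t)) fun l => Nat.shiftLeft (ih l) (Nat.mul w (Nat.pow 2 t)))) t

/-- The sum of `2 ^ (w * i)` over `i < 2 ^ t`. -/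
def geo (w t : ℕ) : ℕ :=
  Nat.rec 1 (fun t ih => frc ih fun x =>
    Nat.add x (Nat.shiftLeft x (Nat.mul w (Nat.pow 2 t)))) t

/-- The sum of `g i` over `i < n`. -/
def sm (g : ℕ → ℕ) (n : ℕ) : ℕ := Nat.rec 0 (fun i ih => Nat.add ih (g i)) n

/-- The value of a truncation of `lamS c d a`: the columns `k = 1, …, J` in full, then the rows
`r = a + i * d` with `r * (J + 1) < B` from `k = J + 1` on. -/
def lamN (c : ℕ → ℕ) (d a K B J : ℕ) : ℕ :=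
  Nat.add
    (sm (fun j => Nat.shiftLeft (Nat.mul (c (j + 1))
      (geo (K * (d * (j + 1))) (Nat.log2 (B / (d * (j + 1))) + 1))) (K * (a * (j + 1)))) J)
    (sm (fun i => frc (a + i * d) fun r => Nat.shiftLeft
      (row c (K * r) (Nat.log2 (B / r) + 1) (J + 1)) (K * (r * (J + 1)))) (B / (d * (J + 1)) + 1))

def SLam : Prop := ∀ (c : ℕ → ℕ) (d a K B J : ℕ), 0 < a → a ≤ d →
  Rep K B (lamS c d a) (lamN c d a K B J) (lamN c d a 0 B J)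

/-! ### Fields -/

structure SFld : Prop where
  iso : ∀ (W : WeierstrassCurve ℚ) (x y : L), Transcendental ℚ x →
    y ^ 2 + algebraMap ℚ L W.a₁ * x * y + algebraMap ℚ L W.a₃ * y =
      x ^ 3 + algebraMap ℚ L W.a₂ * x ^ 2 + algebraMap ℚ L W.a₄ * x + algebraMap ℚ L W.a₆ →
    Nonempty (IntermediateField.adjoin ℚ {x, y} ≃ₐ[ℚ] W.toAffine.FunctionField)
  tr : ∀ (a b : ℤ⟦X⟧) (B : ℕ), b ≠ 0 → (∀ n < B, PowerSeries.coeff n b = 0) →
    (∃ n < B, PowerSeries.coeff n a ≠ 0) → Transcendental ℚ (io a / io b)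
  gen : ∀ (W : WeierstrassCurve ℚ) (F G : L) (c x₀ : ℚ) (α β γ : ℚ[X]), Transcendental ℚ F →
    c ≠ 0 → β ≠ 0 → γ ≠ 0 →
    (aeval F γ * G - aeval F α) ^ 2 +
      (algebraMap ℚ L W.a₁ * (algebraMap ℚ L c * F + algebraMap ℚ L x₀) + algebraMap ℚ L W.a₃) *
        (aeval F γ * G - aeval F α) * aeval F β =
      aeval F β ^ 2 * ((algebraMap ℚ L c * F + algebraMap ℚ L x₀) ^ 3 +
        algebraMap ℚ L W.a₂ * (algebraMap ℚ L c * F + algebraMap ℚ L x₀) ^ 2 +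
        algebraMap ℚ L W.a₄ * (algebraMap ℚ L c * F + algebraMap ℚ L x₀) + algebraMap ℚ L W.a₆) →
    Nonempty (IntermediateField.adjoin ℚ {F, G} ≃ₐ[ℚ] W.toAffine.FunctionField)

end

end Pool.Agent.MP_b2c033_nt.UP
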