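import Pool.Agent.MP_b2c033_nt.UP.Spec

/-!
Change of the spacing of the digits.
-/

namespace Pool.Agent.MP_b2c033_nt.UP

open scoped PowerSeries

/-- Moves the `2 ^ t` digits of `x` in base `2 ^ K₀` to base `2 ^ K`. -/
def spr (K₀ K t : ℕ) : ℕ → ℕ :=
  Nat.rec (fun x => x) (fun t ih x => Nat.rec 0 (fun n _ => Nat.add
    (ih (Nat.land n.succ (Nat.sub (Nat.shiftLeft 1 (Nat.mul K₀ (Nat.pow 2 t))) 1)))
    (Nat.shiftLeft (ih (Nat.shiftRight n.succ (Nat.mul K₀ (Nat.pow 2 t))))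
      (Nat.mul K (Nat.pow 2 t)))) x) t

/-- From the value at `2 ^ (K₀ + 1)` to the value at `2 ^ K`. -/
def resp (K₀ K B x : ℕ) : ℕ :=
  Nat.add
    (spr (K₀ + 1) K (Nat.log2 B + 1)
      (Nat.land (Nat.add x (Nat.shiftLeft (geo (K₀ + 1) (Nat.log2 B + 1)) K₀))
        (Nat.sub (Nat.shiftLeft 1 ((K₀ + 1) * B)) 1)))
    (Nat.sub (Nat.shiftLeft 1 (K * B))
      (Nat.land (Nat.shiftLeft (geo K (Nat.log2 B + 1)) K₀) (Nat.sub (Nat.shiftLeft 1 (K * B)) 1)))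

def SResp : Prop := ∀ (K₀ K B : ℕ) (a : ℤ⟦X⟧) (x s : ℕ), Rep (K₀ + 1) B a x s → s < 2 ^ K₀ →
  Rep K B a (resp K₀ K B x) s

end Pool.Agent.MP_b2c033_nt.UP
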